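import Pool.Agent.H918.D.Ent
import Pool.Graph.R_pool_sql_team_seeded_63374d34.N154.DD.Kob

/-! The infinitesimal estimate, and the Kobayashi pseudodistance, with bad fibres. (After the file
`N154/DD/Kob.lean` of an earlier team.) -/

set_option autoImplicit false

open Filter Topology Metric Set

namespace Pool.Agent.H918.SS

open Pool.Agent.Y190.OP Pool.Agent.N155 Pool.Agent.N154.GG

variable {N : ℕ} {T : Set (Mat N)} {Λ : AddSubgroup ℂ} {a : Mat N → ℂ} {κ : Type}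
    {η : κ → (Fin N → ℂ) → (Fin N → ℂ) → (Fin N → ℂ) → ℂ} {𝔅 : Set ℂ} {δ : ℝ}
    {r : ℕ} {e : Fin r → ℂ → Mat N}

/-- the map to the torus is Lipschitz -/
theorem TD.lip (hT : TD T Λ a) : ∃ L : ℝ, 1 ≤ L ∧ ∀ M ∈ T, ∀ M' ∈ T, ∃ l ∈ Λ,
    ‖a M - a M' - l‖ ≤ L * ‖M - M'‖ := by
  by_contra hcon
  push Not at hcon
  have hcon' : ∀ n : ℕ, ∃ M ∈ T, ∃ M' ∈ T, ∀ l ∈ Λ, ((n : ℝ) + 1) * ‖M - M'‖ < ‖a M - a M' - l‖ :=
    fun n => hcon ((n : ℝ) + 1) (by
      have : (0 : ℝ) ≤ n := Nat.cast_nonneg n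
      linarith)
  choose M hM M' hM' h using hcon'
  obtain ⟨D, hD⟩ := hT.coc
  have hsmall : ∀ n, ‖M n - M' n‖ ≤ D / ((n : ℝ) + 1) := by
    intro n
    obtain ⟨l, hl, hl'⟩ := hD (a (M n) - a (M' n))
    rw [le_div_iff₀ (by positivity)]
    have := h n l hl
    linarith
  have h0 : Tendsto (fun n => M n - M' n) atTop (𝓝 0) := by
    refine squeeze_zero_norm hsmall ?_
    have h1 := (tendsto_one_div_add_atTop_nhds_zero_nat (𝕜 := ℝ)).const_mul D
    rw [mul_zero] at h1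
    refine h1.congr fun n => ?_
    ring
  obtain ⟨M0, hM0, s, hs, hlim⟩ := hT.comp.tendsto_subseq hM
  have hlim' : Tendsto (M' ∘ s) atTop (𝓝 M0) := by
    have h1 := hlim.sub (h0.comp hs.tendsto_atTop)
    rw [sub_zero] at h1
    refine h1.congr fun n => ?_
    simp
  obtain ⟨O, w, hO, hMO, hc, ha, -⟩ := hT.loc M0 hM0
  obtain ⟨K, t, ht, hK⟩ := (hc M0 hMO).exists_lipschitzOnWith
  have hn : Tendsto (fun n => ((s n : ℕ) : ℝ)) atTop atTop :=
    tendsto_natCast_atTop_atTop.comp hs.tendsto_atTop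
  obtain ⟨n, e1, e2, e3⟩ := ((hlim.eventually (inter_mem ht (hO.mem_nhds hMO))).and
    ((hlim'.eventually (inter_mem ht (hO.mem_nhds hMO))).and
    (hn.eventually_ge_atTop (K : ℝ)))).exists
  have e4 := Λ.sub_mem (ha _ ⟨e1.2, hM (s n)⟩) (ha _ ⟨e2.2, hM' (s n)⟩)
  have e5 := h (s n) _ e4
  have e6 := hK.dist_le_mul _ e1.1 _ e2.1
  rw [dist_eq_norm, dist_eq_norm] at e6
  simp only [Function.comp] at e4 e5 e6
  have e7 : a (M (s n)) - a (M' (s n)) - (a (M (s n)) - w (M (s n)) - (a (M' (s n)) -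
      w (M' (s n)))) = w (M (s n)) - w (M' (s n)) := by ring
  rw [e7] at e5
  have e8 : (K : ℝ) * ‖M (s n) - M' (s n)‖ ≤ ((s n : ℕ) : ℝ) * ‖M (s n) - M' (s n)‖ :=
    mul_le_mul_of_nonneg_right e3 (norm_nonneg _)
  have := norm_nonneg (M (s n) - M' (s n))
  linarith

/-- the matrix lies over a value whose distance to the bad values is at least `D` -/
def Far (𝔅 : Set ℂ) (a : Mat N → ℂ) (D : ℝ) (M : Mat N) : Prop := ∀ b ∈ 𝔅, D ≤ ‖a M - b‖

theorem Far.shift (hb : Bd Λ 𝔅 δ) {D : ℝ} {M : Mat N} (h : Far 𝔅 a D M) {z : ℂ}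
    (hz : z - a M ∈ Λ) : ∀ b ∈ 𝔅, D ≤ ‖z - b‖ := by
  intro b hbb
  have h1 := h (b + -(z - a M)) (hb.inv _ hbb _ (Λ.neg_mem hz))
  have e : a M - (b + -(z - a M)) = z - b := by ring
  rwa [e] at h1

theorem Far.near (hb : Bd Λ 𝔅 δ) {D L : ℝ} {M M' : Mat N} (h : Far 𝔅 a D M)
    (hl : ∃ l ∈ Λ, ‖a M - a M' - l‖ ≤ L * ‖M - M'‖) : Far 𝔅 a (D - L * ‖M - M'‖) M' := by
  intro b hbb
  obtain ⟨l, hl, hl'⟩ := hl
  have h1 := h (b + l) (hb.inv _ hbb _ hl)
  have e : a M - (b + l) = (a M - a M' - l) + (a M' - b) := by ring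
  rw [e] at h1
  have := norm_add_le (a M - a M' - l) (a M' - b)
  linarith

/-- **The infinitesimal estimate** -/
theorem inf_estimateB (hT : TD T Λ a) (hG : RIG T Λ a) (hb : Bd Λ 𝔅 δ) (hf : FibL T Λ a 𝔅)
    (hE : En T Λ a e) {q : ℕ} {K : ℝ} (hK : 0 ≤ K) (hLM : LMh T Λ a 𝔅 δ q e K)
    {ε : ℝ} (hε : 0 < ε) : ∃ C : ℝ, 0 < C ∧ ∀ P : ℂ → Mat N, HolP (ball 0 1) P →
      (∀ w ∈ ball (0 : ℂ) 1, P w ∈ T) → ∀ D : ℝ, 0 < D → D ≤ 1 →
      (∀ M ∈ Xi e, D ≤ ‖P 0 - M‖) → Far 𝔅 a D (P 0) → ‖fderiv ℝ P 0‖ * D ^ (1 + ε) ≤ C := by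
  obtain ⟨C1, hC1, hgrad⟩ := gradient0 hT hb hf
  obtain ⟨k0, hk0⟩ := main_estimateB hT hG hb hf hE hK hLM
  set m : ℕ := r + 4 * q with hm
  set k : ℕ := max k0 ⌈(m : ℝ) / ε⌉₊ with hk
  obtain ⟨C2, hC2, hmain⟩ := hk0 k (le_max_left _ _)
  have hqpos : 0 < (qk k : ℝ) := by
    have : 0 < qk k := by
      unfold qk
      positivity
    exact_mod_cast this
  have hmq : (m : ℝ) * ((qk k : ℕ) : ℝ)⁻¹ ≤ ε := by
    rw [← div_eq_mul_inv, div_le_iff₀ hqpos]
    have h1 : (m : ℝ) / ε ≤ (qk k : ℝ) := by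
      have h2 : (m : ℝ) / ε ≤ (k : ℝ) :=
        (Nat.le_ceil _).trans (by exact_mod_cast le_max_right _ _)
      have h3 : (k : ℝ) ≤ (qk k : ℝ) := by exact_mod_cast qk_ge k
      linarith
    rw [div_le_iff₀ hε] at h1
    linarith
  have hδ := hb.pos
  set μ : ℝ := min 1 (1 / δ) with hμ
  have hμ0 : 0 < μ := by positivity
  have hμ1 : μ ≤ 1 := min_le_left _ _
  set c3 : ℝ := (μ ^ (4 * q) / 2 ^ r) ^ (((qk k : ℕ) : ℝ)⁻¹) with hc3
  have hc30 : 0 < c3 := Real.rpow_pos_of_pos (by positivity) _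
  refine ⟨8 * C1 * (C2 / c3 + 1), by positivity, fun P hP hPT D hD0 hD1 hDM hfar => ?_⟩
  obtain ⟨φ, hφ, hov⟩ := hT.exists_lift_ball hP hPT
  have hDsc : Dsc T Λ a 0 1 P φ := ⟨hP, hPT, hφ, hov⟩
  have h2 := hmain P φ 0 1 one_pos hDsc
  rw [div_one] at h2
  set s := sg φ 0 with hs
  have hs0 : 0 ≤ s := sg_nn φ 0
  set qi : ℝ := ((qk k : ℕ) : ℝ)⁻¹ with hqi
  have hq0 : 0 < qi := inv_pos.2 hqpos
  have hfar' : ∀ b ∈ 𝔅, D ≤ ‖φ 0 - b‖ := hfar.shift hb (hov 0 (mem_ball_self one_pos))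
  have h3 : D ^ m * μ ^ (4 * q) ≤ Dh 𝔅 δ q e P φ 0 := by
    have e1 : D ^ r ≤ Pr e P φ 0 := by
      unfold Pr
      calc D ^ r = ∏ _j : Fin r, D := by
            rw [Finset.prod_const, Finset.card_univ, Fintype.card_fin]
        _ ≤ _ := Finset.prod_le_prod (fun _ _ => hD0.le) fun j _ => hDM _ ⟨j, φ 0, rfl⟩
    have e2 : D * μ ≤ kk 𝔅 δ (φ 0) := by
      refine le_trans ?_ (hb.kk_lower hfar')
      apply le_min
      · exact mul_le_one₀ hD1 hμ0.le hμ1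
      · rw [div_eq_mul_one_div]
        exact mul_le_mul_of_nonneg_left (min_le_right _ _) hD0.le
    unfold Dh
    calc D ^ m * μ ^ (4 * q) = D ^ r * (D * μ) ^ (4 * q) := by
          rw [hm, pow_add, mul_pow]
          ring
      _ ≤ _ := mul_le_mul e1 (pow_le_pow_left₀ (by positivity) e2 _) (by positivity)
            (Pr_nonneg e P φ 0)
  have h4 : D ^ ε * c3 ≤ (Dh 𝔅 δ q e P φ 0 / 2 ^ r) ^ qi := by
    have e1 : D ^ ε ≤ D ^ ((m : ℝ) * qi) :=
      Real.rpow_le_rpow_of_exponent_ge hD0 hD1 hmq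
    have e2 : D ^ ((m : ℝ) * qi) = (D ^ m) ^ qi := by
      rw [Real.rpow_mul hD0.le, Real.rpow_natCast]
    calc D ^ ε * c3 ≤ (D ^ m) ^ qi * c3 := by
          rw [← e2]
          exact mul_le_mul_of_nonneg_right e1 hc30.le
      _ = (D ^ m * (μ ^ (4 * q) / 2 ^ r)) ^ qi := by
          rw [hc3, Real.mul_rpow (by positivity) (by positivity)]
      _ ≤ _ := by
          apply Real.rpow_le_rpow (by positivity) _ hq0.le
          rw [mul_div_assoc']
          exact div_le_div_of_nonneg_right h3 (by positivity)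
  have h5 : s * D ^ ε ≤ C2 / c3 := by
    rw [le_div_iff₀ hc30]
    calc s * D ^ ε * c3 = s * (D ^ ε * c3) := by ring
      _ ≤ s * (Dh 𝔅 δ q e P φ 0 / 2 ^ r) ^ qi := mul_le_mul_of_nonneg_left h4 hs0
      _ ≤ C2 := h2
  -- a disc which does not meet the bad fibres
  set s' : ℝ := max s 1 with hs'
  have hs'1 : 1 ≤ s' := le_max_right _ _
  have hs'0 : 0 < s' := one_pos.trans_le hs'1
  set ρ : ℝ := D / (8 * s') with hρ
  have hρ0 : 0 < ρ := by positivity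
  have hρ4 : 4 * ρ * s' ≤ 1 / 2 := by
    rw [hρ]
    have : 4 * (D / (8 * s')) * s' = D / 2 := by field_simp; norm_num
    rw [this]
    linarith
  have hρ1 : ρ ≤ 1 := by
    have : ρ ≤ ρ * s' := le_mul_of_one_le_right hρ0.le hs'1
    linarith
  have hder : ∀ w ∈ ball (0 : ℂ) ρ, ‖deriv φ w‖ ≤ 4 * s' := by
    intro w hw
    rw [mem_ball_zero_iff] at hw
    have e1 : sg φ w ≤ 4 * s' := by
      apply sg_harnack_l hφ hs'0 (le_max_left _ _) (by rwa [one_mul])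
      rw [sub_zero]
      have : 4 * ‖w‖ * s' ≤ 4 * ρ * s' := by gcongr
      linarith
    have e2 : ball w (1 - ρ) ⊆ ball 0 1 := by
      apply ball_subset_ball'
      rw [dist_zero_right]
      linarith
    refine (deriv_le_sg_l (hφ.mono e2) ?_).trans e1
    have : ρ * 1 ≤ ρ * s' := mul_le_mul_of_nonneg_left hs'1 hρ0.le
    linarith
  have hav : ∀ w ∈ ball (0 : ℂ) ρ, φ w ∉ 𝔅 := by
    intro w hw hwB
    have e1 := (convex_ball (0 : ℂ) ρ).norm_image_sub_le_of_norm_deriv_le (f := φ) (C := 4 * s')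
      (fun x hx => hφ.differentiableAt (isOpen_ball.mem_nhds (ball_subset_ball hρ1 hx))) hder
      (mem_ball_self hρ0) hw
    rw [sub_zero] at e1
    have e2 := hfar' _ hwB
    rw [norm_sub_rev] at e2
    rw [mem_ball_zero_iff] at hw
    have e3 : 4 * s' * ‖w‖ ≤ 4 * s' * ρ := by gcongr
    have e4 : 4 * s' * ρ = D / 2 := by
      rw [hρ]
      field_simp
      norm_num
    linarith
  have h6 := hgrad P φ 0 ρ hρ0 (hDsc.mono (ball_subset_ball hρ1)) hav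
  have h7 : max s (1 / ρ) ≤ 8 * s' / D := by
    apply max_le
    · rw [le_div_iff₀ hD0]
      have : s * D ≤ s' * 1 := mul_le_mul (le_max_left _ _) hD1 hD0.le hs'0.le
      linarith
    · rw [hρ, one_div_div]
  have h8 : D ^ (1 + ε) = D * D ^ ε := by
    rw [Real.rpow_add hD0, Real.rpow_one]
  have hDε : 0 < D ^ ε := Real.rpow_pos_of_pos hD0 _
  have hDε1 : D ^ ε ≤ 1 := Real.rpow_le_one hD0.le hD1 hε.le
  have h9 : s' * D ^ ε ≤ C2 / c3 + 1 := by
    have e1 : s' ≤ s + 1 := max_le (by linarith) (by linarith)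
    calc s' * D ^ ε ≤ (s + 1) * D ^ ε := mul_le_mul_of_nonneg_right e1 hDε.le
      _ = s * D ^ ε + D ^ ε := by ring
      _ ≤ _ := by linarith
  calc ‖fderiv ℝ P 0‖ * D ^ (1 + ε) ≤ (C1 * (8 * s' / D)) * (D * D ^ ε) := by
        rw [h8]
        refine mul_le_mul_of_nonneg_right (h6.trans ?_) (by positivity)
        exact mul_le_mul_of_nonneg_left h7 hC1.le
    _ = 8 * C1 * (s' * D ^ ε) := by
        field_simp
    _ ≤ _ := mul_le_mul_of_nonneg_left h9 (by positivity)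

/-- the estimate of the truncated distance along a disc -/
theorem disc_truncB (hT : TD T Λ a) (hG : RIG T Λ a) (hb : Bd Λ 𝔅 δ) (hf : FibL T Λ a 𝔅)
    (hE : En T Λ a e) {q : ℕ} {K : ℝ} (hK : 0 ≤ K) (hLM : LMh T Λ a 𝔅 δ q e K)
    {ε : ℝ} (hε : 0 < ε) : ∃ C L : ℝ, 0 < C ∧ 1 ≤ L ∧ ∀ (D : ℝ), 0 < D → D ≤ 1 → ∀ M0 ∈ T,
      (∀ M ∈ Xi e, D ≤ ‖M0 - M‖) → Far 𝔅 a D M0 → ∀ P : ℂ → Mat N, HolP (ball 0 1) P →
      (∀ w ∈ ball (0 : ℂ) 1, P w ∈ T) → ∀ s ∈ ball (0 : ℂ) 1, ∀ t ∈ ball (0 : ℂ) 1,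
      dist (min ‖P t - M0‖ (D / (2 * L))) (min ‖P s - M0‖ (D / (2 * L))) ≤
        C / D ^ (1 + ε) * Pool.Agent.Helper206.cost s t := by
  obtain ⟨C, hC, hinf⟩ := inf_estimateB hT hG hb hf hE hK hLM hε
  obtain ⟨L, hL1, hlip⟩ := TD.lip hT
  have hL0 : 0 < L := one_pos.trans_le hL1
  have hε1 : 0 < 1 + ε := by linarith
  refine ⟨2 * C * 2 ^ (1 + ε) + 1, L, by positivity, hL1,
    fun D hD0 hD1 M0 hM0T hM0 hfar P hP hPT s hs t ht => ?_⟩
  set ρ : ℝ := D / (2 * L) with hρ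
  have hρ0 : 0 < ρ := by positivity
  have hLρ : L * ρ = D / 2 := by
    rw [hρ]
    field_simp
  have hρD : ρ ≤ D / 2 := by
    rw [← hLρ]
    exact le_mul_of_one_le_left hρ0.le hL1
  obtain ⟨ζ, hζ, hζn, hζt⟩ := Pool.Agent.Helper206.exists_mob_eq hs ht
  have hmap : MapsTo (Pool.Agent.Helper206.mob s) (ball 0 1) (ball 0 1) := fun z hz =>
    Pool.Agent.Helper206.mob_mem hs hz
  set h : ℂ → Mat N := fun z => P (Pool.Agent.Helper206.mob s z) with hh
  have hH : HolP (ball 0 1) h :=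
    holP_comp_l hP (Pool.Agent.Helper206.mob_differentiableOn hs) isOpen_ball hmap
  have hHT : ∀ z ∈ ball (0 : ℂ) 1, h z ∈ T := fun z hz => hPT _ (hmap hz)
  have hdh : ∀ z ∈ ball (0 : ℂ) 1, DifferentiableAt ℝ h z := fun z hz => hH.differentiableAt hz
  have h0 : h 0 = P s := by rw [hh]; simp only [Pool.Agent.Helper206.mob_zero]
  have h1 : h ζ = P t := by rw [hh]; simp only [hζt]
  rw [← h0, ← h1]
  clear_value h
  have hDε : 0 < D ^ (1 + ε) := Real.rpow_pos_of_pos hD0 _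
  have hDε1 : D ^ (1 + ε) ≤ 1 := Real.rpow_le_one hD0.le hD1 hε1.le
  have hcost : ‖ζ‖ ≤ Pool.Agent.Helper206.cost s t := by
    rw [hζn]; exact Pool.Agent.Helper206.phd_le_cost hs ht
  suffices dist (min ‖h ζ - M0‖ ρ) (min ‖h 0 - M0‖ ρ) ≤
      (2 * C * 2 ^ (1 + ε) + 1) / D ^ (1 + ε) * ‖ζ‖ from
    this.trans (mul_le_mul_of_nonneg_left hcost (by positivity))
  have hK1 : 1 ≤ (2 * C * 2 ^ (1 + ε) + 1) / D ^ (1 + ε) := by
    rw [le_div_iff₀ hDε]
    have : 0 ≤ 2 * C * 2 ^ (1 + ε) := by positivity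
    linarith
  rcases le_or_gt ‖ζ‖ (1 / 2) with hle | hgt
  · set Lc : ℝ := 2 * C * 2 ^ (1 + ε) / D ^ (1 + ε) * ‖ζ‖ with hLc
    have hL0 : 0 ≤ Lc := by positivity
    have hder : ∀ z ∈ closedBall (0 : ℂ) (1 / 2), ‖h z - M0‖ ≤ ρ →
        ‖fderiv ℝ h z‖ ≤ 2 * C * 2 ^ (1 + ε) / D ^ (1 + ε) := by
      intro z hz hzM
      have hz' : ‖z‖ ≤ 1 / 2 := mem_closedBall_zero_iff.1 hz
      have hz1 : z ∈ ball (0 : ℂ) 1 := mem_ball_zero_iff.2 (by linarith)
      have hmaps : MapsTo (fun w : ℂ => z + ((1 / 2 : ℝ) : ℂ) * w) (ball 0 1) (ball 0 1) := by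
        intro w hw
        rw [mem_ball_zero_iff] at hw ⊢
        refine lt_of_le_of_lt (norm_add_le _ _) ?_
        rw [norm_mul, Complex.norm_real, Real.norm_of_nonneg (by norm_num)]
        linarith
      have h2 := hinf (fun w => h (z + ((1 / 2 : ℝ) : ℂ) * w))
        (holP_comp_l hH (by fun_prop) isOpen_ball hmaps) (fun w hw => hHT _ (hmaps hw)) (D / 2)
        (by positivity) (by linarith) (by
          intro M hM
          simp only [mul_zero, add_zero]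
          have h3 := hM0 M hM
          have h4 : ‖M0 - M‖ ≤ ‖h z - M0‖ + ‖h z - M‖ := by
            have := norm_sub_le (h z - M) (h z - M0)
            rw [sub_sub_sub_cancel_left] at this
            linarith
          linarith) (by
          simp only [mul_zero, add_zero]
          have h3 := hfar.near hb (hlip M0 hM0T (h z) (hHT z hz1))
          intro b hbb
          have h4 := h3 b hbb
          rw [norm_sub_rev M0] at h4
          have h5 : L * ‖h z - M0‖ ≤ L * ρ := by gcongr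
          linarith)
      have h3 : ‖fderiv ℝ (fun w => h (z + ((1 / 2 : ℝ) : ℂ) * w)) 0‖ =
          (1 / 2) * ‖fderiv ℝ h z‖ := by
        have e1 : aff z (1 / 2) 0 = z := by simp [aff]
        have := norm_fderiv_aff (Ψ := h) (a := z) (ρ := 1 / 2) (z := 0) (by norm_num)
          (by rw [e1]; exact hH.differentiableAt hz1)
        rw [e1] at this
        rw [← this]
        congr 1
      rw [h3] at h2
      have h4 : (D / 2) ^ (1 + ε) = D ^ (1 + ε) / 2 ^ (1 + ε) :=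
        Real.div_rpow hD0.le (by norm_num) _
      rw [h4] at h2
      rw [le_div_iff₀ hDε]
      have h5 : 1 / 2 * ‖fderiv ℝ h z‖ * (D ^ (1 + ε) / 2 ^ (1 + ε)) * (2 * 2 ^ (1 + ε)) ≤
          C * (2 * 2 ^ (1 + ε)) := mul_le_mul_of_nonneg_right h2 (by positivity)
      have h6 : 1 / 2 * ‖fderiv ℝ h z‖ * (D ^ (1 + ε) / 2 ^ (1 + ε)) * (2 * 2 ^ (1 + ε)) =
          ‖fderiv ℝ h z‖ * D ^ (1 + ε) := by
        field_simp
      linarith
    have hpath : ∀ z ∈ closedBall (0 : ℂ) (1 / 2), ∀ w ∈ closedBall (0 : ℂ) (1 / 2),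
        ‖w - z‖ = ‖ζ‖ → min ‖h w - M0‖ ρ ≤ min ‖h z - M0‖ ρ + Lc := by
      intro z hz w hw hzw
      have hseg : ∀ u ∈ Icc (0 : ℝ) 1, z + (u : ℂ) * (w - z) ∈ closedBall (0 : ℂ) (1 / 2) := by
        intro u hu
        have := (convex_closedBall (0 : ℂ) (1 / 2)).add_smul_sub_mem hz hw hu
        rwa [Complex.real_smul] at this
      have h2 := path_le (H := fun u : ℝ => h (z + (u : ℂ) * (w - z)))
        (H' := fun u : ℝ => fderiv ℝ h (z + (u : ℂ) * (w - z)) (w - z)) (M0 := M0) (ρ := ρ)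
        hL0 (fun u hu => by
          have e1 : HasDerivAt (fun u : ℝ => z + (u : ℂ) * (w - z)) (w - z) u := by
            have := ((Complex.ofRealCLM.hasDerivAt (x := u)).mul_const (w - z)).const_add z
            simpa using this
          have e2 : HasFDerivAt h (fderiv ℝ h (z + (u : ℂ) * (w - z))) (z + (u : ℂ) * (w - z)) :=
            (hdh _ (closedBall_subset_ball (by norm_num) (hseg u hu))).hasFDerivAt
          exact HasFDerivAt.comp_hasDerivAt u e2 e1)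
        (fun u hu hub => by
          refine (ContinuousLinearMap.le_opNorm _ _).trans ?_
          rw [hzw, hLc]
          exact mul_le_mul_of_nonneg_right (hder _ (hseg u hu) hub) (norm_nonneg _))
      simp only [Complex.ofReal_one, one_mul, Complex.ofReal_zero, zero_mul, add_zero,
        add_sub_cancel] at h2
      exact h2
    have hζc : ζ ∈ closedBall (0 : ℂ) (1 / 2) := mem_closedBall_zero_iff.2 hle
    have h0c : (0 : ℂ) ∈ closedBall (0 : ℂ) (1 / 2) := mem_closedBall_self (by norm_num)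
    have e1 := hpath 0 h0c ζ hζc (by rw [sub_zero])
    have e2 := hpath ζ hζc 0 h0c (by rw [zero_sub, norm_neg])
    have e3 : Lc ≤ (2 * C * 2 ^ (1 + ε) + 1) / D ^ (1 + ε) * ‖ζ‖ := by
      rw [hLc]
      gcongr
      linarith
    rw [Real.dist_eq, abs_le]
    constructor <;> linarith
  · have h2 : ∀ M : Mat N, 0 ≤ min ‖M - M0‖ ρ := fun M => le_min (norm_nonneg _) hρ0.le
    have h3 : ∀ M : Mat N, min ‖M - M0‖ ρ ≤ 1 / 2 := fun M =>
      (min_le_right _ _).trans (by linarith)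
    have h4 : 1 / 2 ≤ (2 * C * 2 ^ (1 + ε) + 1) / D ^ (1 + ε) * ‖ζ‖ := by
      nlinarith
    rw [Real.dist_eq, abs_le]
    constructor
    · linarith [h2 (h ζ), h3 (h 0)]
    · linarith [h2 (h 0), h3 (h ζ)]

end Pool.Agent.H918.SS
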