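import Pool.Agent.H918.D.Geo4

/-! Meromorphic maps from affine spaces, and curves of genus at most one. -/

set_option autoImplicit false

open Filter Topology Metric Set LinearAlgebra.Projectivization

namespace Pool.Agent.H918.SS

open FF Pool.Agent.Y190.OP Pool.Agent.W602.GT Pool.Agent.N154.GG
open Pool.Agent.N155 (TX isCompact_TX TX_PM exists_shift nz nz_Phi)

variable {n : ℕ} {ι : Type} {F : ι → MvPolynomial (Fin (n + 1)) ℂ} {d : ℕ} {K : Type} [Field K]
  [Algebra ℂ K] {y : Fin (n + 1) → K} {L : PeriodPair} {α : (Fin (n + 1) → ℂ) → ℂ ⧸ L.lattice}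
  {κ : Type} {η : κ → (Fin (n + 1) → ℂ) → (Fin (n + 1) → ℂ) → (Fin (n + 1) → ℂ) → ℂ}
  {B : Set (ℂ ⧸ L.lattice)}

/-- `h` gives a nonconstant meromorphic map from `ℂ ^ g` to the projective set `X = {F = 0}`: the
function `h` is holomorphic on `ℂ ^ g`, its nonzero values are homogeneous coordinates of points of
`X`, and two of its values are linearly independent.

If `A` is a semi-abelian variety of dimension `g` and `A ⇢ X` a nonconstant rational map, then its
composition with the universal covering map `ℂ ^ g → A` is of this kind (all line bundles on `ℂ ^ g`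
are trivial). -/
def MeroIn (F : ι → MvPolynomial (Fin (n + 1)) ℂ) {g : ℕ} (h : (Fin g → ℂ) → Fin (n + 1) → ℂ) :
    Prop :=
  Differentiable ℂ h ∧ (∀ z, h z ≠ 0 → h z ∈ Cone F) ∧ ∃ z w, LinearIndependent ℂ ![h z, h w]

theorem val_smul_form {G : MvPolynomial (Fin (n + 1)) ℂ} (hG : IsForm G) {c : ℂ} (hc : c ≠ 0)
    {v : Fin (n + 1) → ℂ} : val (c • v) G = 0 ↔ val v G = 0 := by
  obtain ⟨e, he⟩ := hG
  rw [val_eval, Pool.Agent.N155.eval_smul he, ← val_eval, mul_eq_zero]
  exact ⟨fun h => h.resolve_left (pow_ne_zero _ hc), Or.inr⟩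

theorem rep_mk {u : Fin (n + 1) → ℂ} (hu : u ≠ 0) :
    ∃ c : ℂ, c ≠ 0 ∧ (Projectivization.mk ℂ u hu).rep = c • u := by
  obtain ⟨a, ha⟩ := Projectivization.exists_smul_eq_mk_rep ℂ u hu
  exact ⟨a, a.ne_zero, ha.symm⟩

theorem val_cont {G : MvPolynomial (Fin (n + 1)) ℂ} : Continuous fun v : Fin (n + 1) → ℂ =>
    val v G := by
  have : (fun v : Fin (n + 1) → ℂ => val v G) = fun v => MvPolynomial.eval v G := by
    funext v
    exact val_eval _ _
  rw [this]
  exact MvPolynomial.continuous_eval G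

theorem isClosed_cone0 : IsClosed {v : Fin (n + 1) → ℂ | ∀ i, val v (F i) = 0} := by
  rw [Set.ofPred_forall]
  exact isClosed_iInter fun i => isClosed_eq val_cont continuous_const

/-- the projective curve given by a curve in the cone -/
theorem line_curve (hF : ∀ i, IsForm (F i)) {h : ℂ → Fin (n + 1) → ℂ} (hh : Differentiable ℂ h)
    (hne : ∃ z, h z ≠ 0) (hC : ∀ z, h z ≠ 0 → h z ∈ Cone F) :
    ∃ f : ℂ → ℙ ℂ (Fin (n + 1) → ℂ), HolIn F f ∧
      ∀ z, ∀ hz : h z ≠ 0, f z = Projectivization.mk ℂ (h z) hz := by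
  have han : ∀ z, AnalyticAt ℂ h z := fun z => hh.analyticAt z
  have hnz : ∀ z, ¬ ∀ᶠ w in 𝓝 z, h w = 0 := by
    intro z hz
    obtain ⟨z1, hz1⟩ := hne
    have h1 : AnalyticOnNhd ℂ h univ := fun z _ => han z
    have h2 := h1.eqOn_zero_of_preconnected_of_eventuallyEq_zero isPreconnected_univ (mem_univ z) hz
    exact hz1 (h2 (mem_univ z1))
  choose m g hg hg0 hhg using fun z =>
    (AnalyticAt.exists_eventuallyEq_pow_smul_nonzero_iff (han z)).2 (hnz z)
  have hm0 : ∀ w, h w ≠ 0 → g w w = h w := by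
    intro w hw
    have h1 := (hhg w).self_of_nhds
    have h2 : m w = 0 := by
      by_contra hne
      rw [sub_self, zero_pow hne, zero_smul] at h1
      exact hw h1
    rw [h2, pow_zero, one_smul] at h1
    exact h1.symm
  have hloc : ∀ z, ∀ᶠ w in 𝓝 z, g z w ≠ 0 ∧ (w ≠ z → ∃ c : ℂ, c ≠ 0 ∧ h w = c • g z w) := by
    intro z
    filter_upwards [hhg z, (hg z).continuousAt.eventually_ne (hg0 z)] with w h1 h2
    exact ⟨h2, fun h3 => ⟨_, pow_ne_zero _ (sub_ne_zero.2 h3), h1⟩⟩
  have hcone : ∀ z, g z z ∈ Cone F := by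
    intro z
    refine ⟨hg0 z, fun i => ?_⟩
    have h1 : ∀ᶠ w in 𝓝[≠] z, val (g z w) (F i) = 0 := by
      filter_upwards [nhdsWithin_le_nhds (hloc z), self_mem_nhdsWithin] with w h1 h2
      obtain ⟨c, hc, h3⟩ := h1.2 h2
      have h4 : h w ≠ 0 := by
        rw [h3]
        exact smul_ne_zero hc h1.1
      have h5 := (hC w h4).2 i
      rwa [h3, val_smul_form (hF i) hc] at h5
    have h2 : ContinuousAt (fun w => val (g z w) (F i)) z :=
      val_cont.continuousAt.comp (hg z).continuousAt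
    exact tendsto_nhds_unique (h2.tendsto.mono_left nhdsWithin_le_nhds)
      (tendsto_const_nhds.congr' (h1.mono fun w hw => hw.symm))
  refine ⟨fun z => Projectivization.mk ℂ (g z z) (hg0 z), ⟨?_, ?_⟩, ?_⟩
  · intro z
    have h1 : ∀ᶠ w in 𝓝 z, AnalyticAt ℂ (g z) w ∧ g z w ≠ 0 ∧
        (w ≠ z → ∃ c : ℂ, c ≠ 0 ∧ h w = c • g z w) :=
      (hg z).eventually_analyticAt.and (hloc z)
    obtain ⟨V, hVs, hV, hz⟩ := _root_.mem_nhds_iff.1 h1
    refine ⟨V, g z, hV, hz, fun w hw => (hVs hw).1.differentiableAt.differentiableWithinAt,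
      fun w hw => ⟨(hVs hw).2.1, ?_⟩⟩
    by_cases h2 : w = z
    · subst h2
      rfl
    · obtain ⟨c, hc, h3⟩ := (hVs hw).2.2 h2
      have h4 : h w ≠ 0 := by
        rw [h3]
        exact smul_ne_zero hc (hVs hw).2.1
      rw [Projectivization.mk_eq_mk_iff']
      exact ⟨c, by rw [hm0 w h4, h3]⟩
  · intro z
    obtain ⟨c, hc, h1⟩ := rep_mk (hg0 z)
    change (Projectivization.mk ℂ (g z z) (hg0 z)).rep ∈ Cone F
    rw [h1]
    exact ⟨smul_ne_zero hc (hg0 z), fun i => (val_smul_form (hF i) hc).2 ((hcone z).2 i)⟩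
  · intro z hz
    rw [Projectivization.mk_eq_mk_iff']
    exact ⟨1, by rw [one_smul, hm0 z hz]⟩

/-- an entire function of several variables which is zero on a nonempty open set is zero -/
theorem entire_zero {g : ℕ} {E : Type} [NormedAddCommGroup E] [NormedSpace ℂ E] [CompleteSpace E]
    {u : (Fin g → ℂ) → E} (hu : Differentiable ℂ u) {w : Fin g → ℂ} (hw : ∀ᶠ v in 𝓝 w, u v = 0)
    (v : Fin g → ℂ) : u v = 0 := by
  have h1 : Differentiable ℂ fun t : ℂ => u (w + t • (v - w)) := by fun_prop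
  have h2 : ∀ᶠ t in 𝓝 (0 : ℂ), u (w + t • (v - w)) = 0 := by
    have h3 : Tendsto (fun t : ℂ => w + t • (v - w)) (𝓝 0) (𝓝 w) := by
      have : Continuous fun t : ℂ => w + t • (v - w) := by fun_prop
      have h4 := this.tendsto 0
      rwa [zero_smul, add_zero] at h4
    exact h3.eventually hw
  have h3 : AnalyticOnNhd ℂ (fun t : ℂ => u (w + t • (v - w))) univ := fun z _ => h1.analyticAt z
  have h4 := h3.eqOn_zero_of_preconnected_of_eventuallyEq_zero isPreconnected_univ
    (mem_univ (0 : ℂ)) h2 (mem_univ (1 : ℂ))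
  change u (w + (1 : ℂ) • (v - w)) = 0 at h4
  rwa [one_smul, add_sub_cancel] at h4

theorem val_diff {E : Type} [NormedAddCommGroup E] [NormedSpace ℂ E] {h : E → Fin (n + 1) → ℂ}
    (hh : Differentiable ℂ h) (G : MvPolynomial (Fin (n + 1)) ℂ) :
    Differentiable ℂ fun z => val (h z) G := by
  have h1 : (fun z => val (h z) G) = fun z => MvPolynomial.eval (h z) G := by
    funext v
    exact val_eval _ _
  rw [h1]
  induction G using MvPolynomial.induction_on with
  | C r => simp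
  | add f g hf hg =>
    simp only [map_add]
    exact (hf (by funext v; exact val_eval _ _)).add (hg (by funext v; exact val_eval _ _))
  | mul_X f i hf =>
    simp only [map_mul, MvPolynomial.eval_X]
    exact (hf (by funext v; exact val_eval _ _)).mul (differentiable_pi.1 hh i)

/-- **Maps from affine spaces**: the consequences of the theorem on entire curves. -/
theorem sab_of (hX : SmoothVariety F d y) (hα : HolToTorus (Cone F) L α)
    {S : Set (ℂ → ℙ ℂ (Fin (n + 1) → ℂ))} (hS : S.Finite)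
    (hmain : ∀ f, HolIn F f → (∀ z w, f z = f w) ∨ (∃ b ∈ B, ∀ z, α (f z).rep = b) ∨
        ∃ g ∈ S, ∃ φ : ℂ → ℂ, Differentiable ℂ φ ∧ ∀ z, f z = g (φ z))
    {m : ℕ} {h : (Fin m → ℂ) → Fin (n + 1) → ℂ} (hh : MeroIn F h) :
    (∀ z, h z ≠ 0 → α (h z) ∈ B) ∨
    ∃ g ∈ S, ∀ G : MvPolynomial (Fin (n + 1)) ℂ, IsForm G → (∀ z, val (g z).rep G = 0) →
      ∀ z, val (h z) G = 0 := by
  classical
  obtain ⟨hd, hC, z1, z2, hind⟩ := hh
  have hdl : ∀ z0 w : Fin m → ℂ, Differentiable ℂ fun t : ℂ => h (z0 + t • w) := fun z0 w => by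
    fun_prop
  by_cases hbad : ∀ z, h z ≠ 0 → α (h z) ∈ B
  · exact Or.inl hbad
  right
  push Not at hbad
  obtain ⟨z0, h0, hb0⟩ := hbad
  -- the curves given by the lines
  have hline : ∀ w : Fin m → ℂ, ∃ f : ℂ → ℙ ℂ (Fin (n + 1) → ℂ), HolIn F f ∧
      ∀ t : ℂ, ∀ ht : h (z0 + t • w) ≠ 0, f t = Projectivization.mk ℂ (h (z0 + t • w)) ht := by
    intro w
    exact line_curve hX.form (hdl z0 w) ⟨0, by rwa [zero_smul, add_zero]⟩ fun t ht => hC _ ht
  -- along a line: constant, or in one of the curves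
  have hstep : ∀ w : Fin m → ℂ, (∀ t : ℂ, h (z0 + t • w) ≠ 0 → ∃ c : ℂ, c ≠ 0 ∧
      h (z0 + t • w) = c • h z0) ∨ ∃ g ∈ S, ∀ G : MvPolynomial (Fin (n + 1)) ℂ, IsForm G →
        (∀ z, val (g z).rep G = 0) → ∀ t : ℂ, h (z0 + t • w) ≠ 0 → val (h (z0 + t • w)) G = 0 := by
    intro w
    obtain ⟨f, hf, hf'⟩ := hline w
    have e0 := hf' 0 (by rwa [zero_smul, add_zero])
    simp only [zero_smul, add_zero] at e0
    rcases hmain f hf with h1 | ⟨b, hb, h1⟩ | ⟨g, hg, φ, -, h1⟩
    · left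
      intro t ht
      have h2 := (hf' t ht).symm.trans ((h1 t 0).trans e0)
      rw [Projectivization.mk_eq_mk_iff'] at h2
      obtain ⟨c, hc⟩ := h2
      refine ⟨c, ?_, hc.symm⟩
      rintro rfl
      rw [zero_smul] at hc
      exact ht hc.symm
    · exfalso
      obtain ⟨c, hc, h2⟩ := rep_mk h0
      apply hb0
      rw [← hα.homog _ (hC z0 h0) c hc, ← h2, ← e0, h1]
      exact hb
    · right
      refine ⟨g, hg, fun G hG hG0 t ht => ?_⟩
      have h2 := hf' t ht
      obtain ⟨c, hc, h3⟩ := rep_mk ht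
      have h4 := hG0 (φ t)
      rw [← h1 t, h2, h3, val_smul_form hG hc] at h4
      exact h4
  -- a curve through the point `z0`
  have hg0 : ∃ g ∈ S, ∀ G : MvPolynomial (Fin (n + 1)) ℂ, IsForm G →
      (∀ z, val (g z).rep G = 0) → val (h z0) G = 0 := by
    by_contra hcon
    push Not at hcon
    have h1 : ∀ w, h w ≠ 0 → ∃ c : ℂ, c ≠ 0 ∧ h w = c • h z0 := by
      intro w hw
      rcases hstep (w - z0) with h2 | ⟨g, hg, h2⟩
      · have h3 := h2 1 (by rwa [one_smul, add_sub_cancel])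
        rwa [one_smul, add_sub_cancel] at h3
      · exfalso
        obtain ⟨G, hG, hG0, hG1⟩ := hcon g hg
        apply hG1
        have h3 := h2 G hG hG0 0 (by rwa [zero_smul, add_zero])
        rwa [zero_smul, add_zero] at h3
    have hz1 : h z1 ≠ 0 := hind.ne_zero 0
    have hz2 : h z2 ≠ 0 := hind.ne_zero 1
    obtain ⟨c1, hc1, h3⟩ := h1 z1 hz1
    obtain ⟨c2, hc2, h4⟩ := h1 z2 hz2
    rw [LinearIndependent.pair_iff] at hind
    have h5 := hind c2 (-c1) (by
      rw [h3, h4, smul_smul, smul_smul, ← add_smul]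
      rw [show c2 * c1 + -c1 * c2 = 0 by ring, zero_smul])
    exact hc2 h5.1
  obtain ⟨g0, hg0S, hg0'⟩ := hg0
  -- the closed sets
  let W : S → Set (Fin m → ℂ) := fun g => {w | ∀ G : MvPolynomial (Fin (n + 1)) ℂ, IsForm G →
    (∀ z, val (g.1 z).rep G = 0) → ∀ t : ℂ, h (z0 + t • w) ≠ 0 → val (h (z0 + t • w)) G = 0}
  have hWcl : ∀ g, IsClosed (W g) := by
    intro g
    have h1 : W g = ⋂ (G : MvPolynomial (Fin (n + 1)) ℂ) (_ : IsForm G)
        (_ : ∀ z, val (g.1 z).rep G = 0) (t : ℂ),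
        {w | h (z0 + t • w) ≠ 0 → val (h (z0 + t • w)) G = 0} := by
      ext w
      simp only [W, mem_ofPred_eq, mem_iInter]
    rw [h1]
    refine isClosed_iInter fun G => isClosed_iInter fun hG => isClosed_iInter fun hG0 =>
      isClosed_iInter fun t => ?_
    have hc : Continuous fun w : Fin m → ℂ => h (z0 + t • w) := hd.continuous.comp (by fun_prop)
    rw [← isOpen_compl_iff]
    have h2 : {w : Fin m → ℂ | h (z0 + t • w) ≠ 0 → val (h (z0 + t • w)) G = 0}ᶜ =
        {w | h (z0 + t • w) ≠ 0} ∩ {w | val (h (z0 + t • w)) G ≠ 0} := by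
      ext w
      simp only [mem_compl_iff, mem_ofPred_eq, mem_inter_iff, Classical.not_imp]
    rw [h2]
    exact (isOpen_ne_fun hc continuous_const).inter
      (isOpen_ne_fun (val_cont.comp hc) continuous_const)
  have hcov : ⋃ g, W g = univ := by
    rw [eq_univ_iff_forall]
    intro w
    rw [mem_iUnion]
    rcases hstep w with h2 | ⟨g, hg, h2⟩
    · refine ⟨⟨g0, hg0S⟩, fun G hG hG0 t ht => ?_⟩
      obtain ⟨c, hc, h3⟩ := h2 t ht
      rw [h3, val_smul_form hG hc]
      exact hg0' G hG hG0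
    · exact ⟨⟨g, hg⟩, h2⟩
  have hfin : Finite S := hS
  obtain ⟨g, hgi⟩ := nonempty_interior_of_iUnion_of_closed hWcl hcov
  refine ⟨g.1, g.2, fun G hG hG0 z => ?_⟩
  obtain ⟨w, hw⟩ := hgi
  obtain ⟨U, hUs, hU, hwU⟩ := mem_interior.1 hw
  have h1 : Differentiable ℂ fun v : Fin m → ℂ => val (h (z0 + v)) G • h (z0 + v) := by
    have := val_diff (hd.comp (differentiable_id.const_add z0)) G
    exact this.smul (hd.comp (differentiable_id.const_add z0))
  have h2 : ∀ᶠ v in 𝓝 w, val (h (z0 + v)) G • h (z0 + v) = 0 := by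
    filter_upwards [hU.mem_nhds hwU] with v hv
    by_cases hv0 : h (z0 + v) = 0
    · rw [hv0, smul_zero]
    · have h3 := hUs hv G hG hG0 1 (by rwa [one_smul])
      rw [one_smul] at h3
      rw [h3, zero_smul]
  have h3 := entire_zero h1 h2
  -- the value of the form is zero on the dense set where `h` is not zero
  by_contra hne
  have h4 : ∀ᶠ v in 𝓝 (z - z0), val (h (z0 + v)) G ≠ 0 := by
    have hc : Continuous fun v : Fin m → ℂ => val (h (z0 + v)) G :=
      val_cont.comp (hd.continuous.comp (by fun_prop))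
    refine hc.continuousAt.eventually_ne ?_
    rwa [add_sub_cancel]
  have h5 : ∀ᶠ v in 𝓝 (z - z0), h (z0 + v) = 0 := by
    filter_upwards [h4] with v hv
    exact (smul_eq_zero.1 (h3 v)).resolve_left hv
  have h6 := entire_zero (hd.comp (differentiable_id.const_add z0)) h5 0
  change h (z0 + 0) = 0 at h6
  rw [add_zero] at h6
  exact h0 h6

end Pool.Agent.H918.SS
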