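import Pool.Agent.H918.D.Lang

/-! The special sets. -/

set_option autoImplicit false

open Filter Topology Metric Set LinearAlgebra.Projectivization

namespace Pool.Agent.H918.SS

open FF Pool.Agent.Y190.OP Pool.Agent.W602.GT Pool.Agent.N154.GG
open Pool.Agent.N155 (TX isCompact_TX TX_PM exists_shift nz nz_Phi nz_dich codis_ev)

variable {n : ℕ} {ι : Type} {F : ι → MvPolynomial (Fin (n + 1)) ℂ} {d : ℕ} {K : Type} [Field K]
  [Algebra ℂ K] {y : Fin (n + 1) → K} {L : PeriodPair} {α : (Fin (n + 1) → ℂ) → ℂ ⧸ L.lattice}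
  {κ : Type} {η : κ → (Fin (n + 1) → ℂ) → (Fin (n + 1) → ℂ) → (Fin (n + 1) → ℂ) → ℂ}
  {B : Set (ℂ ⧸ L.lattice)}

/-- the maps over the identity are not constant and not in a fibre -/
theorem over_van {g : ℂ → ℙ ℂ (Fin (n + 1) → ℂ)} {P : Prop}
    (hg : ∀ z, α (g z).rep = Submodule.Quotient.mk z)
    (h : (∀ z w, g z = g w) ∨ (∃ b ∈ B, ∀ z, α (g z).rep = b) ∨ P) : P := by
  obtain ⟨z1, z2, hz12⟩ := not_mk_const L
  rcases h with h1 | ⟨b, -, h1⟩ | h1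
  · exact absurd (by rw [← hg z1, ← hg z2, h1 z1 z2]) hz12
  · exact absurd (by rw [← hg z1, ← hg z2, h1 z1, h1 z2]) hz12
  · exact h1

/-- **Maps from affine spaces.** -/
theorem sab_geo (hX : SmoothVariety F d y) (hd : 2 ≤ d) (hη : PositiveTwoForms (Cone F) d η)
    (hα : HolToTorus (Cone F) L α) (hB : B.Finite) (hfib : HyperbolicOrCrossing F α B) :
    ∃ (S : Set (ℂ → ℙ ℂ (Fin (n + 1) → ℂ))) (k : ℕ), S.Finite ∧ 0 < k ∧
      (∀ g ∈ S, HolIn F g ∧ (∀ z, α (g z).rep = Submodule.Quotient.mk z) ∧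
        ∀ l ∈ L.lattice, ∀ z, g (z + k * l) = g z) ∧
      (∀ (m : ℕ) (h : (Fin m → ℂ) → Fin (n + 1) → ℂ), MeroIn F h →
        (∀ z, h z ≠ 0 → α (h z) ∈ B) ∨
        ∃ g ∈ S, ∀ G : MvPolynomial (Fin (n + 1)) ℂ, IsForm G → (∀ z, val (g z).rep G = 0) →
          ∀ z, val (h z) G = 0) ∧
      ∃ G : MvPolynomial (Fin (n + 1)) ℂ, IsForm G ∧ val y G ≠ 0 ∧
        ∀ H : MvPolynomial (Fin (n + 1)) ℂ, IsForm H → val y H ≠ 0 →
          (∀ x ∈ Cone F, α x ∈ B → val x H = 0) → IsForm (G * H) ∧ val y (G * H) ≠ 0 ∧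
          ∀ (m : ℕ) (h : (Fin m → ℂ) → Fin (n + 1) → ℂ), MeroIn F h →
            ∀ z, h z ≠ 0 → val (h z) (G * H) = 0 := by
  obtain ⟨S, k, h1, h2, h3, h4, G, h5, h6, h7⟩ := ggl_geoB hX hd hη hα hB hfib
  have hsab := fun (m : ℕ) (h : (Fin m → ℂ) → Fin (n + 1) → ℂ) (hh : MeroIn F h) =>
    sab_of hX hα h1 h4 hh
  refine ⟨S, k, h1, h2, h3, hsab, G, h5, h6, fun H hH hy hHB => ⟨isForm_mul h5 hH, ?_,
    fun m h hh z hz => ?_⟩⟩
  · rw [val_mul']
    exact mul_ne_zero h6 hy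
  · rw [val_mul']
    rcases hsab m h hh with h8 | ⟨g, hg, h8⟩
    · rw [hHB _ (hh.2.1 z hz) (h8 z hz), mul_zero]
    · rw [h8 G h5 (over_van (h3 g hg).2.1 (h7 g (h3 g hg).1)) z, zero_mul]

/-- **Curves of genus at most one.** -/
theorem lang_geo (hX : SmoothVariety F d y) (hd : 2 ≤ d) (hη : PositiveTwoForms (Cone F) d η)
    (hα : HolToTorus (Cone F) L α) (hB : B.Finite) (hfib : HyperbolicOrCrossing F α B) :
    ∃ (S : Set (ℂ → ℙ ℂ (Fin (n + 1) → ℂ))) (k : ℕ), S.Finite ∧ 0 < k ∧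
      (∀ g ∈ S, HolIn F g ∧ (∀ z, α (g z).rep = Submodule.Quotient.mk z) ∧
        ∀ l ∈ L.lattice, ∀ z, g (z + k * l) = g z) ∧
      (∀ (K' : Type) [Field K'] [Algebra ℂ K'] (y' : Fin (n + 1) → K'), SubVar F K' 1 y' →
        ¬ GeneralType ℂ K' 1 →
        (∀ H : MvPolynomial (Fin (n + 1)) ℂ, IsForm H → (∀ x ∈ Cone F, α x ∈ B → val x H = 0) →
          val y' H = 0) ∨
        ∃ g ∈ S, ∀ G : MvPolynomial (Fin (n + 1)) ℂ, IsForm G →
          (val y' G = 0 ↔ ∀ z, val (g z).rep G = 0)) ∧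
      ∃ G : MvPolynomial (Fin (n + 1)) ℂ, IsForm G ∧ val y G ≠ 0 ∧
        ∀ H : MvPolynomial (Fin (n + 1)) ℂ, IsForm H → val y H ≠ 0 →
          (∀ x ∈ Cone F, α x ∈ B → val x H = 0) → IsForm (G * H) ∧ val y (G * H) ≠ 0 ∧
          ∀ (K' : Type) [Field K'] [Algebra ℂ K'] (y' : Fin (n + 1) → K'), SubVar F K' 1 y' →
            ¬ GeneralType ℂ K' 1 → val y' (G * H) = 0 := by
  obtain ⟨S, k, h1, h2, h3, h4, G, h5, h6, h7⟩ := ggl_geoB hX hd hη hα hB hfib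
  have hlang := fun (K' : Type) [Field K'] [Algebra ℂ K'] (y' : Fin (n + 1) → K')
    (hy : SubVar F K' 1 y') (hgt : ¬ GeneralType ℂ K' 1) =>
    lang_of hX (fun g hg => (h3 g hg).1) h4 K' y' hy hgt
  refine ⟨S, k, h1, h2, h3, hlang, G, h5, h6, fun H hH hy hHB => ⟨isForm_mul h5 hH, ?_,
    fun K' _ _ y' hy' hgt => ?_⟩⟩
  · rw [val_mul']
    exact mul_ne_zero h6 hy
  · rw [val_mul']
    rcases hlang K' y' hy' hgt with h8 | ⟨g, hg, h8⟩
    · rw [h8 H hH hHB, mul_zero]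
    · rw [(h8 G h5).2 (over_van (h3 g hg).2.1 (h7 g (h3 g hg).1)), zero_mul]

/-- **The big Picard theorem and all special sets.** -/
theorem five_geo (hX : SmoothVariety F d y) (hd : 2 ≤ d) (hη : PositiveTwoForms (Cone F) d η)
    (hα : HolToTorus (Cone F) L α) (hB : B.Finite) (hfib : HyperbolicOrCrossing F α B) :
    ∃ S : Set (ℂ → ℙ ℂ (Fin (n + 1) → ℂ)), S.Finite ∧
      (∀ g ∈ S, HolIn F g ∧ ∀ z, α (g z).rep = Submodule.Quotient.mk z) ∧
      (∀ f, PunctIn F f → Extends F f ∨ (∃ b ∈ B, ∀ z ∈ PDisc, α (f z).rep = b) ∨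
        ∃ g ∈ S, ∃ φ : ℂ → ℂ, DifferentiableOn ℂ φ {z | z.re < 0} ∧
          ∀ z : ℂ, z.re < 0 → f (Complex.exp z) = g (φ z)) ∧
      ∃ G : MvPolynomial (Fin (n + 1)) ℂ, IsForm G ∧ val y G ≠ 0 ∧
        ∀ H : MvPolynomial (Fin (n + 1)) ℂ, IsForm H → val y H ≠ 0 →
          (∀ x ∈ Cone F, α x ∈ B → val x H = 0) → IsForm (G * H) ∧ val y (G * H) ≠ 0 ∧
          (∀ f, PunctIn F f → Extends F f ∨ ∀ z ∈ PDisc, val (f z).rep (G * H) = 0) ∧
          (∀ f, HolIn F f → (∀ z w, f z = f w) ∨ ∀ z, val (f z).rep (G * H) = 0) ∧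
          (∀ (m : ℕ) (h : (Fin m → ℂ) → Fin (n + 1) → ℂ), MeroIn F h →
            ∀ z, h z ≠ 0 → val (h z) (G * H) = 0) ∧
          ∀ (K' : Type) [Field K'] [Algebra ℂ K'] (y' : Fin (n + 1) → K'), SubVar F K' 1 y' →
            ¬ GeneralType ℂ K' 1 → val y' (G * H) = 0 := by
  obtain ⟨S, a1, a2, a3, G1, a4, a5, -, a6⟩ := picard_geoH hX hd hη hα hB hfib
  obtain ⟨-, -, -, -, -, -, G2, b1, b2, b3⟩ := ggl_geoH hX hd hη hα hB hfib
  obtain ⟨-, -, -, -, -, -, G3, c1, c2, c3⟩ := sab_geo hX hd hη hα hB hfib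
  obtain ⟨-, -, -, -, -, -, G4, d1, d2, d3⟩ := lang_geo hX hd hη hα hB hfib
  refine ⟨S, a1, a2, a3, G1 * (G2 * (G3 * G4)),
    isForm_mul a4 (isForm_mul b1 (isForm_mul c1 d1)), ?_, fun H hH hy hHB =>
      ⟨isForm_mul (isForm_mul a4 (isForm_mul b1 (isForm_mul c1 d1))) hH, ?_, ?_, ?_, ?_, ?_⟩⟩
  · simp only [val_mul']
    exact mul_ne_zero a5 (mul_ne_zero b2 (mul_ne_zero c2 d2))
  · simp only [val_mul']
    exact mul_ne_zero (mul_ne_zero a5 (mul_ne_zero b2 (mul_ne_zero c2 d2))) hy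
  · intro f hf
    rcases (a6 H hH hy hHB).2.2 f hf with h | h
    · exact Or.inl h
    · right
      intro z hz
      have h1 := h z hz
      rw [val_mul'] at h1
      simp only [val_mul']
      linear_combination (val (f z).rep G2 * (val (f z).rep G3 * val (f z).rep G4)) * h1
  · intro f hf
    rcases (b3 H hH hy hHB).2.2 f hf with h | h
    · exact Or.inl h
    · right
      intro z
      have h1 := h z
      rw [val_mul'] at h1
      simp only [val_mul']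
      linear_combination (val (f z).rep G1 * (val (f z).rep G3 * val (f z).rep G4)) * h1
  · intro m h hh z hz
    have h1 := (c3 H hH hy hHB).2.2 m h hh z hz
    rw [val_mul'] at h1
    simp only [val_mul']
    linear_combination (val (h z) G1 * (val (h z) G2 * val (h z) G4)) * h1
  · intro K' _ _ y' hy' hgt
    have h1 := (d3 H hH hy hHB).2.2 K' y' hy' hgt
    rw [val_mul'] at h1
    simp only [val_mul']
    linear_combination (val y' G1 * (val y' G2 * val y' G3)) * h1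

end Pool.Agent.H918.SS
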