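import Mathlib

/-! The gauge of a finite set of points of the unit disc: an explicit metric, comparable with (in
fact larger than) the hyperbolic metric of the complement. -/

set_option autoImplicit false

open Filter Topology Metric Set

namespace Pool.Agent.H918.SS

/-- the fourth power of the gauge of the pair `a`, `b` -/
noncomputable def pf (a b z : ℂ) : ℝ :=
  max ‖z - a‖ ‖b - a‖ ^ 2 /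
    (‖z - a‖ ^ 4 * ‖z - b‖ ^ 2 * (1 + |Real.log (‖z - a‖ / ‖b - a‖)|))

open Classical in
/-- the fourth power of the gauge of a finite set -/
noncomputable def gf (Z : Finset ℂ) (z : ℂ) : ℝ :=
  ((Z ×ˢ Z).filter fun p => p.1 ≠ p.2).fold max 1 fun p => pf p.1 p.2 z

theorem one_le_gf (Z : Finset ℂ) (z : ℂ) : 1 ≤ gf Z z :=
  (Finset.le_fold_max 1).2 (Or.inl le_rfl)

theorem pf_le_gf {Z : Finset ℂ} {a b : ℂ} (ha : a ∈ Z) (hb : b ∈ Z) (hab : a ≠ b) (z : ℂ) :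
    pf a b z ≤ gf Z z := by
  classical
  exact (Finset.le_fold_max _).2 (Or.inr ⟨(a, b), by simp [ha, hb, hab], le_rfl⟩)

theorem gf_eq (Z : Finset ℂ) (z : ℂ) :
    gf Z z = 1 ∨ ∃ a ∈ Z, ∃ b ∈ Z, a ≠ b ∧ gf Z z = pf a b z := by
  classical
  rcases (Finset.le_fold_max (gf Z z)).1 (le_refl (gf Z z)) with h | ⟨⟨a, b⟩, hp, h⟩
  · exact Or.inl (le_antisymm h (one_le_gf Z z))
  · rw [Finset.mem_filter, Finset.mem_product] at hp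
    exact Or.inr ⟨a, hp.1.1, b, hp.1.2, hp.2, le_antisymm h (pf_le_gf hp.1.1 hp.1.2 hp.2 z)⟩

/-- the exponential disc -/
noncomputable def ed (a b z w : ℂ) : ℂ :=
  a + (z - a) * Complex.exp (((1 / 8192 * (1 + |Real.log (‖z - a‖ / ‖b - a‖)|) : ℝ) : ℂ) * w)

/-- the multiplier -/
noncomputable def em (a b z w : ℂ) : ℂ :=
  ((1 / 8192 * Real.log (‖z - a‖ / ‖b - a‖) -
    3 * (1 / 8192 * (1 + |Real.log (‖z - a‖ / ‖b - a‖)|)) : ℝ) : ℂ) * w +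
    (((1 / 8192) ^ 2 / 12 : ℝ) : ℂ) * w ^ 2

/-- the interface of the first lemma -/
def S_T1 : Prop := ∀ a b z w : ℂ, a ≠ b → z ≠ a → ‖w‖ ≤ 1 →
    ed a b z w ≠ b →
    pf a b z * ‖Complex.exp (em a b z w)‖ * (‖z - b‖ / ‖ed a b z w - b‖) ^ 2 *
      Real.exp ((1 / 8192) ^ 2 / 12 * ‖w‖ ^ 2) ≤ pf a b (ed a b z w)

/-- the interface of the second lemma -/
def S_T3 : Prop := ∀ η : ℝ, 0 < η → ∃ M : ℝ, 1 ≤ M ∧ ∀ (Z : Finset ℂ),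
    (∀ c ∈ Z, ‖c‖ < 1 → ∃ d ∈ Z, ‖d‖ = 1 ∧ ‖d - c‖ = 1 - ‖c‖) →
    ∀ a ∈ Z, ∀ b ∈ Z, a ≠ b → ∀ z : ℂ, ‖z‖ < 1 → z ∉ Z → gf Z z = pf a b z →
    M < gf Z z * (1 - ‖z‖ ^ 2) ^ 4 → ∀ w : ℂ, ‖w‖ ≤ 1 →
    ed a b z w ∉ Z ∧ ‖ed a b z w‖ < 1 ∧ (1 - η) * (1 - ‖z‖ ^ 2) ≤ 1 - ‖ed a b z w‖ ^ 2

/-- the interface of the theorem -/
def S_T4 : Prop := ∀ κ K : ℝ, 0 < κ → κ < 1 → 1 ≤ K → ∃ (n : ℕ) (C : ℝ), 0 < n ∧ 0 < C ∧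
    ∀ (Z : Finset ℂ) (u : ℂ → ℝ), (∀ a ∈ Z, ‖a‖ < 1) → (∀ z, 0 ≤ u z) → (∃ M : ℝ, ∀ z, u z ≤ M) →
    (∀ E : ℂ → ℂ, DifferentiableOn ℂ E (ball 0 1) → (∀ w ∈ ball (0 : ℂ) 1, ‖E w‖ < 1 ∧ E w ∉ Z) →
      ∀ (G : ℂ → ℂ) (B : ℝ), DifferentiableOn ℂ G (ball 0 1) →
      (∀ w : ℂ, ‖w‖ = κ → u (E w) * ‖G w‖ ≤ B) → u (E 0) * ‖G 0‖ ≤ K * B) →
    ∀ (ψ G : ℂ → ℂ) (B : ℝ), 0 ≤ B → (∀ z ∈ closedBall (0 : ℂ) 1, DifferentiableAt ℂ ψ z) →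
      (∀ z ∈ closedBall (0 : ℂ) 1, DifferentiableAt ℂ G z) → (∀ a ∈ Z, ψ a = 0) →
      (∀ z : ℂ, 1 / 2 ≤ ‖z‖ → ‖z‖ < 1 → z ∉ Z → u z * (‖ψ z‖ ^ (4 * n) * ‖G z‖) ≤ B) →
      ∀ z : ℂ, ‖z‖ ≤ 1 / 2 → z ∉ Z → u z * (‖ψ z‖ ^ (4 * n) * ‖G z‖) ≤ C * B

end Pool.Agent.H918.SS
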