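import Pool.Agent.H918.D.S0
import Pool.Agent.H918.D.LMd

/-! The distance to the bad values, and the product of the distances with this weight. -/

set_option autoImplicit false

open Filter Topology Metric Set

namespace Pool.Agent.H918.SS

open Pool.Agent.Y190.OP Pool.Agent.N155 Pool.Agent.N154.GG

variable {N : ℕ} {T : Set (Mat N)} {Λ : AddSubgroup ℂ} {a : Mat N → ℂ} {κ : Type}
    {η : κ → (Fin N → ℂ) → (Fin N → ℂ) → (Fin N → ℂ) → ℂ} {𝔅 : Set ℂ} {δ : ℝ}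
    {r : ℕ} {e : Fin r → ℂ → Mat N}

open Classical in
/-- the truncated distance to the bad values -/
noncomputable def kk (𝔅 : Set ℂ) (δ : ℝ) (w : ℂ) : ℝ :=
  if h : ∃ b ∈ 𝔅, ‖w - b‖ < δ then ‖w - h.choose‖ / δ else 1

theorem Bd.kk_eq (hb : Bd Λ 𝔅 δ) {w b : ℂ} (h1 : b ∈ 𝔅) (h2 : ‖w - b‖ < δ) :
    kk 𝔅 δ w = ‖w - b‖ / δ := by
  have h : ∃ b ∈ 𝔅, ‖w - b‖ < δ := ⟨b, h1, h2⟩
  unfold kk
  rw [dif_pos h]
  have h3 := h.choose_spec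
  rw [hb.sep _ h3.1 b h1 (by
    have e : h.choose - b = (w - b) - (w - h.choose) := by ring
    rw [e]
    have := norm_sub_le (w - b) (w - h.choose)
    have := hb.pos
    linarith [h3.2])]

theorem kk_far {w : ℂ} (h : ∀ b ∈ 𝔅, δ ≤ ‖w - b‖) : kk 𝔅 δ w = 1 := by
  unfold kk
  rw [dif_neg]
  push Not
  exact h

theorem Bd.kk_nn (hb : Bd Λ 𝔅 δ) (w : ℂ) : 0 ≤ kk 𝔅 δ w := by
  unfold kk
  split_ifs with h
  · exact div_nonneg (norm_nonneg _) hb.pos.le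
  · exact zero_le_one

theorem Bd.kk_le (hb : Bd Λ 𝔅 δ) (w : ℂ) : kk 𝔅 δ w ≤ 1 := by
  unfold kk
  split_ifs with h
  · exact (div_le_one hb.pos).2 h.choose_spec.2.le
  · exact le_rfl

theorem Bd.kk_lower (hb : Bd Λ 𝔅 δ) {w : ℂ} {c : ℝ} (h : ∀ b ∈ 𝔅, c ≤ ‖w - b‖) :
    min 1 (c / δ) ≤ kk 𝔅 δ w := by
  by_cases h1 : ∃ b ∈ 𝔅, ‖w - b‖ < δ
  · obtain ⟨b, h2, h3⟩ := h1
    rw [hb.kk_eq h2 h3]
    exact (min_le_right _ _).trans (div_le_div_of_nonneg_right (h b h2) hb.pos.le)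
  · push Not at h1
    rw [kk_far h1]
    exact min_le_left _ _

theorem Bd.kk_zero (hb : Bd Λ 𝔅 δ) {w : ℂ} (h : w ∈ 𝔅) : kk 𝔅 δ w = 0 := by
  rw [hb.kk_eq h (by rw [sub_self, norm_zero]; exact hb.pos), sub_self, norm_zero, zero_div]

theorem Bd.kk_pos (hb : Bd Λ 𝔅 δ) {w : ℂ} (h : w ∉ 𝔅) : 0 < kk 𝔅 δ w := by
  by_cases h1 : ∃ b ∈ 𝔅, ‖w - b‖ < δ
  · obtain ⟨b, h2, h3⟩ := h1
    rw [hb.kk_eq h2 h3]
    apply div_pos _ hb.pos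
    rw [norm_pos_iff, sub_ne_zero]
    rintro rfl
    exact h h2
  · push Not at h1
    rw [kk_far h1]
    exact one_pos

theorem Bd.mem_iff (hb : Bd Λ 𝔅 δ) {w l : ℂ} (hl : l ∈ Λ) : w + l ∈ 𝔅 ↔ w ∈ 𝔅 := by
  constructor
  · intro h
    have := hb.inv _ h _ (Λ.neg_mem hl)
    rwa [add_neg_cancel_right] at this
  · intro h
    exact hb.inv _ h _ hl

theorem Bd.kk_inv (hb : Bd Λ 𝔅 δ) (w : ℂ) {l : ℂ} (hl : l ∈ Λ) :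
    kk 𝔅 δ (w + l) = kk 𝔅 δ w := by
  by_cases h1 : ∃ b ∈ 𝔅, ‖w - b‖ < δ
  · obtain ⟨b, h2, h3⟩ := h1
    have e : w + l - (b + l) = w - b := by ring
    rw [hb.kk_eq h2 h3, hb.kk_eq (hb.inv _ h2 _ hl) (by rwa [e]), e]
  · push Not at h1
    rw [kk_far h1, kk_far]
    intro b hbb
    have h2 := h1 (b + -l) (hb.inv _ hbb _ (Λ.neg_mem hl))
    have e : w - (b + -l) = w + l - b := by ring
    rwa [e] at h2

/-- the weighted product of the distances -/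
noncomputable def Dh (𝔅 : Set ℂ) (δ : ℝ) (n : ℕ) (e : Fin r → ℂ → Mat N) (P : ℂ → Mat N)
    (φ : ℂ → ℂ) (z : ℂ) : ℝ := Pr e P φ z * kk 𝔅 δ (φ z) ^ (4 * n)

theorem Bd.Dh_nn (hb : Bd Λ 𝔅 δ) (n : ℕ) (e : Fin r → ℂ → Mat N) (P : ℂ → Mat N)
    (φ : ℂ → ℂ) (z : ℂ) : 0 ≤ Dh 𝔅 δ n e P φ z :=
  mul_nonneg (Pr_nonneg e P φ z) (pow_nonneg (hb.kk_nn _) _)

theorem Bd.Dh_le_Pr (hb : Bd Λ 𝔅 δ) (n : ℕ) (e : Fin r → ℂ → Mat N) (P : ℂ → Mat N)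
    (φ : ℂ → ℂ) (z : ℂ) : Dh 𝔅 δ n e P φ z ≤ Pr e P φ z :=
  mul_le_of_le_one_right (Pr_nonneg e P φ z) (pow_le_one₀ (hb.kk_nn _) (hb.kk_le _))

theorem Dh_le (hT : TD T Λ a) (hb : Bd Λ 𝔅 δ) (n : ℕ) (he : ∀ j, e j ∈ S0 T Λ a)
    {P : ℂ → Mat N} {φ : ℂ → ℂ} {z : ℂ} (hP : P z ∈ T) : Dh 𝔅 δ n e P φ z ≤ 2 ^ r :=
  (hb.Dh_le_Pr n e P φ z).trans (Pr_le hT he hP)

theorem Dh_shift (hb : Bd Λ 𝔅 δ) (n : ℕ) (hE : En T Λ a e) {P : ℂ → Mat N} {φ ψ : ℂ → ℂ}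
    {z w : ℂ} {Q : ℂ → Mat N} (hPQ : P z = Q w) (hl : ψ w - φ z ∈ Λ) :
    Dh 𝔅 δ n e P φ z = Dh 𝔅 δ n e Q ψ w := by
  unfold Dh
  rw [Pr_shift hE hPQ hl]
  congr 2
  have := hb.kk_inv (φ z) hl
  rw [add_sub_cancel] at this
  exact this.symm

/-- the gradient on discs which do not meet the bad fibres -/
theorem grad_free (h : TD T Λ a) (hb : Bd Λ 𝔅 δ) (hf : FibL T Λ a 𝔅) : ∃ C : ℝ, 0 < C ∧
    ∀ (P : ℂ → Mat N) (φ : ℂ → ℂ) (c : ℂ) (R : ℝ) (c0 : ℂ), 0 < R → Dsc T Λ a c R P φ →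
      (∀ w ∈ ball c R, ‖φ w - c0‖ ≤ 1) → (∀ w ∈ ball c R, φ w ∉ 𝔅) → ‖fderiv ℝ P c‖ ≤ C / R := by
  obtain ⟨C0, hC0, hG⟩ := gradient0 h hb hf
  refine ⟨C0, hC0, ?_⟩
  intro P φ c R c0 hR hD hosc hav
  have h1 := hG P φ c R hR hD hav
  have h2 : sg φ c ≤ 1 / R := by
    have h3 : ∀ ρ : ℝ, 0 < ρ → ρ < R → sg φ c ≤ 1 / ρ := fun ρ hρ hρR =>
      sg_le_of_bound_l hD.dif (c := c0) hρ hρR fun w hw =>
        hosc w (sphere_subset_closedBall.trans (closedBall_subset_ball hρR) hw)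
    refine le_of_tendsto_of_tendsto (tendsto_const_nhds (f := 𝓝[<] R))
      (g := fun ρ : ℝ => 1 / ρ) ?_ ?_
    · have h4 : ContinuousAt (fun ρ : ℝ => 1 / ρ) R := by
        have := hR.ne'
        fun_prop (disch := assumption)
      exact h4.tendsto.mono_left nhdsWithin_le_nhds
    · filter_upwards [Ioo_mem_nhdsLT hR] with ρ hρ
      exact h3 ρ hρ.1 hρ.2
  rwa [max_eq_right h2, mul_one_div] at h1

end Pool.Agent.H918.SS
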