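import Pool.Agent.H918.D.Gr1
import Pool.Graph.R_pool_sql_team_seeded_63374d34.N154.DD.CP

/-! The entire curves over the identity are finite in number. (After the file `N154/GG/Fi.lean` of an
earlier team.) -/

set_option autoImplicit false

open Filter Topology Metric Set

namespace Pool.Agent.H918.SS

open Pool.Agent.Y190.OP Pool.Agent.N155 Pool.Agent.N154.GG

variable {N : ℕ} {T : Set (Mat N)} {Λ : AddSubgroup ℂ} {a : Mat N → ℂ} {κ : Type}
    {η : κ → (Fin N → ℂ) → (Fin N → ℂ) → (Fin N → ℂ) → ℂ} {𝔅 : Set ℂ} {δ : ℝ}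

/-- rigidity: there are no bounded vector fields along the curves over affine functions, which are
limits of differences of curves -/
def RIG (T : Set (Mat N)) (Λ : AddSubgroup ℂ) (a : Mat N → ℂ) : Prop :=
  ∀ (𝓤 : Ultrafilter ℕ) (g : ℂ → Mat N) (α β : ℂ) (B B' : ℝ) (P Q : ℕ → ℂ → Mat N)
    (φ wt : ℕ → ℂ → ℂ), α ≠ 0 → RDl T Λ a 𝓤 g (fun t => α * t + β) B B' P Q φ wt →
    (∀ᶠ m in (𝓤 : Filter ℕ), 1 ≤ ‖Q m 0 - P m 0‖ * ‖wt m 0‖) → False

theorem rig_of_gd (hT : TD T Λ a) (hG : GD T Λ a η) : RIG T Λ a := by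
  intro 𝓤 g α β B B' P Q φ wt hα h hn
  have h1 := rigid_l hT hG h hn 1
  simp only [mul_one, mul_zero, zero_add, add_eq_right] at h1
  exact hα h1

/-- the gradient estimate for the curves over the translations -/
def GS (T : Set (Mat N)) (Λ : AddSubgroup ℂ) (a : Mat N → ℂ) (C : ℝ) : Prop :=
  ∀ (P : ℂ → Mat N) (c : ℂ), HolP univ P → (∀ z, P z ∈ T) →
    Over Λ a P (fun z => z + c) → ∀ z, ‖fderiv ℝ P z‖ ≤ C

theorem GS.S0 {C : ℝ} (h : GS T Λ a C) {g : ℂ → Mat N} (hg : g ∈ S0 T Λ a) (z : ℂ) :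
    ‖fderiv ℝ g z‖ ≤ C := by
  refine h g 0 hg.1 hg.2.1 (fun z => ?_) z
  simp only [add_zero]
  exact hg.2.2 z

theorem exists_GS (h : TD T Λ a) (hb : Bd Λ 𝔅 δ) (hf : FibL T Λ a 𝔅) :
    ∃ C : ℝ, 0 < C ∧ GS T Λ a C := by
  obtain ⟨C, hC, hG⟩ := gradient1 h hb hf
  set R : ℝ := min 1 δ with hR
  have hR0 : 0 < R := lt_min one_pos hb.pos
  refine ⟨C / R, by positivity, fun P c hP hPT hov z => ?_⟩
  refine hG P (fun z => z + c) z R hR0 ⟨hP.mono (subset_univ _), fun w _ => hPT w,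
    by fun_prop, fun w _ => hov w⟩ ?_ ?_
  · intro w hw
    rw [mem_ball, dist_eq_norm] at hw
    have e : w + c - (z + c) = w - z := by ring
    rw [e]
    exact hw.le.trans (min_le_left _ _)
  · intro w hw w' hw' h1 h2
    rw [mem_ball, dist_eq_norm] at hw hw'
    have h3 := hb.sep _ h1 _ h2 (by
      have e : w + c - (w' + c) = (w - z) - (w' - z) := by ring
      rw [e]
      have h4 := norm_sub_le (w - z) (w' - z)
      have h5 : R ≤ δ := min_le_right _ _
      have := hb.pos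
      linarith)
    exact add_right_cancel h3

/-- **Contraction.** -/
theorem contrS (hT : TD T Λ a) (hG : RIG T Λ a) {C : ℝ} (hC : GS T Λ a C) :
    ∃ R δ : ℝ, 0 < R ∧ 0 < δ ∧ ∀ (P Q : ℂ → Mat N) (c : ℂ), HolP univ P → (∀ z, P z ∈ T) →
      Over Λ a P (fun z => z + c) → HolP univ Q → (∀ z, Q z ∈ T) → Over Λ a Q (fun z => z + c) →
      Contr R δ (1 / 2) (fun z => ‖P z - Q z‖) := by
  by_contra hcon
  push Not at hcon
  have hcon' : ∀ m : ℕ, ∃ (P Q : ℂ → Mat N) (c : ℂ), HolP univ P ∧ (∀ z, P z ∈ T) ∧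
      Over Λ a P (fun z => z + c) ∧ HolP univ Q ∧ (∀ z, Q z ∈ T) ∧
      Over Λ a Q (fun z => z + c) ∧ ∃ z0 : ℂ,
      (∀ z ∈ closedBall z0 ((m : ℝ) + 1), ‖P z - Q z‖ ≤ 1 / ((m : ℝ) + 1)) ∧ ∃ b : ℂ,
      ∀ z ∈ closedBall z0 ((m : ℝ) + 1),
        1 / 2 * (‖P z - Q z‖ * ‖Complex.exp (b * (z - z0))‖) < ‖P z0 - Q z0‖ := by
    intro m
    obtain ⟨P, Q, c, h1, h2, h3, h4, h5, h6, h7⟩ := hcon ((m : ℝ) + 1) (1 / ((m : ℝ) + 1))
      (by positivity) (by positivity)
    unfold Contr at h7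
    push Not at h7
    obtain ⟨z0, h8, b, h9⟩ := h7
    exact ⟨P, Q, c, h1, h2, h3, h4, h5, h6, z0, h8, b, h9⟩
  choose P Q c hP PT Po hQ QT Qo z0 hz0 b hb using hcon'
  have hd0 : ∀ m, 0 < ‖P m (z0 m) - Q m (z0 m)‖ := by
    intro m
    have h1 := hb m (z0 m) (mem_closedBall_self (by positivity))
    rw [sub_self, mul_zero, Complex.exp_zero, norm_one, mul_one] at h1
    by_contra h2
    push Not at h2
    have h3 : ‖P m (z0 m) - Q m (z0 m)‖ = 0 := le_antisymm h2 (norm_nonneg _)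
    rw [h3] at h1
    norm_num at h1
  choose l hlΛ hl using fun m => hT.coc.choose_spec (z0 m + c m)
  set D := hT.coc.choose with hD
  set c' : ℕ → ℂ := fun m => z0 m + c m - l m with hc'
  set P' : ℕ → ℂ → Mat N := fun m t => P m (z0 m + t) with hP'
  set Q' : ℕ → ℂ → Mat N := fun m t => Q m (z0 m + t) with hQ'
  have hshift : ∀ {X : ℕ → ℂ → Mat N}, (∀ m, Over Λ a (X m) (fun z => z + c m)) →
      ∀ m, Over Λ a (fun t => X m (z0 m + t)) (fun t => t + c' m) := by
    intro X hX m t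
    have h1 := Λ.sub_mem (hX m (z0 m + t)) (hlΛ m)
    have h2 : t + c' m - a (X m (z0 m + t)) = z0 m + t + c m - a (X m (z0 m + t)) - l m := by
      rw [hc']
      ring
    rw [h2]
    exact h1
  have hPo' := hshift Po
  have hQo' := hshift Qo
  have hPh : ∀ m, HolP univ (P' m) := fun m => holP_shift (hP m) _
  have hQh : ∀ m, HolP univ (Q' m) := fun m => holP_shift (hQ m) _
  have hgrad : ∀ {X : ℕ → ℂ → Mat N}, (∀ m, HolP univ (X m)) → (∀ m t, X m t ∈ T) →
      (∀ m, Over Λ a (X m) (fun t => t + c' m)) → ∀ m z, ‖fderiv ℝ (X m) z‖ ≤ C := by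
    intro X h1 h2 h3 m z
    exact hC (X m) _ (h1 m) (h2 m) (h3 m) z
  set 𝓤 : Ultrafilter ℕ := hyperfilter ℕ with h𝓤
  obtain ⟨H, hH, hHT, hHc, -⟩ := exists_limit hT.comp hT.sub (𝓤 := 𝓤) (K := C) hPh
    (fun m t => PT m _) (hgrad hPh (fun m t => PT m _) hPo')
  obtain ⟨H', hH', hHT', hHc', -⟩ := exists_limit hT.comp hT.sub (𝓤 := 𝓤) (K := C) hQh
    (fun m t => QT m _) (hgrad hQh (fun m t => QT m _) hQo')
  obtain ⟨c0, hc0⟩ := exists_lim (𝓤 := 𝓤) (h := c') (C := D) (Eventually.of_forall hl)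
  have hHH : H' = H := by
    funext t
    have h1 : Tendsto (fun m => ‖P' m t - Q' m t‖) 𝓤 (𝓝 ‖H t - H' t‖) :=
      ((hHc.pointwise (mem_univ t)).sub (hHc'.pointwise (mem_univ t))).norm
    have h2 : Tendsto (fun m => ‖P' m t - Q' m t‖) 𝓤 (𝓝 0) := by
      rw [Metric.tendsto_nhds]
      intro ε hε
      filter_upwards [hyper_ge (‖t‖ + 1 / ε)] with m hm
      have hm0 : (0 : ℝ) < (m : ℝ) + 1 := by positivity
      have hε' : 0 < 1 / ε := by positivity
      have h3 := hz0 m (z0 m + t) (by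
        rw [mem_closedBall, dist_eq_norm, add_sub_cancel_left]
        linarith)
      rw [dist_zero_right, norm_norm]
      refine lt_of_le_of_lt h3 ?_
      rw [div_lt_comm₀ hm0 hε]
      have := norm_nonneg t
      linarith
    have h3 := tendsto_nhds_unique h1 h2
    exact (sub_eq_zero.1 (norm_eq_zero.1 h3)).symm
  rw [hHH] at hHc'
  have hHo : Over Λ a H (fun t => t + c0) := by
    intro t
    exact hT.lim (l := (𝓤 : Filter ℕ)) (Eventually.of_forall fun m => PT m _)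
      (hHc.pointwise (mem_univ t)) (hHT t) (Eventually.of_forall fun m => hPo' m t)
      (hc0.const_add t)
  have hg := over_shift hH hHT hHo
  have hDP : ∀ {X : ℕ → ℂ → Mat N}, (∀ m, HolP univ (X m)) → (∀ m t, X m t ∈ T) →
      (∀ m, Over Λ a (X m) (fun t => t + c' m)) → ∀ L : ℝ, ∀ᶠ m in (𝓤 : Filter ℕ),
        Dsc T Λ a 0 L (X m) (fun t => t + c' m) := fun h1 h2 h3 L => Eventually.of_forall fun m =>
    ⟨(h1 m).mono (subset_univ _), fun w _ => h2 m w, by fun_prop, fun w _ => h3 m w⟩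
  have hRD : RDl T Λ a 𝓤 (fun z => H (z - c0)) (fun t => 1 * t + c0) (C * 1) 2 P' Q'
      (fun m t => t + c' m) (fun m t => Complex.exp (b m * t) / (‖P m (z0 m) - Q m (z0 m)‖ : ℝ)) :=
    { hg := hg.1
      gT := hg.2.1
      gov := hg.2.2
      gB := fun z => by
        rw [mul_one]
        exact hC.S0 hg z
      Φd := by fun_prop
      hP := hDP hPh (fun m t => PT m _) hPo'
      hQ := hDP hQh (fun m t => QT m _) hQo'
      wtd := fun L => Eventually.of_forall fun m => by fun_prop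
      cP := by
        have : (fun z => H (1 * z + c0 - c0)) = H := by
          funext z
          rw [one_mul, add_sub_cancel_right]
        change CConv (𝓤 : Filter ℕ) univ P' (fun z => H (1 * z + c0 - c0))
        rw [this]
        exact hHc
      cQ := by
        have : (fun z => H (1 * z + c0 - c0)) = H := by
          funext z
          rw [one_mul, add_sub_cancel_right]
        change CConv (𝓤 : Filter ℕ) univ Q' (fun z => H (1 * z + c0 - c0))
        rw [this]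
        exact hHc'
      bd := fun L => by
        filter_upwards [hyper_ge L] with m hm t ht
        rw [mem_closedBall_zero_iff] at ht
        have h1 := hb m (z0 m + t) (by
          rw [mem_closedBall, dist_eq_norm, add_sub_cancel_left]
          linarith)
        rw [add_sub_cancel_left] at h1
        rw [norm_div, Complex.norm_real, norm_norm, ← mul_div_assoc, div_le_iff₀ (hd0 m),
          norm_sub_rev]
        change ‖P m (z0 m + t) - Q m (z0 m + t)‖ * _ ≤ _
        linarith }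
  exact hG 𝓤 _ 1 c0 _ _ _ _ _ _ one_ne_zero hRD (by
    refine Eventually.of_forall fun m => ?_
    rw [mul_zero, Complex.exp_zero, norm_div, Complex.norm_real, norm_norm, norm_one,
      norm_sub_rev]
    change 1 ≤ ‖P m (z0 m + 0) - Q m (z0 m + 0)‖ * _
    rw [add_zero, mul_one_div, div_self (hd0 m).ne'])

/-- **Finiteness** -/
theorem S0_finiteS (hT : TD T Λ a) (hG : RIG T Λ a) {C : ℝ} (hC : GS T Λ a C) :
    (S0 T Λ a).Finite := by
  obtain ⟨R, δ, hR, hδ, hc⟩ := contrS hT hG hC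
  have hgB : ∀ g ∈ S0 T Λ a, ∀ z, ‖fderiv ℝ g z‖ ≤ C := fun g hg z => hC.S0 hg z
  by_contra hinf
  have hinf' : (S0 T Λ a).Infinite := hinf
  set g : ℕ → ℂ → Mat N := fun n => (hinf'.natEmbedding (S0 T Λ a) n : ℂ → Mat N) with hg
  have hgm : ∀ n, g n ∈ S0 T Λ a := fun n => (hinf'.natEmbedding (S0 T Λ a) n).2
  have hinj : Function.Injective g := fun m n h =>
    (hinf'.natEmbedding (S0 T Λ a)).injective (Subtype.ext h)
  set 𝓤 : Ultrafilter ℕ := hyperfilter ℕ with h𝓤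
  obtain ⟨H, hH, hHT, hHc, -⟩ := exists_limit hT.comp hT.sub (𝓤 := 𝓤) (K := C)
    (fun n => (hgm n).1) (fun n => (hgm n).2.1) (fun n => hgB _ (hgm n))
  have hHo : Over Λ a H (fun t => t) := by
    intro t
    exact hT.lim (l := (𝓤 : Filter ℕ)) (Eventually.of_forall fun n => (hgm n).2.1 t)
      (hHc.pointwise (mem_univ t)) (hHT t) (Eventually.of_forall fun n => (hgm n).2.2 t)
      tendsto_const_nhds
  have hHS : H ∈ S0 T Λ a := ⟨hH, hHT, hHo⟩
  have h0 : ∀ {X : ℂ → Mat N}, X ∈ S0 T Λ a → Over Λ a X (fun z => z + 0) := by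
    intro X hX z
    have := hX.2.2 z
    change z + 0 - a (X z) ∈ Λ
    rw [add_zero]
    exact this
  have h1 := separation hT.comp hT.sub (K := C) (R := R) (δ := δ) (θ := 1 / 2) hR hδ
    (by norm_num) (by norm_num) (φ := g) (ψ := fun _ => H) (𝓤 := 𝓤)
    (fun n => (hgm n).1) (fun n => (hgm n).2.1) (fun n => hgB _ (hgm n))
    (fun _ => hH) (fun _ => hHT) (fun _ => hgB _ hHS)
    (fun n => hc (g n) H 0 (hgm n).1 (hgm n).2.1 (h0 (hgm n)) hH hHT (h0 hHS))
    (H := H) hHc (fun z _ => by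
      have h2 : ContinuousAt H z := hH.continuousAt (mem_univ z)
      exact h2.tendsto.comp tendsto_snd)
  have h2 : {n | ∀ z, g n z = H z}.Subsingleton := by
    intro m hm n hn
    apply hinj
    funext z
    rw [hm z, hn z]
  have h3 : {n | ∀ z, g n z = H z} ∉ (𝓤 : Filter ℕ) := notMem_hyperfilter_of_finite h2.finite
  exact h3 h1


theorem exists_EnS (hT : TD T Λ a) (hG : RIG T Λ a) {C : ℝ} (hC : GS T Λ a C) :
    ∃ (r : ℕ) (e : Fin r → ℂ → Mat N), En T Λ a e := by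
  classical
  have hfin := S0_finiteS hT hG hC
  have : Fintype (S0 T Λ a) := hfin.fintype
  set E := (Fintype.equivFin (S0 T Λ a)).symm with hE
  refine ⟨_, fun j => (E j : ℂ → Mat N), fun j => (E j).2, ?_, ?_⟩
  · intro i j hij
    exact E.injective (Subtype.ext hij)
  · intro g hg
    exact ⟨E.symm ⟨g, hg⟩, by simp only [Equiv.apply_symm_apply]⟩

/-- the curves over the identity are Lipschitz -/
theorem GS.lip {C : ℝ} (h : GS T Λ a C) {g : ℂ → Mat N} (hg : g ∈ Pool.Agent.N154.GG.S0 T Λ a)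
    (z w : ℂ) : ‖g z - g w‖ ≤ C * ‖z - w‖ :=
  convex_univ.norm_image_sub_le_of_norm_fderiv_le (𝕜 := ℝ)
    (fun x _ => hg.1.differentiableAt (mem_univ x)) (fun x _ => h.S0 hg x) (mem_univ w)
    (mem_univ z)

end Pool.Agent.H918.SS
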