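import Pool.Agent.H918.D.LMP
import Pool.Graph.R_pool_sql_team_seeded_63374d34.N154.DD.CP

/-! The limit function of a rescaled sequence is affine. (Partly after the file `N154/DD/Main.lean` of
an earlier team.) -/

set_option autoImplicit false

open Filter Topology Metric Set

namespace Pool.Agent.H918.SS

open Pool.Agent.Y190.OP Pool.Agent.N155 Pool.Agent.N154.GG

variable {N : ℕ} {T : Set (Mat N)} {Λ : AddSubgroup ℂ} {a : Mat N → ℂ} {κ : Type}
    {η : κ → (Fin N → ℂ) → (Fin N → ℂ) → (Fin N → ℂ) → ℂ} {𝔅 : Set ℂ} {δ : ℝ}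
    {r : ℕ} {e : Fin r → ℂ → Mat N} {q : ℕ} {D K : ℝ} {nn : ℕ → ℕ} {b : ℕ → ℂ}
    {h : ℕ → ℂ → Mat N} {φ : ℕ → ℂ → ℂ}

/-- the bad values are isolated along a nonconstant function -/
theorem Bd.ev_notMem (hb : Bd Λ 𝔅 δ) {Φ : ℂ → ℂ} (hΦ : Differentiable ℂ Φ)
    (hne : ∃ z w, Φ z ≠ Φ w) (x : ℂ) : ∀ᶠ z in 𝓝[≠] x, Φ z ∉ 𝔅 := by
  by_cases hx : Φ x ∈ 𝔅
  · have han : AnalyticOnNhd ℂ Φ univ := fun z _ => hΦ.analyticAt z
    rcases (hΦ.analyticAt x).eventually_eq_or_eventually_ne (g := fun _ => Φ x)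
      analyticAt_const with h1 | h1
    · exfalso
      have h2 := han.eqOn_of_preconnected_of_eventuallyEq (g := fun _ => Φ x)
        (fun z _ => analyticAt_const) isPreconnected_univ (mem_univ x) h1
      obtain ⟨z, w, hzw⟩ := hne
      exact hzw ((h2 (mem_univ z)).trans (h2 (mem_univ w)).symm)
    · have h2 : ∀ᶠ z in 𝓝[≠] x, ‖Φ z - Φ x‖ < 4 * δ := by
        apply Eventually.filter_mono nhdsWithin_le_nhds
        have h3 : ContinuousAt (fun z => ‖Φ z - Φ x‖) x :=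
          (hΦ.continuous.continuousAt.sub continuousAt_const).norm
        refine h3.eventually_lt_const ?_
        simp only [sub_self, norm_zero]
        have := hb.pos
        positivity
      filter_upwards [h1, h2] with z h3 h4 h5
      exact h3 (hb.sep _ h5 _ hx h4)
  · apply Eventually.filter_mono nhdsWithin_le_nhds
    exact hΦ.continuous.continuousAt.eventually (hb.closed.isOpen_compl.mem_nhds hx)

theorem Bd.countable (hb : Bd Λ 𝔅 δ) {Φ : ℂ → ℂ} (hΦ : Differentiable ℂ Φ)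
    (hne : ∃ z w, Φ z ≠ Φ w) : {z | Φ z ∈ 𝔅}.Countable := by
  have h1 : ∀ n : ℕ, ({z | Φ z ∈ 𝔅} ∩ closedBall 0 n).Finite := by
    intro n
    by_contra hinf
    have hinf' : ({z | Φ z ∈ 𝔅} ∩ closedBall 0 n).Infinite := hinf
    obtain ⟨x, hx, hacc⟩ := hinf'.exists_accPt_of_subset_isCompact
      (isCompact_closedBall (0 : ℂ) n) inter_subset_right
    rw [accPt_iff_frequently_nhdsNE] at hacc
    exact hacc ((hb.ev_notMem hΦ hne x).mono fun z hz hz' => hz hz'.1)
  have h2 : {z | Φ z ∈ 𝔅} ⊆ ⋃ n : ℕ, ({z | Φ z ∈ 𝔅} ∩ closedBall 0 n) := by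
    intro z hz
    obtain ⟨n, hn⟩ := exists_nat_ge ‖z‖
    exact mem_iUnion.2 ⟨n, hz, mem_closedBall_zero_iff.2 hn⟩
  exact (countable_iUnion fun n => (h1 n).countable).mono h2

theorem Bd.preconn (hb : Bd Λ 𝔅 δ) {Φ : ℂ → ℂ} (hΦ : Differentiable ℂ Φ)
    (hne : ∃ z w, Φ z ≠ Φ w) : IsPreconnected {z | Φ z ∉ 𝔅} := by
  have h1 := (hb.countable hΦ hne).isConnected_compl_of_one_lt_rank (by simp)
  exact h1.isPreconnected

/-- uniform convergence on compact sets -/
theorem cconv_small {l : Filter ℕ} {U : Set ℂ} {f : ℕ → ℂ → ℝ}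
    (hf : ∀ z ∈ U, Tendsto (fun x : ℕ × ℂ => f x.1 x.2) (l ×ˢ 𝓝 z) (𝓝 0)) {A : Set ℂ}
    (hA : IsCompact A) (hAU : A ⊆ U) {ε : ℝ} (hε : 0 < ε) :
    ∀ᶠ k in l, ∀ z ∈ A, f k z < ε := by
  refine hA.induction_on (p := fun A => ∀ᶠ n in l, ∀ z ∈ A, f n z < ε) ?_ ?_ ?_ ?_
  · exact Eventually.of_forall fun n z hz => absurd hz (notMem_empty z)
  · intro s t hst ht
    filter_upwards [ht] with n hn z hz
    exact hn z (hst hz)
  · intro s t hs ht
    filter_upwards [hs, ht] with n hn1 hn2 z hz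
    rcases hz with hz | hz
    · exact hn1 z hz
    · exact hn2 z hz
  · intro z hz
    have h4 := (hf z (hAU hz)).eventually_lt_const hε
    rw [eventually_prod_iff] at h4
    obtain ⟨pa, hpa, pb, hpb, hab⟩ := h4
    refine ⟨{w | pb w}, mem_nhdsWithin_of_mem_nhds hpb, ?_⟩
    filter_upwards [hpa] with n hn w hw
    exact hab hn hw

theorem SQh.bW (hs : SQh T Λ a e 𝔅 δ q D nn b h φ) (hb : Bd Λ 𝔅 δ) {k m p : ℕ}
    (hp : p * (m + 1) = qk (nn k)) {t : ℂ}
    (ht : ‖t‖ ≤ k) : cf (φ k) (m + 1) t ^ p * (Dh 𝔅 δ q e (h k) (φ k) t *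
      ‖Complex.exp (b k * t)‖) ≤ 2 * Dh 𝔅 δ q e (h k) (φ k) 0 := by
  refine le_trans ?_ (hs.bd k t ht)
  apply mul_le_mul_of_nonneg_right _ (mul_nonneg (hb.Dh_nn _ _ _ _ _) (norm_nonneg _))
  rw [← hp, mul_comm p, pow_mul]
  exact pow_le_pow_left₀ (cf_nonneg _ _)
    (cf_le_sg_l ((hs.dsc k).dif.mono ball_sub_l) (by linarith) m) p

theorem SQh.evm (hs : SQh T Λ a e 𝔅 δ q D nn b h φ) (m : ℕ) :
    ∀ᶠ k : ℕ in (UU : Filter ℕ), m ≤ nn k := by
  filter_upwards [uu_ge (m : ℝ)] with k hk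
  exact (by exact_mod_cast hk : m ≤ k).trans (hs.nge k)

/-- the limit function is not constant -/
theorem SQh.nonconst (hs : SQh T Λ a e 𝔅 δ q D nn b h φ) {m : ℕ}
    (hm : ∀ᶠ k in (UU : Filter ℕ), ∀ p : ℕ, p * (m + 1) = qk (nn k) →
      1 / 2 ≤ cf (φ k) (m + 1) 0 ^ p) {Φ : ℂ → ℂ}
    (hΦc : CConv (UU : Filter ℕ) univ φ Φ) : ∃ z w, Φ z ≠ Φ w := by
  by_contra hcon
  push Not at hcon
  have h1 : Tendsto (fun k => cf (φ k) (m + 1) 0) UU (𝓝 (cf Φ (m + 1) 0)) :=
    (it_lim_l (fun L => (hs.dscL L).mono fun _ h => h.dif) hΦc (m + 1) 0).norm.div_const _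
  have h2 : cf Φ (m + 1) 0 = 0 := by
    unfold cf
    rw [show Φ = fun _ => Φ 0 from funext fun z => hcon z 0, iteratedDeriv_const,
      if_neg (Nat.succ_ne_zero m), norm_zero, zero_div]
  rw [h2] at h1
  have h3 := h1.eventually_lt_const (u := 1 / 2) (by norm_num)
  obtain ⟨k, e1, e2, e3⟩ := (h3.and (hm.and (hs.evm m))).exists
  have e4 := e2 _ (qk_dvd e3)
  have hp0 : qk (nn k) / (m + 1) ≠ 0 := by
    intro h0
    have := qk_dvd e3
    rw [h0, zero_mul] at this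
    unfold qk at this
    have := Nat.factorial_pos (nn k + 1)
    omega
  have h5 : cf (φ k) (m + 1) 0 ≤ 1 := by
    have := cf_le_sg_l (hs.dsc k).dif (by positivity) m
    rwa [hs.s0 k, one_pow] at this
  have h6 := pow_le_of_le_one (cf_nonneg (φ := φ k) (m + 1) 0) h5 hp0
  linarith

/-- the limit function is affine -/
theorem SQh.aff (hT : TD T Λ a) (hb : Bd Λ 𝔅 δ) (hf : FibL T Λ a 𝔅)
    (hs : SQh T Λ a e 𝔅 δ q D nn b h φ) (he : ∀ j, e j ∈ S0 T Λ a) (hK : 0 ≤ K)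
    (hLM : LMh T Λ a 𝔅 δ q e K) {m : ℕ}
    (hm : ∀ᶠ k in (UU : Filter ℕ), ∀ p : ℕ, p * (m + 1) = qk (nn k) →
      1 / 2 ≤ cf (φ k) (m + 1) 0 ^ p)
    {Φ : ℂ → ℂ} (hΦ : Differentiable ℂ Φ)
    (hΦc : CConv (UU : Filter ℕ) univ φ Φ) : ∃ α β : ℂ, α ≠ 0 ∧ ∀ t, Φ t = α * t + β := by
  have hδ := hb.pos
  have hkm := hs.evm m
  have hne := hs.nonconst hm hΦc
  set U : Set ℂ := {z | Φ z ∉ 𝔅} with hU
  have hUo : IsOpen U := hb.closed.isOpen_compl.preimage hΦ.continuous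
  have hUc : IsPreconnected U := hb.preconn hΦ hne
  have hev := hb.ev_notMem hΦ hne
  -- the limit of the curves
  obtain ⟨C, hC0, hC⟩ := gradient0 hT hb hf
  obtain ⟨H, hH, hHT, hHc⟩ := exists_limit_on (𝓤 := UU) (h := h) hT.comp hT.sub hUo (by
    intro z hz
    obtain ⟨c, hc, ρ, hρ, hcρ⟩ := hb.ev_far hΦc hz
    obtain ⟨K', hK'⟩ := hs.LB hT hb he hK hLM (‖z‖ + ρ)
    refine ⟨ρ / 2, by positivity, C * max K' (1 / (ρ / 2)), ?_⟩
    have hnorm : ∀ w ∈ ball z (ρ / 2), ‖w‖ ≤ ‖z‖ + ρ / 2 := by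
      intro w hw
      rw [mem_ball, dist_eq_norm] at hw
      have := norm_add_le (w - z) z
      rw [sub_add_cancel] at this
      linarith
    filter_upwards [hcρ, hK', hs.dscL (‖z‖ + ρ)] with k h1 h2 h3
    have hsub : ball z (ρ / 2) ⊆ ball 0 (‖z‖ + ρ) := fun w hw =>
      mem_ball_zero_iff.2 (by linarith [hnorm w hw])
    refine ⟨h3.hol.mono hsub, fun w hw => h3.mem w (hsub hw), fun w hw => ?_⟩
    have hw' := hnorm w hw
    refine (hC (h k) (φ k) w (ρ / 2) (by positivity) (h3.mono ?_) fun x hx hbad => ?_).trans ?_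
    · apply ball_subset_ball'
      rw [dist_zero_right]
      linarith
    · have h4 := h1 x (by
        rw [mem_ball, dist_eq_norm] at hw hx ⊢
        have := norm_add_le (x - w) (w - z)
        rw [sub_add_sub_cancel] at this
        linarith) _ hbad
      rw [sub_self, norm_zero] at h4
      linarith
    · apply mul_le_mul_of_nonneg_left _ hC0.le
      exact max_le_max_right _ (h2 w (by linarith)))
  -- the weights
  set d : ℕ → ℂ → ℝ := fun k t => Dh 𝔅 δ q e (h k) (φ k) t with hd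
  have hdnn : ∀ k t, 0 ≤ d k t := fun k t => hb.Dh_nn _ _ _ _ _
  have hd0 : ∀ k, 0 < d k 0 := hs.d0
  set E : ℕ → ℂ → ℝ := fun k t => ‖Complex.exp (b k * t)‖ with hE
  have hEp : ∀ k t, 0 < E k t := fun k t => norm_pos_iff.2 (Complex.exp_ne_zero _)
  have hE0 : ∀ k, E k 0 = 1 := fun k => by
    rw [hE]
    simp only
    rw [mul_zero, Complex.exp_zero, norm_one]
  set G : ℕ → ℂ → ℂ := fun k t => Wl nn b φ m k t / (d k 0 : ℝ) with hG
  have hGn : ∀ k t, ‖G k t‖ = cf (φ k) (m + 1) t ^ (qk (nn k) / (m + 1)) * E k t / d k 0 := by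
    intro k t
    rw [hG]
    simp only
    rw [norm_div, norm_Wl, Complex.norm_real, Real.norm_of_nonneg (hd0 k).le]
  have hbd : ∀ L : ℝ, ∀ᶠ k in (UU : Filter ℕ), ∀ z ∈ closedBall (0 : ℂ) L,
      d k z * ‖G k z‖ ≤ 2 := by
    intro L
    filter_upwards [hkm, uu_ge L] with k hk hkL z hz
    have h1 := hs.bW hb (qk_dvd hk) ((mem_closedBall_zero_iff.1 hz).trans hkL)
    rw [hGn, mul_div_assoc', div_le_iff₀ (hd0 k)]
    change _ * (d k z * E k z) ≤ 2 * d k 0 at h1
    linarith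
  have hN0 : ∀ᶠ k in (UU : Filter ℕ), 1 / 2 ≤ d k 0 * ‖G k 0‖ := by
    filter_upwards [hm, hkm] with k h1 h2
    rw [hGn, hE0, mul_one, mul_div_cancel₀ _ (hd0 k).ne']
    exact h1 _ (qk_dvd h2)
  have hGd : ∀ L : ℝ, ∀ᶠ k in (UU : Filter ℕ), DifferentiableOn ℂ (G k) (ball 0 L) := by
    intro L
    filter_upwards [hs.dscL L] with k hk
    have := diff_Wl (nn := nn) (b := b) hk.dif m
    rw [hG]
    exact this.div_const _
  have hball : ∀ z : ℂ, ball z 1 ⊆ ball (0 : ℂ) (‖z‖ + 1) := by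
    intro z
    apply ball_subset_ball'
    rw [dist_zero_right]
    linarith
  -- the lower bound of the distance to the bad values
  have hlowk : ∀ z ∈ U, ∃ c > 0, ∃ ρ > 0, ∀ᶠ k in (UU : Filter ℕ), ∀ w ∈ ball z ρ,
      c * Pr e (h k) (φ k) w ≤ d k w := by
    intro z hz
    obtain ⟨c, hc, ρ, hρ, hcρ⟩ := hb.ev_far hΦc hz
    refine ⟨min 1 (c / δ) ^ (4 * q), by positivity, ρ, hρ, ?_⟩
    filter_upwards [hcρ] with k hk w hw
    have h1 := hb.kk_lower (hk w hw)
    have h2 : 0 ≤ min 1 (c / δ) := by positivity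
    rw [hd]
    simp only
    unfold Dh
    rw [mul_comm]
    exact mul_le_mul_of_nonneg_left (pow_le_pow_left₀ h2 h1 _) (Pr_nonneg _ _ _ _)
  have hnz := (nz_dich_on (𝓤 := UU) hUo hUc (P := h) (Q := fun j k t => e j (φ k t)) (Pi := H)
    (Qi := fun j t => e j (Φ t)) (G := G)
    (fun z _ => ⟨1, one_pos, (hs.dscL (‖z‖ + 1)).mono fun _ h => h.hol.mono (hball z)⟩)
    (fun j z _ => ⟨1, one_pos, (hs.dscL (‖z‖ + 1)).mono fun _ h =>
      (h.curve (he j)).hol.mono (hball z)⟩)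
    (fun z hz => hT.sub (hHT z hz)) (fun j z _ => hT.sub ((he j).2.1 _)) hHc
    (fun j z _ => e_conv he hΦc j z (mem_univ z))
    (fun z _ => ⟨1, one_pos, (hGd (‖z‖ + 1)).mono fun _ h => h.mono (hball z)⟩) (by
      intro z hz
      obtain ⟨c, hc, ρ, hρ, hcρ⟩ := hlowk z hz
      refine ⟨min ρ 1, lt_min hρ one_pos, 2 / c, ?_⟩
      filter_upwards [hcρ, hbd (‖z‖ + 1)] with k h1 h2 w hw
      have h3 := h1 w (ball_subset_ball (min_le_left _ _) hw)
      have h4 := h2 w (ball_subset_closedBall (hball z (ball_subset_ball (min_le_right _ _) hw)))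
      rw [le_div_iff₀ hc]
      have h5 := mul_le_mul_of_nonneg_right h3 (norm_nonneg (G k w))
      unfold Pr at h5
      linarith)).resolve_left (by
    intro h0
    have hm8 : 0 < min 1 δ / 32 := by positivity
    have hcont : ∀ᶠ z in 𝓝 (0 : ℂ), ‖Φ z - Φ 0‖ < min 1 δ / 32 := by
      have h3 : ContinuousAt (fun z => ‖Φ z - Φ 0‖) 0 :=
        (hΦ.continuous.continuousAt.sub continuousAt_const).norm
      refine h3.eventually_lt_const ?_
      simp only [sub_self, norm_zero]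
      exact hm8
    have hev0 := hev 0
    rw [eventually_nhdsWithin_iff] at hev0
    obtain ⟨R0, hR0, hR0s⟩ := Metric.mem_nhds_iff.1 (hev0.and hcont)
    set ρ : ℝ := R0 / 2 with hρ
    have hρ0 : 0 < ρ := by positivity
    have hsub : closedBall (0 : ℂ) ρ ⊆ ball 0 R0 := closedBall_subset_ball (by linarith)
    set A : Set ℂ := closedBall 0 ρ \ ball 0 (ρ / 2) with hA
    have hAc : IsCompact A := (isCompact_closedBall 0 ρ).diff isOpen_ball
    have hAU : A ⊆ U := by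
      intro z hz
      refine (hR0s (hsub hz.1)).1 ?_
      intro h1
      have h2 : z = 0 := h1
      apply hz.2
      rw [h2]
      exact mem_ball_self (by positivity)
    have hε : 0 < 1 / (4 * (K + 1)) := by positivity
    have hsm := cconv_small (f := fun k z => (∏ j, ‖h k z - e j (φ k z)‖) * ‖G k z‖) h0 hAc hAU hε
    have hunif := CConv.unif hΦc (isCompact_closedBall (0 : ℂ) ρ) hm8
    obtain ⟨k, e1, e2, e3, e4, e5⟩ := (hsm.and (hunif.and ((hs.dscL (ρ + 1)).and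
      ((hGd (ρ + 1)).and hN0)))).exists
    have h1 := hLM (h k) (φ k) 0 ρ (ρ + 1) hρ0 (by linarith) e3 (by
      intro t ht
      have f1 := e2 t ht
      have f2 := e2 0 (mem_closedBall_self hρ0.le)
      have f3 : ‖Φ t - Φ 0‖ < min 1 δ / 32 := (hR0s (hsub ht)).2
      have f4 : φ k t - φ k 0 = (φ k t - Φ t) + (Φ t - Φ 0) - (φ k 0 - Φ 0) := by ring
      rw [f4]
      have f5 := norm_sub_le ((φ k t - Φ t) + (Φ t - Φ 0)) (φ k 0 - Φ 0)
      have f6 := norm_add_le (φ k t - Φ t) (Φ t - Φ 0)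
      linarith) (G k) (1 / (4 * (K + 1))) (fun t ht => e4.differentiableAt
      (isOpen_ball.mem_nhds (closedBall_subset_ball (by linarith) ht))) (by
      intro t ht1 ht2
      rw [sub_zero] at ht1 ht2
      have f1 := e1 t ⟨mem_closedBall_zero_iff.2 ht2, by
        rw [mem_ball_zero_iff, not_lt]
        exact ht1⟩
      have f2 := mul_le_mul_of_nonneg_right (hb.Dh_le_Pr q e (h k) (φ k) t) (norm_nonneg (G k t))
      unfold Pr at f2
      linarith)
    have h2 : K * (1 / (4 * (K + 1))) < 1 / 2 := by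
      rw [mul_one_div, div_lt_div_iff₀ (by positivity) (by norm_num)]
      linarith
    have h3 : d k 0 * ‖G k 0‖ ≤ K * (1 / (4 * (K + 1))) := h1
    linarith)
  have hkey : ∀ z ∈ U, ∀ᶠ t in 𝓝[≠] z, ∀ᶠ k in (UU : Filter ℕ),
      sg (φ k) t ^ (m + 1) ≤ 2 * cf (φ k) (m + 1) t := by
    intro z hz
    filter_upwards [hnz z hz, (hUo.mem_nhds hz |> mem_nhdsWithin_of_mem_nhds)] with t ht htU
    obtain ⟨c, hc, ρ, hρ, hcρ⟩ := hlowk t htU
    obtain ⟨ε, hε, hεt⟩ : ∃ ε > 0, ∀ᶠ k in (UU : Filter ℕ), ε ≤ d k t * ‖G k t‖ := by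
      by_contra hcon
      push Not at hcon
      apply ht
      rw [Metric.tendsto_nhds]
      intro ε hε
      filter_upwards [hcon (c * ε) (by positivity), hcρ] with k hk hk2
      have h1 := hk2 t (mem_ball_self hρ)
      have h2 : 0 ≤ (∏ j, ‖h k t - e j (φ k t)‖) * ‖G k t‖ :=
        mul_nonneg (Finset.prod_nonneg fun _ _ => norm_nonneg _) (norm_nonneg _)
      rw [dist_zero_right, Real.norm_of_nonneg h2]
      have h3 := mul_le_mul_of_nonneg_right h1 (norm_nonneg (G k t))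
      unfold Pr at h3
      have h4 : c * ((∏ j, ‖h k t - e j (φ k t)‖) * ‖G k t‖) < c * ε := by
        rw [← mul_assoc]
        linarith
      exact lt_of_mul_lt_mul_left h4 hc.le
    filter_upwards [hεt, hkm, uu_ge ‖t‖, uu_ge (2 / ε * (m + 1))] with k e1 e2 e3 e4
    set p := qk (nn k) / (m + 1) with hp
    have hpm : p * (m + 1) = qk (nn k) := qk_dvd e2
    rw [hGn, ← hp, mul_div_assoc', le_div_iff₀ (hd0 k)] at e1
    have e5 := hs.bd k t e3
    change sg (φ k) t ^ qk (nn k) * (d k t * E k t) ≤ 2 * d k 0 at e5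
    have hdt : 0 < d k t := by
      rcases (hdnn k t).eq_or_lt with h0 | h0
      · rw [← h0, zero_mul] at e1
        exact absurd e1 (not_le.2 (mul_pos hε (hd0 k)))
      · exact h0
    have e6 : ε * (sg (φ k) t ^ qk (nn k)) ≤ 2 * cf (φ k) (m + 1) t ^ p := by
      have h1 : ε * (sg (φ k) t ^ qk (nn k)) * (d k t * E k t) ≤
          2 * cf (φ k) (m + 1) t ^ p * (d k t * E k t) := by
        calc ε * (sg (φ k) t ^ qk (nn k)) * (d k t * E k t) =
              ε * (sg (φ k) t ^ qk (nn k) * (d k t * E k t)) := by ring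
          _ ≤ ε * (2 * d k 0) := mul_le_mul_of_nonneg_left e5 hε.le
          _ = 2 * (ε * d k 0) := by ring
          _ ≤ 2 * (d k t * (cf (φ k) (m + 1) t ^ p * E k t)) := by linarith
          _ = _ := by ring
      exact le_of_mul_le_mul_right h1 (mul_pos hdt (hEp k t))
    have e7 : 2 / ε ≤ 2 ^ p := by
      have h1 : (k : ℝ) ≤ (p : ℝ) * ((m : ℝ) + 1) := by
        have : k ≤ p * (m + 1) := by
          rw [hpm]
          exact (hs.nge k).trans (qk_ge (nn k))
        exact_mod_cast this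
      have h2 : (2 / ε) ≤ (p : ℝ) := by
        have h3 : (0 : ℝ) < (m : ℝ) + 1 := by positivity
        exact le_of_mul_le_mul_right (e4.trans h1) h3
      have h4 : (p : ℝ) ≤ 2 ^ p := by
        have := (Nat.lt_two_pow_self (n := p)).le
        exact_mod_cast this
      exact h2.trans h4
    have e8 : (sg (φ k) t ^ (m + 1)) ^ p ≤ (2 * cf (φ k) (m + 1) t) ^ p := by
      rw [← pow_mul, mul_comm (m + 1), hpm, mul_pow]
      have h1 : sg (φ k) t ^ qk (nn k) ≤ 2 / ε * cf (φ k) (m + 1) t ^ p := by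
        rw [div_mul_eq_mul_div, le_div_iff₀ hε]
        linarith
      exact h1.trans (mul_le_mul_of_nonneg_right e7 (pow_nonneg (cf_nonneg _ _) _))
    have hp0 : p ≠ 0 := by
      intro h0
      rw [h0, zero_mul] at hpm
      unfold qk at hpm
      have := Nat.factorial_pos (nn k + 1)
      omega
    exact le_of_pow_le_pow_left₀ hp0 (mul_nonneg (by norm_num) (cf_nonneg _ _)) e8
  have hlimcf : ∀ t, Tendsto (fun k => 2 * cf (φ k) (m + 1) t) UU (𝓝 (2 * cf Φ (m + 1) t)) :=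
    fun t => ((it_lim_l (fun L => (hs.dscL L).mono fun _ h => h.dif) hΦc (m + 1) t).norm.div_const
      _).const_mul 2
  have hlimd : ∀ t, Tendsto (fun k => ‖deriv (φ k) t‖ ^ (m + 1)) UU (𝓝 (‖deriv Φ t‖ ^ (m + 1))) := by
    intro t
    have := it_lim_l (fun L => (hs.dscL L).mono fun _ h => h.dif) hΦc 1 t
    simp only [iteratedDeriv_one] at this
    exact this.norm.pow _
  have hlow : ∀ t, ∀ᶠ k in (UU : Filter ℕ), (1 / (4 * (1 + ‖t‖))) ≤ sg (φ k) t := by
    intro t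
    filter_upwards [uu_ge (‖t‖ + 4 * (‖t‖ + 1))] with k hk
    rw [add_comm 1 ‖t‖]
    exact sg_low (hs.dsc k).dif (hs.s0 k) (norm_nonneg t) (by linarith) le_rfl
  have hgen : ∀ z ∈ U, ∀ᶠ t in 𝓝[≠] z, ‖deriv Φ t‖ ^ (m + 1) ≤ 2 * cf Φ (m + 1) t ∧
      (1 / (4 * (1 + ‖t‖))) ^ (m + 1) ≤ 2 * cf Φ (m + 1) t := by
    intro z hz
    filter_upwards [hkey z hz] with t ht
    constructor
    · refine le_of_tendsto_of_tendsto (hlimd t) (hlimcf t) ?_
      filter_upwards [ht, hs.dscL (‖t‖ + 1)] with k hk hd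
      exact (pow_le_pow_left₀ (norm_nonneg _) (deriv_le_sg_l (hd.dif.mono ball_sub_l)
        (by linarith)) _).trans hk
    · refine ge_of_tendsto (hlimcf t) ?_
      filter_upwards [ht, hlow t] with k hk hl
      exact (pow_le_pow_left₀ (by positivity) hl _).trans hk
  have hccf : Continuous fun t => 2 * cf Φ (m + 1) t :=
    (((diff_it hΦ (m + 1)).continuous.norm).div_const _).const_mul 2
  have hcd : Continuous fun t => ‖deriv Φ t‖ ^ (m + 1) := by
    have : Differentiable ℂ (deriv Φ) := fun z => (hΦ.analyticAt z).deriv.differentiableAt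
    exact this.continuous.norm.pow _
  have hcl : Continuous fun t : ℂ => (1 / (4 * (1 + ‖t‖))) ^ (m + 1) := by
    apply Continuous.pow
    apply Continuous.div (by fun_prop) (by fun_prop)
    intro t
    positivity
  have hall : ∀ {f g : ℂ → ℝ}, Continuous f → Continuous g →
      (∀ z ∈ U, ∀ᶠ t in 𝓝[≠] z, f t ≤ g t) → ∀ t, f t ≤ g t := by
    intro f g hf hg hfg
    have h1 : ∀ z ∈ U, f z ≤ g z := fun z hz =>
      le_of_tendsto_of_tendsto (hf.continuousAt.mono_left nhdsWithin_le_nhds)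
        (hg.continuousAt.mono_left nhdsWithin_le_nhds) (b := 𝓝[≠] z) (hfg z hz)
    intro t
    refine le_of_tendsto_of_tendsto (hf.continuousAt.mono_left nhdsWithin_le_nhds)
      (hg.continuousAt.mono_left nhdsWithin_le_nhds) (b := 𝓝[≠] t) ?_
    filter_upwards [hev t] with z hz
    exact h1 z hz
  apply affine_of hΦ (m := m)
  · exact hall hcd hccf fun z hz => (hgen z hz).mono fun t ht => ht.1
  · exact hall hcl hccf fun z hz => (hgen z hz).mono fun t ht => ht.2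

end Pool.Agent.H918.SS
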