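import Pool.Graph.R_pool_sql_team_seeded_63374d34.N154.GG.Defs

/-!
Fibrations over elliptic curves whose fibres are Brody hyperbolic, outside of finitely many fibres in
which the entire curves cross other branches of the fibre.
-/

set_option autoImplicit false

open Filter Topology FF LinearAlgebra.Projectivization Pool.Agent.W602.GT Pool.Agent.N154.GG

namespace Pool.Agent.H918.SS

variable {n : ℕ} {ι : Type}

/-- The affine coordinates `u j / u i` of the point of projective space with the homogeneous
coordinates `u`. -/
noncomputable def affCoord (i : Fin (n + 1)) (p : ℙ ℂ (Fin (n + 1) → ℂ)) : Fin (n + 1) → ℂ :=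
  fun j => p.rep j / p.rep i

/-- Let `α` be a map from `X = {F = 0}` to a set `E`, let `B` be a subset of `E`, and let `f` be a
holomorphic map from the complex plane to `X`. Then `f` crosses at `z₀` a hypersurface germ contained
in the fibres over `B`: there is a holomorphic function `w` of the affine coordinates, defined near
the point `f z₀`, such that `w` is zero at `f z₀`, the points of `X` near `f z₀` at which `w` is zero
lie over `B`, and the function `w ∘ f` is not identically zero near `z₀`.

For example, let `X` be a surface, `α` a holomorphic map to an elliptic curve, `b` a point with a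
reduced fibre which is a curve with only nodes, and let `f` be nonconstant with values in this fibre.
If `f z₀` is a node, then `f` crosses at `z₀` the branch of the fibre in which it is not contained. -/
def CrossesAt (F : ι → MvPolynomial (Fin (n + 1)) ℂ) {E : Type} (α : (Fin (n + 1) → ℂ) → E)
    (B : Set E) (f : ℂ → ℙ ℂ (Fin (n + 1) → ℂ)) (z₀ : ℂ) : Prop :=
  ∃ (i : Fin (n + 1)) (w : (Fin (n + 1) → ℂ) → ℂ), (f z₀).rep i ≠ 0 ∧
    AnalyticAt ℂ w (affCoord i (f z₀)) ∧
    (∀ᶠ x in 𝓝 (affCoord i (f z₀)), x ∈ Cone F → x i = 1 → w x = 0 → α x ∈ B) ∧
    w (affCoord i (f z₀)) = 0 ∧ ¬ ∀ᶠ z in 𝓝 z₀, w (affCoord i (f z)) = 0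

/-- Every nonconstant holomorphic map `f` from the complex plane to a fibre of `α` has its values in
a fibre over a point of `B`, and it crosses somewhere a hypersurface germ contained in the fibres over
`B`. In particular, the fibres over the points outside `B` are Brody hyperbolic.

Examples: (1) `B` is empty and all fibres are Brody hyperbolic. (2) `X` is a surface with ample
canonical bundle, `α` is a holomorphic map to an elliptic curve whose fibres are reduced with only
nodes, and `B` is the set of the points whose fibre is singular: let `C` be an irreducible component
of a fibre such that there is a nonconstant holomorphic map `f` from the complex plane to `C`. Then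
the normalisation of `C` has genus zero or one, and the number `K_X · C` is its Euler characteristic
times `-1` plus the number of its points over the nodes. So there are at least three of these points
if the genus is zero, and at least one if it is one; thus one of them is a value of the lift of `f` to
the normalisation of `C`, by Picard's theorem. -/
def HyperbolicOrCrossing (F : ι → MvPolynomial (Fin (n + 1)) ℂ) {E : Type}
    (α : (Fin (n + 1) → ℂ) → E) (B : Set E) : Prop :=
  ∀ f : ℂ → ℙ ℂ (Fin (n + 1) → ℂ), HolIn F f → (∀ z w, α (f z).rep = α (f w).rep) →
    (∀ z w, f z = f w) ∨ (α (f 0).rep ∈ B ∧ ∃ z₀, CrossesAt F α B f z₀)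

end Pool.Agent.H918.SS
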