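import Pool.Agent.H918.D.CP
import Pool.Graph.R_pool_sql_team_seeded_63374d34.N154.DD.Pic

/-! Entire curves, for compact sets of projection matrices with bad fibres. -/

set_option autoImplicit false

open Filter Topology Metric Set

namespace Pool.Agent.H918.SS

open Pool.Agent.Y190.OP Pool.Agent.N155 Pool.Agent.N154.GG

variable {N : ℕ} {T : Set (Mat N)} {Λ : AddSubgroup ℂ} {a : Mat N → ℂ} {κ : Type}
    {η : κ → (Fin N → ℂ) → (Fin N → ℂ) → (Fin N → ℂ) → ℂ} {𝔅 : Set ℂ} {δ : ℝ}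
    {r : ℕ} {e : Fin r → ℂ → Mat N}

/-- the curves over the identity, and the local maximum principle -/
theorem exists_core (hT : TD T Λ a) (hG : RIG T Λ a) (hb : Bd Λ 𝔅 δ) (hf : FibL T Λ a 𝔅) :
    ∃ (r : ℕ) (e : Fin r → ℂ → Mat N) (q : ℕ) (K : ℝ), En T Λ a e ∧ 0 ≤ K ∧
      LMh T Λ a 𝔅 δ q e K := by
  obtain ⟨C, -, hC⟩ := exists_GS hT hb hf
  obtain ⟨r, e, hE⟩ := exists_EnS hT hG hC
  obtain ⟨q, K, -, hK, hLM⟩ := exists_LMh hT hb hf hE.mem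
  exact ⟨r, e, q, K, hE, hK, hLM⟩

/-- **Entire curves** over nonconstant functions -/
theorem entire_factor (hT : TD T Λ a) (hG : RIG T Λ a) (hb : Bd Λ 𝔅 δ) (hf : FibL T Λ a 𝔅)
    (hE : En T Λ a e) {q : ℕ} {K : ℝ} (hK : 0 ≤ K) (hLM : LMh T Λ a 𝔅 δ q e K)
    {P : ℂ → Mat N} {φ : ℂ → ℂ} (hP : HolP univ P) (hPT : ∀ z, P z ∈ T)
    (hφ : Differentiable ℂ φ) (hov : Over Λ a P φ) (hne : ∃ z w, φ z ≠ φ w) :
    ∃ j, ∀ z, P z = e j (φ z) := by
  classical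
  obtain ⟨k0, hk0⟩ := main_estimateB hT hG hb hf hE hK hLM
  obtain ⟨C, hC, hmain⟩ := hk0 k0 le_rfl
  have hq0 : 0 < ((qk k0 : ℕ) : ℝ)⁻¹ := by
    have : 0 < qk k0 := by
      unfold qk
      positivity
    have h2 : (0 : ℝ) < (qk k0 : ℝ) := by exact_mod_cast this
    positivity
  have h2r : (0 : ℝ) < 2 ^ r := by positivity
  have hzero : ∀ z, Dh 𝔅 δ q e P φ z = 0 := by
    intro z
    have hx0 : 0 ≤ Dh 𝔅 δ q e P φ z / 2 ^ r := div_nonneg (hb.Dh_nn q e P φ z) h2r.le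
    have h1 : ∀ R : ℝ, 0 < R → sg φ z * (Dh 𝔅 δ q e P φ z / 2 ^ r) ^ (((qk k0 : ℕ) : ℝ)⁻¹) ≤ C / R :=
      fun R hR => hmain P φ z R hR ⟨hP.mono (subset_univ _), fun w _ => hPT w,
        hφ.differentiableOn, fun w _ => hov w⟩
    have h2 : sg φ z * (Dh 𝔅 δ q e P φ z / 2 ^ r) ^ (((qk k0 : ℕ) : ℝ)⁻¹) ≤ 0 := by
      by_contra hcon
      push Not at hcon
      set x := sg φ z * (Dh 𝔅 δ q e P φ z / 2 ^ r) ^ (((qk k0 : ℕ) : ℝ)⁻¹) with hx
      have h3 := h1 (2 * C / x) (by positivity)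
      have h4 : C / (2 * C / x) = x / 2 := by
        field_simp
      rw [h4] at h3
      linarith
    have hsg : 0 < sg φ z := by
      rcases (sg_nonneg hφ z).eq_or_lt with h0 | h0
      · exfalso
        obtain ⟨u, v, huv⟩ := hne
        apply huv
        rw [const_of_sg_zero hφ h0.symm u, const_of_sg_zero hφ h0.symm v]
      · exact h0
    have h3 : (Dh 𝔅 δ q e P φ z / 2 ^ r) ^ (((qk k0 : ℕ) : ℝ)⁻¹) = 0 := by
      have h4 : 0 ≤ (Dh 𝔅 δ q e P φ z / 2 ^ r) ^ (((qk k0 : ℕ) : ℝ)⁻¹) := Real.rpow_nonneg hx0 _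
      by_contra h5
      have h6 : 0 < (Dh 𝔅 δ q e P φ z / 2 ^ r) ^ (((qk k0 : ℕ) : ℝ)⁻¹) :=
        lt_of_le_of_ne h4 (Ne.symm h5)
      have := mul_pos hsg h6
      linarith
    have h4 := (Real.rpow_eq_zero hx0 hq0.ne').1 h3
    rcases div_eq_zero_iff.1 h4 with h5 | h5
    · exact h5
    · exact absurd h5 h2r.ne'
  have hev := hb.ev_notMem hφ hne
  by_contra hno
  push Not at hno
  have hall : ∀ j, ∀ᶠ w in 𝓝[≠] (0 : ℂ), ¬ P w = e j (φ w) := by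
    intro j
    refine (holP_dich_on isOpen_univ isPreconnected_univ hP
      (holP_comp (hE.mem j).1 hφ)).resolve_left ?_ 0 (mem_univ _)
    intro h1
    obtain ⟨z, hz⟩ := hno j
    exact hz (h1 z (mem_univ _))
  have h1 : ∀ᶠ w in 𝓝[≠] (0 : ℂ), ∀ j, ¬ P w = e j (φ w) := eventually_all.2 hall
  obtain ⟨w, hw1, hw2⟩ := (h1.and (hev 0)).exists
  have h2 := hzero w
  unfold Dh at h2
  rcases mul_eq_zero.1 h2 with h3 | h3
  · obtain ⟨j, -, hj⟩ := Finset.prod_eq_zero_iff.1 h3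
    exact hw1 j (sub_eq_zero.1 (norm_eq_zero.1 hj))
  · exact (pow_pos (hb.kk_pos hw2) _).ne' h3

/-- **Entire curves** in compact sets of projection matrices with bad fibres -/
theorem ggl_matB (hT : TD T Λ a) (hG : RIG T Λ a) (hb : Bd Λ 𝔅 δ) (hf : FibL T Λ a 𝔅)
    {h : ℂ → Mat N} (hh : HolP univ h) (hhT : ∀ z, h z ∈ T) :
    (∀ z, h z = h 0) ∨ (∃ c ∈ 𝔅, Over Λ a h fun _ => c) ∨
      ∃ g ∈ S0 T Λ a, ∃ φ : ℂ → ℂ, Differentiable ℂ φ ∧ (∃ z w, φ z ≠ φ w) ∧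
        ∀ z, h z = g (φ z) := by
  obtain ⟨r, e, q, K, hE, hK, hLM⟩ := exists_core hT hG hb hf
  obtain ⟨φ, hφ, ho⟩ := hT.exists_lift hh hhT
  by_cases hnc : ∃ z w, φ z ≠ φ w
  · right
    right
    obtain ⟨j, hj⟩ := entire_factor hT hG hb hf hE hK hLM hh hhT hφ ho hnc
    exact ⟨e j, hE.mem j, φ, hφ, hnc, hj⟩
  · push Not at hnc
    have h1 : φ = fun _ => φ 0 := funext fun z => hnc z 0
    rw [h1] at ho
    by_cases hB : φ 0 ∈ 𝔅
    · right
      left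
      exact ⟨φ 0, hB, ho⟩
    · left
      have hcc : ∀ {E : Type} [NormedAddCommGroup E] (f : ℂ → E), Continuous f →
          CConv (hyperfilter ℕ : Filter ℕ) univ (fun _ => f) f := fun f hf z _ =>
        (hf.tendsto z).comp tendsto_snd
      exact hf (fun _ => h) (fun _ _ => φ 0) h (φ 0)
        (fun L => Eventually.of_forall fun _ => ⟨hh.mono (subset_univ _), fun w _ => hhT w,
          by fun_prop, fun w _ => ho w⟩)
        (fun L => Eventually.of_forall fun _ _ _ => hB) (hcc _ continuous_const) hh hhT ho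
        (hcc _ (hp_cont hh))

end Pool.Agent.H918.SS
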