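import Pool.Graph.R_pool_sql_team_seeded_63374d34.N154.DD.Grad
import Pool.Graph.R_pool_sql_team_seeded_63374d34.N155.Catch

/-! Curves in the bad fibres, and the gradient estimate on discs which do not meet the bad fibres.
(The second part is after the file `N154/DD/Grad.lean` of an earlier team.) -/

set_option autoImplicit false

open Filter Topology Metric Set

namespace Pool.Agent.H918.SS

open Pool.Agent.Y190.OP Pool.Agent.N155 Pool.Agent.N154.GG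
open Pool.Agent.N155 (CConv.unif CConv.seq)

variable {N : ℕ} {T : Set (Mat N)} {Λ : AddSubgroup ℂ} {a : Mat N → ℂ} {𝔅 : Set ℂ} {δ : ℝ}

/-- the set of the bad values -/
structure Bd (Λ : AddSubgroup ℂ) (𝔅 : Set ℂ) (δ : ℝ) : Prop where
  pos : 0 < δ
  inv : ∀ b ∈ 𝔅, ∀ l ∈ Λ, b + l ∈ 𝔅
  sep : ∀ b ∈ 𝔅, ∀ b' ∈ 𝔅, ‖b - b'‖ < 4 * δ → b = b'

/-- holomorphic along discs -/
def HLw (O : Set (Mat N)) (w : Mat N → ℂ) : Prop :=
  ∀ (U : Set ℂ) (P : ℂ → Mat N) (z : ℂ), IsOpen U → z ∈ U → HolP U P → P z ∈ O →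
    DifferentiableAt ℂ (fun t => w (P t)) z

/-- the curve crosses a hypersurface which is contained in the bad fibres -/
def Crs (T : Set (Mat N)) (a : Mat N → ℂ) (𝔅 : Set ℂ) (P : ℂ → Mat N) : Prop :=
  ∃ (z0 : ℂ) (O : Set (Mat N)) (w : Mat N → ℂ), IsOpen O ∧ P z0 ∈ O ∧ ContinuousOn w O ∧
    HLw O w ∧ (∀ M ∈ O ∩ T, w M = 0 → a M ∈ 𝔅) ∧ w (P z0) = 0 ∧ ¬ ∀ᶠ z in 𝓝 z0, w (P z) = 0

/-- the curves in the fibres are constant, or cross a hypersurface in the bad fibres -/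
def FibB (T : Set (Mat N)) (Λ : AddSubgroup ℂ) (a : Mat N → ℂ) (𝔅 : Set ℂ) : Prop :=
  ∀ (P : ℂ → Mat N) (c : ℂ), HolP univ P → (∀ z, P z ∈ T) → Over Λ a P (fun _ => c) →
    (c ∈ 𝔅 → ¬ Crs T a 𝔅 P) → ∀ z, P z = P 0

/-- limits of discs which do not meet the bad fibres do not cross -/
theorem not_crs_of_lim (_h : TD T Λ a) (hb : Bd Λ 𝔅 δ) {𝓤 : Ultrafilter ℕ} {H : ℕ → ℂ → Mat N}
    {Φ : ℕ → ℂ → ℂ} {G : ℂ → Mat N}
    (hD : ∀ L : ℝ, ∀ᶠ n in (𝓤 : Filter ℕ), Dsc T Λ a 0 L (H n) (Φ n))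
    (hav : ∀ L : ℝ, ∀ᶠ n in (𝓤 : Filter ℕ), ∀ t ∈ ball (0 : ℂ) L, Φ n t ∉ 𝔅)
    (hG : HolP univ G) (hc : CConv (𝓤 : Filter ℕ) univ H G) : ¬ Crs T a 𝔅 G := by
  rintro ⟨z0, O, w, hO, hzO, hwc, hwh, hw0, hwz, hne⟩
  have hGc : Continuous G := hp_cont hG
  have hev := (hc z0 (mem_univ _)).eventually (hO.mem_nhds hzO)
  rw [eventually_prod_iff] at hev
  obtain ⟨pa, hpa, pb, hpb, hab⟩ := hev
  obtain ⟨r, hr, hrs⟩ := Metric.mem_nhds_iff.1 (inter_mem (inter_mem hpb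
    (hGc.continuousAt.preimage_mem_nhds (hO.mem_nhds hzO))) (ball_mem_nhds z0 one_pos))
  have hW : IsOpen (ball z0 r) := isOpen_ball
  have hwG : ∀ t ∈ ball z0 r, DifferentiableAt ℂ (fun t => w (G t)) t := fun t ht =>
    hwh univ G t isOpen_univ (mem_univ t) hG (hrs ht).1.2
  have hcc : CConv (𝓤 : Filter ℕ) (ball z0 r) (fun n t => w (H n t)) (fun t => w (G t)) := by
    intro t ht
    exact ((hwc.continuousAt (hO.mem_nhds (hrs ht).1.2)).tendsto).comp (hc t (mem_univ t))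
  have hin : ball z0 r ⊆ ball 0 (‖z0‖ + 1) := by
    intro t ht
    have h1 := (hrs ht).2
    rw [mem_ball, dist_eq_norm] at h1
    rw [mem_ball_zero_iff]
    have := norm_add_le (t - z0) z0
    rw [sub_add_cancel] at this
    linarith
  have hdd : ∀ᶠ n in (𝓤 : Filter ℕ), DifferentiableOn ℂ (fun t => w (H n t)) (ball z0 r) := by
    filter_upwards [hpa, hD (‖z0‖ + 1)] with n hn hDn t ht
    exact (hwh _ (H n) t isOpen_ball (hin ht) hDn.hol (hab hn (hrs ht).1.1)).differentiableWithinAt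
  have han : AnalyticAt ℂ (fun t => w (G t)) z0 := by
    rw [Complex.analyticAt_iff_eventually_differentiableAt]
    filter_upwards [hW.mem_nhds (mem_ball_self hr)] with t ht
    exact hwG t ht
  have hne' := han.eventually_eq_zero_or_eventually_ne_zero.resolve_left hne
  have h1 := hurwitz hW hcc hdd (mem_ball_self hr) hwz hne' hr
  obtain ⟨n, ⟨t, ht, hwt⟩, hn, hDn, havn⟩ := (h1.and (hpa.and ((hD (‖z0‖ + 1)).and
    (hav (‖z0‖ + 1))))).exists
  have e1 := hw0 (H n t) ⟨hab hn (hrs ht).1.1, hDn.mem t (hin ht)⟩ hwt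
  have e2 := hb.inv _ e1 _ (hDn.ov t (hin ht))
  rw [add_sub_cancel] at e2
  exact havn t (hin ht) e2

/-- the curves in the fibres which are limits of discs which do not meet the bad fibres are constant -/
def FibL (T : Set (Mat N)) (Λ : AddSubgroup ℂ) (a : Mat N → ℂ) (𝔅 : Set ℂ) : Prop :=
  ∀ (H : ℕ → ℂ → Mat N) (Φ : ℕ → ℂ → ℂ) (G : ℂ → Mat N) (c : ℂ),
    (∀ L : ℝ, ∀ᶠ n in (hyperfilter ℕ : Filter ℕ), Dsc T Λ a 0 L (H n) (Φ n)) →
    (∀ L : ℝ, ∀ᶠ n in (hyperfilter ℕ : Filter ℕ), ∀ t ∈ ball (0 : ℂ) L, Φ n t ∉ 𝔅) →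
    CConv (hyperfilter ℕ : Filter ℕ) univ Φ (fun _ => c) →
    HolP univ G → (∀ z, G z ∈ T) → Over Λ a G (fun _ => c) →
    CConv (hyperfilter ℕ : Filter ℕ) univ H G → ∀ z, G z = G 0

theorem FibB.lim (h : TD T Λ a) (hb : Bd Λ 𝔅 δ) (hf : FibB T Λ a 𝔅) : FibL T Λ a 𝔅 :=
  fun _ _ _ c hD hav _ hG hGT ho hc => hf _ c hG hGT ho fun _ => not_crs_of_lim h hb hD hav hG hc

/-- **Gradient estimate** -/
theorem gradient0 (h : TD T Λ a) (hb : Bd Λ 𝔅 δ) (hf : FibL T Λ a 𝔅) :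
    ∃ C : ℝ, 0 < C ∧ ∀ (P : ℂ → Mat N)
    (φ : ℂ → ℂ) (z : ℂ) (R : ℝ), 0 < R → Dsc T Λ a z R P φ → (∀ w ∈ ball z R, φ w ∉ 𝔅) →
    ‖fderiv ℝ P z‖ ≤ C * max (sg φ z) (1 / R) := by
  classical
  by_contra hcon
  push Not at hcon
  have hcon' : ∀ n : ℕ, ∃ (P : ℂ → Mat N) (φ : ℂ → ℂ) (z : ℂ) (R : ℝ), 0 < R ∧
      Dsc T Λ a z R P φ ∧ (∀ w ∈ ball z R, φ w ∉ 𝔅) ∧
      ((n : ℝ) + 1) * max (sg φ z) (1 / R) < ‖fderiv ℝ P z‖ := by
    intro n
    obtain ⟨P, φ, z, R, h1, h2, h3, h4⟩ := hcon ((n : ℝ) + 1) (by positivity)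
    exact ⟨P, φ, z, R, h1, h2, h3, h4⟩
  choose P φ z0 R hR hD hB hz0 using hcon'
  set σ : ℕ → ℝ := fun n => max (sg (φ n) (z0 n)) (1 / R n) with hσ
  have hσpos : ∀ n, 0 < σ n := fun n => lt_of_lt_of_le (by have := hR n; positivity)
    (le_max_right _ _)
  have hσR : ∀ n, 1 ≤ R n * σ n := by
    intro n
    have h1 : 1 / R n ≤ σ n := le_max_right _ _
    have h2 := mul_le_mul_of_nonneg_left h1 (hR n).le
    rwa [mul_one_div, div_self (hR n).ne'] at h2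
  set m : ℕ → ℝ := fun n => ‖fderiv ℝ (P n) (z0 n)‖ with hm
  have hmσ : ∀ n : ℕ, ((n : ℝ) + 1) * σ n < m n := hz0
  have hpos : ∀ n, 0 < m n := fun n => (mul_pos (by positivity) (hσpos n)).trans (hmσ n)
  have hmR : ∀ n : ℕ, ((n : ℝ) + 1) < m n * R n := by
    intro n
    have h1 := mul_lt_mul_of_pos_right (hmσ n) (hR n)
    have h2 : ((n : ℝ) + 1) * 1 ≤ ((n : ℝ) + 1) * (R n * σ n) :=
      mul_le_mul_of_nonneg_left (hσR n) (by positivity)
    linarith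
  set f : ℕ → ℂ → ℝ := fun n z => if z ∈ closedBall (z0 n) (R n / 2) then ‖fderiv ℝ (P n) z‖ else 0
    with hfdef
  have hfin : ∀ n z, z ∈ closedBall (z0 n) (R n / 2) → f n z = ‖fderiv ℝ (P n) z‖ := by
    intro n z hz
    rw [hfdef]
    simp only
    rw [if_pos hz]
  have hf0 : ∀ n, f n (z0 n) = m n := fun n =>
    hfin n _ (mem_closedBall_self (by have := hR n; positivity))
  have hdb : ∀ n : ℕ, ∃ z, m n ≤ f n z ∧
      ‖z - z0 n‖ * m n ≤ ((n : ℝ) + 1) / 12 * 2 ∧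
      ∀ w, ‖w - z‖ * f n z ≤ ((n : ℝ) + 1) / 12 → f n w ≤ 2 * f n z := by
    intro n
    have hcont : ContinuousOn (fun z => ‖fderiv ℝ (P n) z‖) (closedBall (z0 n) (R n / 2)) := by
      intro z hz
      refine ContinuousAt.continuousWithinAt ?_
      exact ((hD n).hol.continuousAt_fderiv (closedBall_subset_ball (by linarith [hR n]) hz)).norm
    obtain ⟨M, hM⟩ := (isCompact_closedBall (z0 n) (R n / 2)).bddAbove_image hcont
    obtain ⟨z, e1, e2, e3⟩ := doubling (f := f n) (s := f n) (fun _ => le_rfl) (by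
        intro z
        refine ⟨univ, univ_mem, max M 0, ?_⟩
        rintro _ ⟨w, -, rfl⟩
        by_cases hw : w ∈ closedBall (z0 n) (R n / 2)
        · rw [hfin n w hw]
          exact (hM ⟨w, hw, rfl⟩).trans (le_max_left _ _)
        · rw [hfdef]
          simp only
          rw [if_neg hw]
          exact le_max_right _ _)
      (κ := 2) (A := ((n : ℝ) + 1) / 12) (z0 := z0 n) (by norm_num) (by positivity)
      (by rw [hf0]; exact hpos n)
    rw [hf0] at e1 e2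
    refine ⟨z, e1, ?_, e3⟩
    norm_num at e2 ⊢
    exact e2
  choose z1 h1 h2 h3 using hdb
  set μ : ℕ → ℝ := fun n => f n (z1 n) with hμ
  have hμpos : ∀ n, 0 < μ n := fun n => (hpos n).trans_le (h1 n)
  have hz1in : ∀ n, z1 n ∈ closedBall (z0 n) (R n / 2) := by
    intro n
    by_contra hcon
    have h4 := hμpos n
    rw [hμ] at h4
    simp only at h4
    rw [hfdef] at h4
    simp only at h4
    rw [if_neg hcon] at h4
    exact lt_irrefl _ h4
  have hμeq : ∀ n, μ n = ‖fderiv ℝ (P n) (z1 n)‖ := fun n => hfin n _ (hz1in n)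
  choose l hlΛ hl using fun n => h.coc.choose_spec (φ n (z1 n))
  set H : ℕ → ℂ → Mat N := fun n t => P n (z1 n + (((μ n)⁻¹ : ℝ) : ℂ) * t) with hH
  set Φ : ℕ → ℂ → ℂ := fun n t => φ n (z1 n + (((μ n)⁻¹ : ℝ) : ℂ) * t) - l n with hΦ
  have hz10 : ∀ n : ℕ, ‖z1 n - z0 n‖ * m n ≤ ((n : ℝ) + 1) / 6 := by
    intro n
    have := h2 n
    linarith
  have hbig : ∀ n : ℕ, ∀ w, ‖w - z1 n‖ * μ n ≤ ((n : ℝ) + 1) / 12 →
      ‖w - z0 n‖ * m n ≤ ((n : ℝ) + 1) / 4 := by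
    intro n w hw
    have e2 : ‖w - z0 n‖ ≤ ‖w - z1 n‖ + ‖z1 n - z0 n‖ := by
      have := norm_add_le (w - z1 n) (z1 n - z0 n)
      rwa [sub_add_sub_cancel] at this
    have e3 : ‖w - z1 n‖ * m n ≤ ((n : ℝ) + 1) / 12 :=
      (mul_le_mul_of_nonneg_left (h1 n) (norm_nonneg _)).trans hw
    have e4 := mul_le_mul_of_nonneg_right e2 (hpos n).le
    have e5 := hz10 n
    rw [add_mul] at e4
    linarith
  have hin : ∀ n : ℕ, ∀ w, ‖w - z1 n‖ * μ n ≤ ((n : ℝ) + 1) / 12 → ‖w - z0 n‖ ≤ R n / 4 := by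
    intro n w hw
    have e1 := hbig n w hw
    have e2 := hmR n
    by_contra hcon
    push Not at hcon
    have e3 : R n / 4 * m n < ‖w - z0 n‖ * m n := mul_lt_mul_of_pos_right hcon (hpos n)
    linarith
  have hDH : ∀ n : ℕ, Dsc T Λ a 0 (((n : ℝ) + 1) / 12) (H n) (Φ n) := by
    intro n
    have hc := inv_pos.2 (hμpos n)
    refine (hD n).affine (z1 n) hc ?_ (hlΛ n)
    have e1 := hin n (z1 n + (((μ n)⁻¹ * (((n : ℝ) + 1) / 12) : ℝ) : ℂ)) (by
      rw [add_sub_cancel_left, Complex.norm_real, Real.norm_of_nonneg (by positivity)]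
      have := (hμpos n).ne'
      field_simp
      exact le_rfl)
    have e2 := hin n (z1 n) (by
      rw [sub_self, norm_zero, zero_mul]
      positivity)
    have e3 : (μ n)⁻¹ * (((n : ℝ) + 1) / 12) ≤ R n / 2 := by
      have e4 : ‖(((μ n)⁻¹ * (((n : ℝ) + 1) / 12) : ℝ) : ℂ)‖ = (μ n)⁻¹ * (((n : ℝ) + 1) / 12) := by
        rw [Complex.norm_real, Real.norm_of_nonneg (by positivity)]
      have e5 := norm_sub_le (z1 n + (((μ n)⁻¹ * (((n : ℝ) + 1) / 12) : ℝ) : ℂ) - z0 n)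
        (z1 n - z0 n)
      have e6 : z1 n + (((μ n)⁻¹ * (((n : ℝ) + 1) / 12) : ℝ) : ℂ) - z0 n - (z1 n - z0 n) =
          (((μ n)⁻¹ * (((n : ℝ) + 1) / 12) : ℝ) : ℂ) := by ring
      rw [e6, e4] at e5
      linarith
    linarith [hR n]
  have haff : ∀ n t, aff (z1 n) (μ n)⁻¹ t = z1 n + (((μ n)⁻¹ : ℝ) : ℂ) * t := fun n t => aff_eq _ _ _
  have hdist : ∀ n t, ‖z1 n + (((μ n)⁻¹ : ℝ) : ℂ) * t - z1 n‖ * μ n = ‖t‖ := by
    intro n t
    rw [add_sub_cancel_left, norm_mul, Complex.norm_real,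
      Real.norm_of_nonneg (inv_nonneg.2 (hμpos n).le)]
    have := (hμpos n).ne'
    field_simp
  have hball : ∀ (n : ℕ) (t : ℂ), ‖t‖ ≤ ((n : ℝ) + 1) / 12 → ‖fderiv ℝ (H n) t‖ ≤ 2 ∧
      ‖deriv (Φ n) t‖ ≤ 4 / ((n : ℝ) + 1) := by
    intro n t ht
    have hn : (0 : ℝ) < (n : ℝ) + 1 := by positivity
    have hd := hdist n t
    set ζ := z1 n + (((μ n)⁻¹ : ℝ) : ℂ) * t with hζ
    have hζ1 : ‖ζ - z1 n‖ * μ n ≤ ((n : ℝ) + 1) / 12 := by rw [hd]; exact ht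
    have hζ0 := hin n ζ hζ1
    have hζR : ζ ∈ ball (z0 n) (R n) := by
      rw [mem_ball, dist_eq_norm]
      linarith [hR n]
    constructor
    · have e0 : ‖fderiv ℝ (H n) t‖ = (μ n)⁻¹ * ‖fderiv ℝ (P n) ζ‖ := by
        have := norm_fderiv_aff (Ψ := P n) (a := z1 n) (ρ := (μ n)⁻¹) (z := t)
          (inv_nonneg.2 (hμpos n).le) (by rw [haff]; exact (hD n).hol.differentiableAt hζR)
        rw [haff] at this
        exact this
      rw [e0]
      have e1 := h3 n ζ hζ1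
      rw [hfin n ζ (by
        rw [mem_closedBall, dist_eq_norm]
        linarith [hR n])] at e1
      calc (μ n)⁻¹ * ‖fderiv ℝ (P n) ζ‖ ≤ (μ n)⁻¹ * (2 * μ n) :=
            mul_le_mul_of_nonneg_left e1 (inv_nonneg.2 (hμpos n).le)
        _ = 2 := by
            have := (hμpos n).ne'
            field_simp
    · have e0 : deriv (Φ n) t = (((μ n)⁻¹ : ℝ) : ℂ) * deriv (φ n) ζ := by
        have h4 := congrFun (iteratedDeriv_aff (φ n) (z1 n) (((μ n)⁻¹ : ℝ) : ℂ) 1) t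
        rw [iteratedDeriv_one, iteratedDeriv_one, pow_one] at h4
        rw [hΦ]
        simp only
        rw [deriv_sub_const]
        exact h4
      rw [e0, norm_mul, Complex.norm_real, Real.norm_of_nonneg (inv_nonneg.2 (hμpos n).le)]
      have e1 := hbig n ζ hζ1
      have e2 : 4 * ‖ζ - z0 n‖ * σ n ≤ 1 := by
        have e3 : ‖ζ - z0 n‖ * (((n : ℝ) + 1) * σ n) ≤ ((n : ℝ) + 1) / 4 :=
          (mul_le_mul_of_nonneg_left (hmσ n).le (norm_nonneg _)).trans e1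
        have e4 : ((n : ℝ) + 1) * (4 * ‖ζ - z0 n‖ * σ n) ≤ ((n : ℝ) + 1) * 1 := by
          linarith
        exact le_of_mul_le_mul_left e4 hn
      have e3 : ‖deriv (φ n) ζ‖ ≤ 4 * σ n := by
        refine (deriv_le_sg_l (R := R n / 2) ((hD n).dif.mono ?_) (by linarith [hR n])).trans
          (sg_harnack_l (hD n).dif (hσpos n) (le_max_left _ _) (hσR n) e2)
        apply ball_subset_ball'
        rw [dist_eq_norm]
        linarith [hR n]
      have e4 : ((n : ℝ) + 1) * σ n ≤ μ n := (hmσ n).le.trans (h1 n)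
      calc (μ n)⁻¹ * ‖deriv (φ n) ζ‖ ≤ (μ n)⁻¹ * (4 * σ n) :=
            mul_le_mul_of_nonneg_left e3 (inv_nonneg.2 (hμpos n).le)
        _ ≤ 4 / ((n : ℝ) + 1) := by
            rw [inv_mul_le_iff₀ (hμpos n), mul_div_assoc', le_div_iff₀ hn]
            nlinarith
  set 𝓤 : Ultrafilter ℕ := hyperfilter ℕ with h𝓤
  have hge : ∀ L : ℝ, ∀ᶠ n : ℕ in (𝓤 : Filter ℕ), L ≤ ((n : ℝ) + 1) / 12 := by
    intro L
    filter_upwards [hyper_ge (12 * L)] with n hn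
    linarith
  have hDL : ∀ L : ℝ, ∀ᶠ n : ℕ in (𝓤 : Filter ℕ), Dsc T Λ a 0 L (H n) (Φ n) := by
    intro L
    filter_upwards [hge L] with n hn
    exact (hDH n).mono (ball_subset_ball hn)
  obtain ⟨G, hG, hGT, hGc, hGd⟩ := exists_limit_loc_l h.comp h.sub (𝓤 := 𝓤) (h := H)
    (fun L => (hDL L).mono fun _ h => h.hol) (fun L => (hDL L).mono fun _ h => h.mem) (by
      intro L
      refine ⟨2, ?_⟩
      filter_upwards [hge L] with n hn z hz
      exact (hball n z ((mem_ball_zero_iff.1 hz).le.trans hn)).1)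
  obtain ⟨Ψ, hΨ, hΨc, hΨd⟩ := exists_limit_fun_l (𝓤 := 𝓤) (φ := Φ)
    (fun L => (hDL L).mono fun _ h => h.dif) (by
      refine ⟨h.coc.choose, Eventually.of_forall fun n => ?_⟩
      have : Φ n 0 = φ n (z1 n) - l n := by
        rw [hΦ]
        simp
      rw [this]
      exact hl n) (by
      intro L
      refine ⟨4, ?_⟩
      filter_upwards [hge L] with n hn z hz
      refine (hball n z ((mem_ball_zero_iff.1 hz).le.trans hn)).2.trans ?_
      rw [div_le_iff₀ (by positivity)]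
      have : (0 : ℝ) ≤ n := Nat.cast_nonneg n
      linarith)
  have hΨ0 : ∀ z, deriv Ψ z = 0 := by
    intro z
    have e1 : Tendsto (fun n : ℕ => ‖deriv (Φ n) z‖) 𝓤 (𝓝 0) := by
      have e2 : Tendsto (fun n : ℕ => 4 / ((n : ℝ) + 1)) 𝓤 (𝓝 0) := by
        have e3 : Tendsto (fun n : ℕ => 4 / ((n : ℝ) + 1)) atTop (𝓝 0) := by
          have := (tendsto_one_div_add_atTop_nhds_zero_nat (𝕜 := ℝ)).const_mul 4
          rw [mul_zero] at this
          refine this.congr fun n => ?_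
          rw [mul_one_div]
        refine e3.mono_left ?_
        rw [← Nat.cofinite_eq_atTop]
        exact hyperfilter_le_cofinite
      refine squeeze_zero' (Eventually.of_forall fun _ => norm_nonneg _) ?_ e2
      filter_upwards [hge ‖z‖] with n hn
      exact (hball n z hn).2
    exact norm_eq_zero.1 (tendsto_nhds_unique (hΨd z).norm e1)
  have hΨc' : ∀ z, Ψ z = Ψ 0 := fun z => is_const_of_deriv_eq_zero hΨ hΨ0 z 0
  have hover : Over Λ a G (fun _ => Ψ 0) := by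
    intro z
    rw [← hΨc' z]
    have hz : ∀ᶠ n in (𝓤 : Filter ℕ), H n z ∈ T ∧ Φ n z - a (H n z) ∈ Λ := by
      filter_upwards [hDL (‖z‖ + 1)] with n hn
      have hzb : z ∈ ball (0 : ℂ) (‖z‖ + 1) := mem_ball_zero_iff.2 (by linarith)
      exact ⟨hn.mem z hzb, hn.ov z hzb⟩
    exact h.lim (l := (𝓤 : Filter ℕ)) (hz.mono fun _ h => h.1)
      (hGc.pointwise (mem_univ z)) (hGT z) (hz.mono fun _ h => h.2)
      (hΨc.pointwise (mem_univ z))
  have hav : ∀ L : ℝ, ∀ᶠ n : ℕ in (𝓤 : Filter ℕ), ∀ t ∈ ball (0 : ℂ) L, Φ n t ∉ 𝔅 := by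
    intro L
    filter_upwards [hge L] with n hn t ht hbad
    have hd := hdist n t
    have hζ1 : ‖z1 n + (((μ n)⁻¹ : ℝ) : ℂ) * t - z1 n‖ * μ n ≤ ((n : ℝ) + 1) / 12 := by
      rw [hd]
      exact (mem_ball_zero_iff.1 ht).le.trans hn
    have hζ0 := hin n _ hζ1
    refine hB n (z1 n + (((μ n)⁻¹ : ℝ) : ℂ) * t) ?_ ?_
    · rw [mem_ball, dist_eq_norm]
      linarith [hR n]
    · have := hb.inv _ hbad _ (hlΛ n)
      rwa [hΦ, sub_add_cancel] at this
  have hconst := hf H Φ G (Ψ 0) hDL hav (by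
    have : (fun _ : ℂ => Ψ 0) = Ψ := funext fun z => (hΨc' z).symm
    rw [this]
    exact hΨc) hG hGT hover hGc
  have e1 : fderiv ℝ G 0 = 0 := by
    have : G = fun _ => G 0 := funext hconst
    rw [this]
    simp
  have e2 := (hGd 0).norm
  rw [e1, norm_zero] at e2
  have e3 : ∀ n, ‖fderiv ℝ (H n) 0‖ = 1 := by
    intro n
    have hz1R : z1 n ∈ ball (z0 n) (R n) := closedBall_subset_ball (by linarith [hR n]) (hz1in n)
    have h0 : z1 n + (((μ n)⁻¹ : ℝ) : ℂ) * 0 = z1 n := by simp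
    have := norm_fderiv_aff (Ψ := P n) (a := z1 n) (ρ := (μ n)⁻¹) (z := 0)
      (inv_nonneg.2 (hμpos n).le) (by rw [haff, h0]; exact (hD n).hol.differentiableAt hz1R)
    rw [haff, h0, ← hμeq] at this
    refine this.trans ?_
    exact inv_mul_cancel₀ (hμpos n).ne'
  simp only [e3] at e2
  exact zero_ne_one (tendsto_nhds_unique e2 tendsto_const_nhds)

end Pool.Agent.H918.SS
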