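import Pool.Graph.R_pool_sql_team_seeded_63374d34.N154.GG.Geo2
import Pool.Graph.R_pool_sql_team_seeded_3997aac3.Q103.SF.Disc
import Pool.Graph.R_seed8.Y719.LC.GO
import Pool.Graph.R_seed8.Y719.LC.Par2

/-!
# GEN1: curves of genus at most one are parametrised by entire curves
-/

set_option autoImplicit false

open Filter Topology FF LinearAlgebra.Projectivization Pool.Agent.W602.GT Pool.Agent.N154.GG

namespace Pool.Agent.H918.SS

/-- curves which are not of general type are parametrised by entire curves -/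
def S_GEN1 : Prop :=
  ∀ (n : ℕ) (ι : Type) (F : ι → MvPolynomial (Fin (n + 1)) ℂ), (∀ i, IsForm (F i)) →
    ∀ (K : Type) [Field K] [Algebra ℂ K] (y : Fin (n + 1) → K), SubVar F K 1 y →
      ¬ GeneralType ℂ K 1 → ∃ f : ℂ → ℙ ℂ (Fin (n + 1) → ℂ), HolIn F f ∧ (∃ z w, f z ≠ f w) ∧
        ∀ G : MvPolynomial (Fin (n + 1)) ℂ, IsForm G → (∀ z, val (f z).rep G = 0) → val y G = 0

section

open Pool.Agent.TH143.EL (NC codis_rep codis_ev mero_poly nc_poly Rep InV inV_iff inV_of_punct
  eval_comp_poly)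

variable {n : ℕ} {ι : Type} {F : ι → MvPolynomial (Fin (n + 1)) ℂ} {K : Type} [Field K]
  [Algebra ℂ K] {y : Fin (n + 1) → K}

theorem val_eval' (v : Fin (n + 1) → ℂ) (G : MvPolynomial (Fin (n + 1)) ℂ) :
    val v G = MvPolynomial.eval v G := by
  unfold val
  rw [MvPolynomial.aeval_eq_eval]

theorem holMap_conv {f : ℂ → ℙ ℂ (Fin (n + 1) → ℂ)} (hf : Pool.Agent.TH143.EL.HolMap f) :
    HolMap f := by
  intro z
  obtain ⟨g, hg, hgr⟩ := hf z
  have h1 : ∀ᶠ w in 𝓝 z, (∀ j, AnalyticAt ℂ (g j) w) ∧ Rep (f w) (fun j => g j w) :=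
    (eventually_all.2 fun j => (hg j).eventually_analyticAt).and hgr
  obtain ⟨V, hVs, hV, hz⟩ := _root_.mem_nhds_iff.1 h1
  refine ⟨V, fun w j => g j w, hV, hz, ?_, fun w hw => (hVs hw).2⟩
  exact differentiableOn_pi.2 fun j w hw =>
    ((hVs hw).1 j).differentiableAt.differentiableWithinAt

theorem inV_span {G : MvPolynomial (Fin (n + 1)) ℂ} (hG : IsForm G)
    (p : ℙ ℂ (Fin (n + 1) → ℂ)) :
    InV (Ideal.span {G}) p ↔ MvPolynomial.eval p.rep G = 0 := by
  constructor
  · intro h
    exact h G (Ideal.subset_span rfl) hG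
  · intro h H hH _
    obtain ⟨a, rfl⟩ := Ideal.mem_span_singleton'.1 hH
    rw [map_mul, h, mul_zero]

theorem rep_eval {G : MvPolynomial (Fin (n + 1)) ℂ} (hG : IsForm G)
    {p : ℙ ℂ (Fin (n + 1) → ℂ)} {v : Fin (n + 1) → ℂ} (h : Rep p v) :
    MvPolynomial.eval p.rep G = 0 ↔ MvPolynomial.eval v G = 0 := by
  rw [← inV_span hG, inV_iff h]
  constructor
  · intro h1
    exact h1 G (Ideal.subset_span rfl) hG
  · intro h1 H hH _
    obtain ⟨a, rfl⟩ := Ideal.mem_span_singleton'.1 hH
    rw [map_mul, h1, mul_zero]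

/-- a point with constant ratios of coordinates -/
theorem not_const (hy : SubVar F K 1 y) (v : Fin (n + 1) → ℂ) (k : Fin (n + 1)) (hk : v k ≠ 0)
    (h : ∀ j, algebraMap ℂ K (v k) * y j = algebraMap ℂ K (v j) * y k) : False := by
  have hk' : algebraMap ℂ K (v k) ≠ 0 := by
    rw [Ne, map_eq_zero]
    exact hk
  have h1 : coords ℂ y ≤ ⊥ := by
    unfold coords
    rw [IntermediateField.adjoin_le_iff]
    rintro _ ⟨i, j, hj, rfl⟩
    have h2 : ∀ j, y j = algebraMap ℂ K (v j) / algebraMap ℂ K (v k) * y k := by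
      intro j
      rw [div_mul_eq_mul_div, eq_div_iff hk', mul_comm (y j)]
      exact h j
    have hyk : y k ≠ 0 := by
      intro h0
      apply hj
      rw [h2 j, h0, mul_zero]
    have hvj : algebraMap ℂ K (v j) ≠ 0 := by
      intro h0
      apply hj
      rw [h2 j, h0, zero_div, zero_mul]
    refine IntermediateField.mem_bot.2 ⟨v i / v j, ?_⟩
    rw [map_div₀, h2 i, h2 j]
    field_simp
  rw [hy.gen] at h1
  have h3 : Algebra.IsAlgebraic ℂ K := by
    refine ⟨fun x => ?_⟩
    obtain ⟨c, rfl⟩ := IntermediateField.mem_bot.1 (h1 (IntermediateField.mem_top (x := x)))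
    exact isAlgebraic_algebraMap c
  have h4 := hy.dim
  rw [_root_.trdeg_eq_zero_iff.2 h3] at h4
  simp at h4

/-- the general construction -/
theorem gen_build (hF : ∀ i, IsForm (F i)) (hy : SubVar F K 1 y)
    {h : Fin (n + 1) → ℂ → ℂ} (hh : ∀ j, Meromorphic (h j))
    (hv : ∀ G : MvPolynomial (Fin (n + 1)) ℂ, IsForm G →
      (val y G = 0 ↔ ∀ᶠ z in codiscrete ℂ, MvPolynomial.eval (fun j => h j z) G = 0)) :
    ∃ f : ℂ → ℙ ℂ (Fin (n + 1) → ℂ), HolIn F f ∧ (∃ z w, f z ≠ f w) ∧
      ∀ G : MvPolynomial (Fin (n + 1)) ℂ, IsForm G → (∀ z, val (f z).rep G = 0) → val y G = 0 := by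
  have hne : ∃ j, ¬ ∀ᶠ z in codiscrete ℂ, h j z = 0 := by
    obtain ⟨j, hj⟩ := Function.ne_iff.1 hy.ne
    refine ⟨j, fun h0 => hj ?_⟩
    have h1 := (hv (MvPolynomial.X j) ⟨1, MvPolynomial.isHomogeneous_X ℂ j⟩).2 (by
      filter_upwards [h0] with z hz
      rw [MvPolynomial.eval_X]
      exact hz)
    unfold val at h1
    rwa [MvPolynomial.aeval_X] at h1
  obtain ⟨f, hf, hfr⟩ := codis_rep hh hne
  have hpt : ∀ G : MvPolynomial (Fin (n + 1)) ℂ, IsForm G → val y G = 0 →
      ∀ z, MvPolynomial.eval (f z).rep G = 0 := by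
    intro G hG hyG z
    rw [← inV_span hG]
    apply inV_of_punct hf
    filter_upwards [codis_ev ((hv G hG).1 hyG) z, codis_ev hfr z] with w h1 h2
    rw [inV_span hG]
    exact (rep_eval hG h2).2 h1
  have hback : ∀ G : MvPolynomial (Fin (n + 1)) ℂ, IsForm G → (∀ z, val (f z).rep G = 0) →
      val y G = 0 := by
    intro G hG hz
    apply (hv G hG).2
    filter_upwards [hfr] with z h1
    have h2 := hz z
    rw [val_eval'] at h2
    exact (rep_eval hG h1).1 h2
  refine ⟨f, ⟨holMap_conv hf, fun z => ⟨(f z).rep_nonzero, fun i => ?_⟩⟩, ?_, hback⟩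
  · rw [val_eval']
    exact hpt (F i) (hF i) (hy.mem i) z
  · by_contra hcon
    push Not at hcon
    obtain ⟨k, hk⟩ := Function.ne_iff.1 (f 0).rep_nonzero
    refine not_const hy (f 0).rep k hk fun j => ?_
    have hG : IsForm (MvPolynomial.C ((f 0).rep k) * MvPolynomial.X j -
        MvPolynomial.C ((f 0).rep j) * MvPolynomial.X k : MvPolynomial (Fin (n + 1)) ℂ) := by
      refine ⟨1, ?_⟩
      have h1 : ∀ (c : ℂ) (j : Fin (n + 1)),
          (MvPolynomial.C c * MvPolynomial.X j : MvPolynomial (Fin (n + 1)) ℂ).IsHomogeneous 1 := by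
        intro c j
        have := (MvPolynomial.isHomogeneous_C (Fin (n + 1)) c).mul
          (MvPolynomial.isHomogeneous_X ℂ j)
        rwa [zero_add] at this
      exact (h1 _ _).sub (h1 _ _)
    have h2 := hback _ hG fun z => by
      rw [hcon z 0, val_eval']
      simp only [map_sub, map_mul, MvPolynomial.eval_C, MvPolynomial.eval_X]
      ring
    unfold val at h2
    simp only [map_sub, map_mul, MvPolynomial.aeval_C, MvPolynomial.aeval_X] at h2
    exact sub_eq_zero.1 h2

theorem nc_id : NC fun z : ℂ => z := by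
  rintro ⟨c, hc⟩
  obtain ⟨z, h1, h2⟩ := ((codis_ev hc c).and self_mem_nhdsWithin).exists
  exact h2 h1

theorem aeval_smul_homog' {A : Type} [CommRing A] [Algebra ℂ A] (c : A) (v : Fin (n + 1) → A)
    {G : MvPolynomial (Fin (n + 1)) ℂ} {d : ℕ} (hG : G.IsHomogeneous d) :
    MvPolynomial.aeval (fun i => c * v i) G = c ^ d * MvPolynomial.aeval v G :=
  Pool.Agent.TH143.HE.eval₂_smul_homog (algebraMap ℂ A) c v hG

/-- genus zero -/
theorem gen_zero (hF : ∀ i, IsForm (F i)) (hy : SubVar F K 1 y) {t : K}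
    (ht : IntermediateField.adjoin ℂ {t} = ⊤) :
    ∃ f : ℂ → ℙ ℂ (Fin (n + 1) → ℂ), HolIn F f ∧ (∃ z w, f z ≠ f w) ∧
      ∀ G : MvPolynomial (Fin (n + 1)) ℂ, IsForm G → (∀ z, val (f z).rep G = 0) → val y G = 0 := by
  have htr : Transcendental ℂ t := by
    intro halg
    have h1 : Algebra.IsAlgebraic ℂ K := by
      have h2 := IntermediateField.isAlgebraic_adjoin_simple halg.isIntegral
      rw [ht] at h2
      exact ⟨fun z => by
        have h3 := h2.isAlgebraic (⟨z, IntermediateField.mem_top⟩ : (⊤ : IntermediateField ℂ K))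
        exact (isAlgebraic_algHom_iff (IntermediateField.val ⊤) Subtype.val_injective).2 h3⟩
    have h2 := hy.dim
    rw [_root_.trdeg_eq_zero_iff.2 h1] at h2
    simp at h2
  obtain ⟨p, D, hD, hp⟩ := Pool.Agent.TH143.GE.exists_den ht y
  refine gen_build hF hy (h := fun j z => (p j).eval z)
    (fun j => mero_poly (q := fun z => z) (fun z => MeromorphicAt.id z) (p j)) ?_
  intro G hG
  obtain ⟨d, hd⟩ := hG
  have h1 : Polynomial.aeval t (MvPolynomial.aeval p G : Polynomial ℂ) = D ^ d * val y G := by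
    rw [MvPolynomial.comp_aeval_apply (f := p) (Polynomial.aeval t)]
    have h2 : (fun i => Polynomial.aeval t (p i)) = fun i => D * y i := funext hp
    rw [h2, aeval_smul_homog' D y hd]
    rfl
  have h3 : val y G = 0 ↔ (MvPolynomial.aeval p G : Polynomial ℂ) = 0 := by
    constructor
    · intro h0
      rw [h0, mul_zero] at h1
      by_contra hne
      exact htr ⟨_, hne, h1⟩
    · intro h0
      rw [h0, map_zero] at h1
      exact (mul_eq_zero.1 h1.symm).resolve_left (pow_ne_zero _ hD)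
  rw [h3]
  constructor
  · intro h0
    refine Eventually.of_forall fun z => ?_
    rw [← eval_comp_poly, h0, Polynomial.eval_zero]
  · intro h0
    apply nc_poly (q := fun z => z) (fun z => MeromorphicAt.id z) nc_id
    filter_upwards [h0] with z hz
    rw [eval_comp_poly]
    exact hz

end

section

open Pool.Agent.TH143.EL (NC codis_rep codis_ev mero_poly nc_poly Rep InV inV_iff inV_of_punct
  eval_comp_poly)
open Pool.Agent.Y719.LC (onC onC_eval onC_degree px py mero_px mero_py nc_px curve_codis)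
open Pool.Agent.TH143.GE (weier normal)

variable {n : ℕ} {ι : Type} {F : ι → MvPolynomial (Fin (n + 1)) ℂ} {K : Type} [Field K]
  [Algebra ℂ K] {y : Fin (n + 1) → K}

/-- genus one -/
theorem gen_one [IsFF ℂ K] (hF : ∀ i, IsForm (F i)) (hy : SubVar F K 1 y)
    (h0 : Pool.Agent.W603.LV.canDeg ℂ K = 0) :
    ∃ f : ℂ → ℙ ℂ (Fin (n + 1) → ℂ), HolIn F f ∧ (∃ z w, f z ≠ f w) ∧
      ∀ G : MvPolynomial (Fin (n + 1)) ℂ, IsForm G → (∀ z, val (f z).rep G = 0) → val y G = 0 := by
  classical
  obtain ⟨X, Y, a, b, hX, hXY, hind, hgen, hns⟩ := weier (k := ℂ) (F := K) h0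
  have hrs : ∀ f : K, ∃ r s : MvPolynomial (Fin 2) ℂ, MvPolynomial.aeval ![X, Y] s ≠ 0 ∧
      f * MvPolynomial.aeval ![X, Y] s = MvPolynomial.aeval ![X, Y] r := by
    intro f
    obtain ⟨r, s, h⟩ := hgen f
    by_cases h0 : MvPolynomial.aeval ![X, Y] s = 0
    · refine ⟨0, 1, ?_, ?_⟩
      · rw [map_one]
        exact one_ne_zero
      · rw [h, h0, div_zero, zero_mul, map_zero]
    · exact ⟨r, s, h0, by rw [h, div_mul_cancel₀ _ h0]⟩
  choose r s hs hr using fun i => hrs (y i)
  set D : K := ∏ i, MvPolynomial.aeval ![X, Y] (s i) with hD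
  have hD0 : D ≠ 0 := Finset.prod_ne_zero_iff.2 fun i _ => hs i
  choose P Q hPQ using fun i => normal a b (r i * ∏ j ∈ Finset.univ.erase i, s j)
  have hw : ∀ i, Polynomial.aeval X (P i) + Polynomial.aeval X (Q i) * Y = D * y i := by
    intro i
    rw [← hPQ i K X Y hXY, map_mul, map_prod, ← hr, hD,
      ← Finset.mul_prod_erase _ _ (Finset.mem_univ i)]
    ring
  have hon : ∀ G : MvPolynomial (Fin (n + 1)) ℂ, IsForm G →
      (val y G = 0 ↔ onC (RingHom.id ℂ) a b P Q G = 0) := by
    rintro G ⟨d, hd⟩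
    have h1 := onC_eval (RingHom.id ℂ) P Q G (algebraMap ℂ K) hXY
    have h2 : (fun j => (P j).eval₂ (algebraMap ℂ K) X + (Q j).eval₂ (algebraMap ℂ K) X * Y) =
        fun j => D * y j := by
      funext j
      rw [← hw j]
      rfl
    rw [h2, Pool.Agent.TH143.HE.eval₂_smul_homog _ D y hd] at h1
    have h6 : val y G = MvPolynomial.eval₂ ((algebraMap ℂ K).comp (RingHom.id ℂ)) y G := rfl
    rw [h6]
    constructor
    · intro h3
      rw [h3, mul_zero] at h1
      obtain ⟨α, β, h4⟩ := onC_degree (RingHom.id ℂ) a b P Q G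
      rw [h4] at h1
      simp only [Polynomial.eval₂_add, Polynomial.eval₂_mul, Polynomial.eval₂_C,
        Polynomial.eval₂_X, Polynomial.coe_eval₂RingHom] at h1
      obtain ⟨h5, h6⟩ := hind α β h1
      rw [h4, h5, h6]
      simp
    · intro h3
      rw [h3, Polynomial.eval₂_zero] at h1
      exact (mul_eq_zero.1 h1.symm).resolve_left (pow_ne_zero _ hD0)
  refine gen_build hF hy
    (h := fun j z => (P j).eval (px a b z) + (Q j).eval (px a b z) * py a b z)
    (fun j => (mero_poly (mero_px a b) (P j)).add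
      ((mero_poly (mero_px a b) (Q j)).mul (mero_py a b))) ?_
  intro G hG
  rw [hon G hG]
  have hev : ∀ z, py a b z ^ 2 = px a b z ^ 3 + a * px a b z + b →
      Polynomial.eval₂ (Polynomial.eval₂RingHom (RingHom.id ℂ) (px a b z)) (py a b z)
        (onC (RingHom.id ℂ) a b P Q G) =
      MvPolynomial.eval (fun j => (P j).eval (px a b z) + (Q j).eval (px a b z) * py a b z) G := by
    intro z hz
    exact onC_eval (RingHom.id ℂ) P Q G (RingHom.id ℂ) hz
  constructor
  · intro h1
    filter_upwards [curve_codis a b] with z hz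
    rw [← hev z hz, h1, Polynomial.eval₂_zero]
  · intro h1
    obtain ⟨α, β, h4⟩ := onC_degree (RingHom.id ℂ) a b P Q G
    rw [h4] at hev
    have h5 : ∀ᶠ z in codiscrete ℂ, α.eval (px a b z) + β.eval (px a b z) * py a b z = 0 := by
      filter_upwards [curve_codis a b, h1] with z hz hz1
      have h6 := hev z hz
      rw [hz1] at h6
      simp only [Polynomial.eval₂_add, Polynomial.eval₂_mul, Polynomial.eval₂_C,
        Polynomial.eval₂_X, Polynomial.coe_eval₂RingHom] at h6
      exact h6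
    have h7 : α ^ 2 - β ^ 2 * (Polynomial.X ^ 3 + Polynomial.C a * Polynomial.X +
        Polynomial.C b) = 0 := by
      apply nc_poly (mero_px a b) (nc_px a b)
      filter_upwards [curve_codis a b, h5] with z hz hz1
      simp only [Polynomial.eval_sub, Polynomial.eval_mul, Polynomial.eval_pow,
        Polynomial.eval_add, Polynomial.eval_X, Polynomial.eval_C]
      rw [← hz]
      linear_combination (α.eval (px a b z) - β.eval (px a b z) * py a b z) * hz1
    have h8 := congrArg (Polynomial.aeval X) h7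
    simp only [map_sub, map_mul, map_pow, map_add, Polynomial.aeval_X, Polynomial.aeval_C,
      map_zero] at h8
    rw [← hXY] at h8
    have h9 : (Polynomial.aeval X α + Polynomial.aeval X β * Y) *
        (Polynomial.aeval X α + Polynomial.aeval X (-β) * Y) = 0 := by
      rw [map_neg]
      linear_combination h8
    have h10 : α = 0 ∧ β = 0 := by
      rcases mul_eq_zero.1 h9 with h11 | h11
      · exact hind α β h11
      · obtain ⟨h12, h13⟩ := hind α (-β) h11
        exact ⟨h12, neg_eq_zero.1 h13⟩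
    rw [h4, h10.1, h10.2]
    simp

theorem gen1 : S_GEN1 := by
  intro n ι F hF K _ _ y hy hgt
  have hff : IsFF ℂ K := ⟨Pool.Agent.Q72.NA.ess_of_adjoin hy.gen, by
    have := hy.dim
    simpa using this⟩
  rcases lt_trichotomy (Pool.Agent.W603.LV.canDeg ℂ K) 0 with h0 | h0 | h0
  · obtain ⟨t, ht⟩ := Pool.Agent.TH143.GE.rational_of_neg h0
    exact gen_zero hF hy ht
  · exact gen_one hF hy h0
  · exact absurd (Pool.Agent.Q103.SF.gt_of_canDeg h0) hgt

end

end Pool.Agent.H918.SS

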