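import Pool.Agent.H918.D.Ent
import Pool.Agent.H918.D.Defs
import Pool.Graph.R_pool_sql_team_seeded_63374d34.N154.GG.Geo3

/-! From projective manifolds over elliptic curves to compact sets of projection matrices: the bad
fibres. -/

set_option autoImplicit false

open Filter Topology Metric Set LinearAlgebra.Projectivization

namespace Pool.Agent.H918.SS

open FF Pool.Agent.Y190.OP Pool.Agent.W602.GT Pool.Agent.N154.GG
open Pool.Agent.N155 (TX isCompact_TX TX_PM exists_shift nz nz_Phi val_eval)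

variable {n : ℕ} {ι : Type} {F : ι → MvPolynomial (Fin (n + 1)) ℂ} {d : ℕ} {K : Type} [Field K]
  [Algebra ℂ K] {y : Fin (n + 1) → K} {L : PeriodPair} {α : (Fin (n + 1) → ℂ) → ℂ ⧸ L.lattice}
  {κ : Type} {η : κ → (Fin (n + 1) → ℂ) → (Fin (n + 1) → ℂ) → (Fin (n + 1) → ℂ) → ℂ}
  {B : Set (ℂ ⧸ L.lattice)}

/-- the bad values in the complex plane -/
def BB (L : PeriodPair) (B : Set (ℂ ⧸ L.lattice)) : Set ℂ :=
  {z | (Submodule.Quotient.mk z : ℂ ⧸ L.lattice) ∈ B}

/-- a coset of a discrete subgroup has a lower bound for its nonzero elements -/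
theorem coset_lower {Λ : AddSubgroup ℂ} {δ : ℝ} (hδ : 0 < δ) (hd : ∀ l ∈ Λ, ‖l‖ < δ → l = 0)
    (c : ℂ) : ∃ ε > 0, ∀ l ∈ Λ, ‖c + l‖ < ε → c + l = 0 := by
  by_cases h : ∃ l ∈ Λ, c + l ≠ 0 ∧ ‖c + l‖ < δ / 2
  · obtain ⟨l0, hl0, h0, h1⟩ := h
    refine ⟨‖c + l0‖, norm_pos_iff.2 h0, fun l hl hlt => ?_⟩
    have h2 : l - l0 = 0 := hd _ (Λ.sub_mem hl hl0) (by
      have e : l - l0 = (c + l) - (c + l0) := by ring
      rw [e]
      have := norm_sub_le (c + l) (c + l0)
      linarith)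
    rw [sub_eq_zero.1 h2] at hlt
    exact absurd hlt (lt_irrefl _)
  · push Not at h
    refine ⟨δ / 2, by positivity, fun l hl hlt => ?_⟩
    by_contra hne
    exact absurd hlt (not_lt.2 (h l hl hne))

theorem finite_lower {X : Type*} {P : Set X} (hP : P.Finite) {f : X → ℝ} (hf : ∀ p, 0 < f p) :
    ∃ m > 0, ∀ p ∈ P, m ≤ f p := by
  induction P, hP using Set.Finite.induction_on with
  | empty => exact ⟨1, one_pos, fun p hp => absurd hp (notMem_empty p)⟩
  | @insert p s hp hs ih =>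
    obtain ⟨m, hm, hm'⟩ := ih
    refine ⟨min m (f p), lt_min hm (hf _), fun q hq => ?_⟩
    rcases hq with rfl | hq
    · exact min_le_right _ _
    · exact (min_le_left _ _).trans (hm' q hq)

theorem bd_of (hT : TD (TX y) (La L) (aM L α F)) (hB : B.Finite) :
    ∃ δ : ℝ, Bd (La L) (BB L B) δ := by
  obtain ⟨δ0, hδ0, hd⟩ := hT.disc
  choose ε hε hε' using fun c => coset_lower hδ0 hd c
  set P : Set ((ℂ ⧸ L.lattice) × (ℂ ⧸ L.lattice)) := B ×ˢ B with hP
  have hPf : P.Finite := hB.prod hB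
  obtain ⟨m, hm, hm'⟩ := finite_lower hPf (f := fun p => ε (p.1.out - p.2.out)) fun p => hε _
  refine ⟨m / 4, by positivity, fun b hb l hl => ?_, fun b hb b' hb' hlt => ?_⟩
  · change (Submodule.Quotient.mk (b + l) : ℂ ⧸ L.lattice) ∈ B
    rw [Submodule.Quotient.mk_add, (Submodule.Quotient.mk_eq_zero L.lattice).2 hl, add_zero]
    exact hb
  · set p : ℂ ⧸ L.lattice := Submodule.Quotient.mk b with hp
    set p' : ℂ ⧸ L.lattice := Submodule.Quotient.mk b' with hp'
    have h1 : b - p.out ∈ La L := by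
      rw [mem_La_iff]
      exact (Quotient.out_eq p).symm
    have h2 : b' - p'.out ∈ La L := by
      rw [mem_La_iff]
      exact (Quotient.out_eq p').symm
    have h3 := hε' (p.out - p'.out) _ ((La L).sub_mem h1 h2)
    have e : p.out - p'.out + (b - p.out - (b' - p'.out)) = b - b' := by ring
    rw [e] at h3
    have h4 := hm' (p, p') ⟨hb, hb'⟩
    have h5 : ‖b - b'‖ < ε (p.out - p'.out) := by
      refine lt_of_lt_of_le ?_ h4
      linarith
    exact sub_eq_zero.1 (h3 h5)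

theorem affCoord_toProj {M : Mat (n + 1)} (hM : M ∈ PM) {i : Fin (n + 1)} (hi : M i i ≠ 0) :
    affCoord i (toProj M) = chart i M := by
  have h1 := Phi_rep_toProj hM
  have h2 : (toProj M).rep i ≠ 0 := by
    rw [← Phi_diag_ne (toProj M).rep_nonzero, h1]
    exact hi
  have h3 := chart_Phi (toProj M).rep_nonzero h2
  rw [h1] at h3
  rw [h3]
  funext j
  rw [Pi.smul_apply, smul_eq_mul]
  unfold affCoord
  ring

/-- the hypothesis on the fibres -/
theorem fibB_of (hX : SmoothVariety F d y) (hα : HolToTorus (Cone F) L α)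
    (hfib : HyperbolicOrCrossing F α B) :
    FibB (TX y) (La L) (aM L α F) (BB L B) := by
  intro P c hP hPT ho hcr z
  have hin : HolIn F (fun z => toProj (P z)) := ⟨holMap_of hP, fun z => rep_toProj hX (hPT z)⟩
  have hmk : ∀ z, α (toProj (P z)).rep = Submodule.Quotient.mk c := by
    intro z
    rw [← aM_rep hX hα (hPT z)]
    exact (mem_La_iff.1 (ho z)).symm
  rcases hfib _ hin (fun z w => by rw [hmk, hmk]) with h1 | ⟨h1, z0, h2⟩
  · have h2 := congrArg (fun p : ℙ ℂ (Fin (n + 1) → ℂ) => Phi p.rep) (h1 z 0)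
    change Phi (toProj (P z)).rep = Phi (toProj (P 0)).rep at h2
    rwa [Phi_rep_toProj (TX_PM (hPT z)), Phi_rep_toProj (TX_PM (hPT 0))] at h2
  · exfalso
    have hc : c ∈ BB L B := by
      change (Submodule.Quotient.mk c : ℂ ⧸ L.lattice) ∈ B
      rw [← hmk 0]
      exact h1
    refine hcr hc ?_
    obtain ⟨i, w, hi, hw, hev, hw0, hne⟩ := h2
    have hPi : P z0 i i ≠ 0 := by
      have h3 := (Phi_diag_ne (toProj (P z0)).rep_nonzero).2 hi
      rwa [Phi_rep_toProj (TX_PM (hPT z0))] at h3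
    rw [affCoord_toProj (TX_PM (hPT z0)) hPi] at hw hev hw0
    have h1 : ∀ᶠ x in 𝓝 (chart i (P z0)), AnalyticAt ℂ w x ∧
        (x ∈ Cone F → x i = 1 → w x = 0 → α x ∈ B) := hw.eventually_analyticAt.and hev
    obtain ⟨V, hVs, hV, hV0⟩ := _root_.mem_nhds_iff.1 h1
    have h2 : ∀ᶠ M : Mat (n + 1) in 𝓝 (P z0), M i i ≠ 0 ∧ chart i M ∈ V :=
      ((continuous_apply_apply i i).continuousAt.eventually_ne hPi).and
        ((continuousAt_chart hPi).eventually (hV.mem_nhds hV0))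
    obtain ⟨O, hOs, hO, hMO⟩ := _root_.mem_nhds_iff.1 h2
    refine ⟨z0, O, fun M => w (chart i M), hO, hMO, fun M hM => ?_, ?_, ?_, hw0, fun hcon => hne ?_⟩
    · exact (ContinuousAt.comp (g := w) (hVs (hOs hM).2).1.continuousAt
        (continuousAt_chart (hOs hM).1)).continuousWithinAt
    · intro U Q t _ ht hQ hQO
      have h3 := hQ.diff_chart ht (hOs hQO).1
      exact ((hVs (hOs hQO).2).1.differentiableAt).comp t h3
    · rintro M ⟨hM1, hM2⟩ hM3
      change (Submodule.Quotient.mk (aM L α F M) : ℂ ⧸ L.lattice) ∈ B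
      rw [aM_chart hX hα hM2 (hOs hM1).1]
      exact (hVs (hOs hM1).2).2 (chart_cone hX hM2 (hOs hM1).1) (PM.chart_self (hOs hM1).1) hM3
    · filter_upwards [hcon, (hp_cont hP).continuousAt.eventually (hO.mem_nhds hMO)] with t h3 h4
      rw [affCoord_toProj (TX_PM (hPT t)) (hOs h4).1]
      exact h3

/-- **Entire curves in projective manifolds over elliptic curves, with bad fibres.** -/
theorem ggl_geoB (hX : SmoothVariety F d y) (hd : 2 ≤ d) (hη : PositiveTwoForms (Cone F) d η)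
    (hα : HolToTorus (Cone F) L α) (hB : B.Finite) (hfib : HyperbolicOrCrossing F α B) :
    ∃ (S : Set (ℂ → ℙ ℂ (Fin (n + 1) → ℂ))) (k : ℕ), S.Finite ∧ 0 < k ∧
      (∀ g ∈ S, HolIn F g ∧ (∀ z, α (g z).rep = Submodule.Quotient.mk z) ∧
        ∀ l ∈ L.lattice, ∀ z, g (z + k * l) = g z) ∧
      (∀ f, HolIn F f → (∀ z w, f z = f w) ∨
        (∃ b ∈ B, ∀ z, α (f z).rep = b) ∨
        ∃ g ∈ S, ∃ φ : ℂ → ℂ, Differentiable ℂ φ ∧ ∀ z, f z = g (φ z)) ∧
      ∃ G : MvPolynomial (Fin (n + 1)) ℂ, IsForm G ∧ val y G ≠ 0 ∧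
        ∀ f, HolIn F f → (∀ z w, f z = f w) ∨ (∃ b ∈ B, ∀ z, α (f z).rep = b) ∨
          ∀ z, val (f z).rep G = 0 := by
  classical
  have hT := td_of hX hα
  have hG := rig_of_gd hT (gd_of hX hα hη)
  obtain ⟨δ, hb⟩ := bd_of hT hB
  have hf := (fibB_of hX hα hfib).lim hT hb
  obtain ⟨C, -, hC⟩ := exists_GS hT hb hf
  have hfin := S0_finiteS hT hG hC
  obtain ⟨k, hk, hper⟩ := S0_period hfin
  have hmain : ∀ f, HolIn F f → (∀ z w, f z = f w) ∨ (∃ b ∈ B, ∀ z, α (f z).rep = b) ∨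
      ∃ g ∈ S0 (TX y) (La L) (aM L α F), ∃ φ : ℂ → ℂ, Differentiable ℂ φ ∧
        ∀ z, f z = toProj (g (φ z)) := by
    intro f hf'
    have h1 : ∀ z, Phi (f z).rep ∈ TX y := fun z => mem_TX hX (hf'.2 z)
    rcases ggl_matB hT hG hb hf (holP_of hf'.1) h1 with h2 | ⟨c, hc, h2⟩ |
      ⟨g, hg, φ, hφ, -, h2⟩
    · left
      intro z w
      exact proj_ext ((h2 z).trans (h2 w).symm)
    · right
      left
      refine ⟨Submodule.Quotient.mk c, hc, fun z => ?_⟩
      have h3 := mem_La_iff.1 (h2 z)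
      rw [aM_Phi hα (hf'.2 z)] at h3
      exact h3.symm
    · right
      right
      refine ⟨g, hg, φ, hφ, fun z => proj_ext ?_⟩
      rw [Phi_rep_toProj (TX_PM (hg.2.1 _))]
      exact h2 z
  -- the equations
  have hperiod : ∀ g ∈ S0 (TX y) (La L) (aM L α F), ∃ G : MvPolynomial (Fin (n + 1)) ℂ,
      IsForm G ∧ val y G ≠ 0 ∧ ∀ z, ¬ nz G (g z) := by
    intro g hg
    have hk' : (k : ℝ) ≠ 0 := by exact_mod_cast hk.ne'
    have hind : LinearIndependent ℝ ![(k : ℂ) * L.ω₁, (k : ℂ) * L.ω₂] := by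
      have h1 := L.indep
      rw [LinearIndependent.pair_iff] at h1 ⊢
      intro s t hst
      have h2 : (s * k) • L.ω₁ + (t * k) • L.ω₂ = 0 := by
        rw [← hst]
        simp only [Complex.real_smul]
        push_cast
        ring
      obtain ⟨h3, h4⟩ := h1 _ _ h2
      exact ⟨(mul_eq_zero.1 h3).resolve_right hk', (mul_eq_zero.1 h4).resolve_right hk'⟩
    exact doubly_periodic_not_dense hX.sub.gen hX.sub.dim hd hg.1 hg.2.1 hind
      (fun z => hper g hg _ L.ω₁_mem_lattice z) (fun z => hper g hg _ L.ω₂_mem_lattice z)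
  choose! G hG1 hG2 hG3 using hperiod
  refine ⟨(fun P z => toProj (P z)) '' S0 (TX y) (La L) (aM L α F), k, hfin.image _, hk, ?_, ?_,
    ∏ g ∈ hfin.toFinset, G g, ?_, ?_, ?_⟩
  · rintro _ ⟨P, hP, rfl⟩
    obtain ⟨h1, h2⟩ := S0_iff hX hα hP
    refine ⟨h1, h2, fun l hl z => ?_⟩
    change toProj (P (z + k * l)) = toProj (P z)
    rw [hper P hP l hl]
  · intro f hf'
    rcases hmain f hf' with h1 | h1 | ⟨g, hg, φ, hφ, h1⟩
    · exact Or.inl h1
    · exact Or.inr (Or.inl h1)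
    · exact Or.inr (Or.inr ⟨_, ⟨g, hg, rfl⟩, φ, hφ, h1⟩)
  · exact isForm_prod _ _ fun g hg => hG1 g (hfin.mem_toFinset.1 hg)
  · rw [val_prod, Finset.prod_ne_zero_iff]
    exact fun g hg => hG2 g (hfin.mem_toFinset.1 hg)
  · intro f hf'
    rcases hmain f hf' with h1 | h1 | ⟨g, hg, φ, hφ, h1⟩
    · exact Or.inl h1
    · exact Or.inr (Or.inl h1)
    · right
      right
      intro z
      rw [val_prod, Finset.prod_eq_zero_iff]
      refine ⟨g, hfin.mem_toFinset.2 hg, ?_⟩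
      have h2 := hG3 g hg (φ z)
      obtain ⟨e, he⟩ := hG1 g hg
      rw [← Phi_rep_toProj (TX_PM (hg.2.1 (φ z))), nz_Phi he (toProj (g (φ z))).rep_nonzero,
        not_not] at h2
      rw [h1 z, val_eval]
      exact h2

end Pool.Agent.H918.SS
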