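import Pool.Agent.H918.D.KGeo
import Pool.Agent.H918.D.PGeo
import Pool.Agent.H918.D.Gen1

/-! Consequences: the special sets are contained in a hypersurface. -/

set_option autoImplicit false

open Filter Topology Metric Set LinearAlgebra.Projectivization

namespace Pool.Agent.H918.SS

open FF Pool.Agent.Y190.OP Pool.Agent.W602.GT Pool.Agent.N154.GG
open Pool.Agent.N155 (TX isCompact_TX TX_PM exists_shift nz nz_Phi val_eval)

variable {n : ℕ} {ι : Type} {F : ι → MvPolynomial (Fin (n + 1)) ℂ} {d : ℕ} {K : Type} [Field K]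
  [Algebra ℂ K] {y : Fin (n + 1) → K} {L : PeriodPair} {α : (Fin (n + 1) → ℂ) → ℂ ⧸ L.lattice}
  {κ : Type} {η : κ → (Fin (n + 1) → ℂ) → (Fin (n + 1) → ℂ) → (Fin (n + 1) → ℂ) → ℂ}
  {B : Set (ℂ ⧸ L.lattice)}

theorem val_mul' {R : Type} [Field R] [Algebra ℂ R] (v : Fin (n + 1) → R)
    (G H : MvPolynomial (Fin (n + 1)) ℂ) : val v (G * H) = val v G * val v H := by
  unfold val
  rw [map_mul]

theorem isForm_mul {G H : MvPolynomial (Fin (n + 1)) ℂ} (hG : IsForm G) (hH : IsForm H) :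
    IsForm (G * H) := by
  obtain ⟨a, ha⟩ := hG
  obtain ⟨b, hb⟩ := hH
  exact ⟨a + b, ha.mul hb⟩

/-- the entire curves -/
theorem ggl_geoH (hX : SmoothVariety F d y) (hd : 2 ≤ d) (hη : PositiveTwoForms (Cone F) d η)
    (hα : HolToTorus (Cone F) L α) (hB : B.Finite) (hfib : HyperbolicOrCrossing F α B) :
    ∃ (S : Set (ℂ → ℙ ℂ (Fin (n + 1) → ℂ))) (k : ℕ), S.Finite ∧ 0 < k ∧
      (∀ g ∈ S, HolIn F g ∧ (∀ z, α (g z).rep = Submodule.Quotient.mk z) ∧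
        ∀ l ∈ L.lattice, ∀ z, g (z + k * l) = g z) ∧
      (∀ f, HolIn F f → (∀ z w, f z = f w) ∨
        (∃ b ∈ B, ∀ z, α (f z).rep = b) ∨
        ∃ g ∈ S, ∃ φ : ℂ → ℂ, Differentiable ℂ φ ∧ ∀ z, f z = g (φ z)) ∧
      ∃ G : MvPolynomial (Fin (n + 1)) ℂ, IsForm G ∧ val y G ≠ 0 ∧
        ∀ H : MvPolynomial (Fin (n + 1)) ℂ, IsForm H → val y H ≠ 0 →
          (∀ x ∈ Cone F, α x ∈ B → val x H = 0) → IsForm (G * H) ∧ val y (G * H) ≠ 0 ∧
          ∀ f, HolIn F f → (∀ z w, f z = f w) ∨ ∀ z, val (f z).rep (G * H) = 0 := by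
  obtain ⟨S, k, h1, h2, h3, h4, G, h5, h6, h7⟩ := ggl_geoB hX hd hη hα hB hfib
  refine ⟨S, k, h1, h2, h3, h4, G, h5, h6, fun H hH hy hHB => ⟨isForm_mul h5 hH, ?_,
    fun f hf => ?_⟩⟩
  · rw [val_mul']
    exact mul_ne_zero h6 hy
  · rcases h7 f hf with h8 | ⟨b, hb, h8⟩ | h8
    · exact Or.inl h8
    · right
      intro z
      rw [val_mul', hHB _ (hf.2 z) (by rw [h8 z]; exact hb), mul_zero]
    · right
      intro z
      rw [val_mul', h8 z, zero_mul]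

/-- the big Picard theorem, with the special sets -/
theorem picard_geoH (hX : SmoothVariety F d y) (hd : 2 ≤ d) (hη : PositiveTwoForms (Cone F) d η)
    (hα : HolToTorus (Cone F) L α) (hB : B.Finite) (hfib : HyperbolicOrCrossing F α B) :
    ∃ S : Set (ℂ → ℙ ℂ (Fin (n + 1) → ℂ)), S.Finite ∧
      (∀ g ∈ S, HolIn F g ∧ ∀ z, α (g z).rep = Submodule.Quotient.mk z) ∧
      (∀ f, PunctIn F f → Extends F f ∨ (∃ b ∈ B, ∀ z ∈ PDisc, α (f z).rep = b) ∨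
        ∃ g ∈ S, ∃ φ : ℂ → ℂ, DifferentiableOn ℂ φ {z | z.re < 0} ∧
          ∀ z : ℂ, z.re < 0 → f (Complex.exp z) = g (φ z)) ∧
      ∃ G : MvPolynomial (Fin (n + 1)) ℂ, IsForm G ∧ val y G ≠ 0 ∧
        (∀ g ∈ S, ∀ z, val (g z).rep G = 0) ∧
        ∀ H : MvPolynomial (Fin (n + 1)) ℂ, IsForm H → val y H ≠ 0 →
          (∀ x ∈ Cone F, α x ∈ B → val x H = 0) → IsForm (G * H) ∧ val y (G * H) ≠ 0 ∧
          ∀ f, PunctIn F f → Extends F f ∨ ∀ z ∈ PDisc, val (f z).rep (G * H) = 0 := by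
  obtain ⟨S, h1, h3, h4, G, h5, h6, h6', h7⟩ := picard_geoB hX hd hη hα hB hfib
  refine ⟨S, h1, h3, h4, G, h5, h6, h6', fun H hH hy hHB => ⟨isForm_mul h5 hH, ?_,
    fun f hf => ?_⟩⟩
  · rw [val_mul']
    exact mul_ne_zero h6 hy
  · rcases h7 f hf with h8 | ⟨b, hb, h8⟩ | h8
    · exact Or.inl h8
    · right
      intro z hz
      rw [val_mul', hHB _ (hf.2 z hz) (by rw [h8 z hz]; exact hb), mul_zero]
    · right
      intro z hz
      rw [val_mul', h8 z hz, zero_mul]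

end Pool.Agent.H918.SS
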