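import Pool.Agent.H918.D.Cnf
import Pool.Graph.R_pool_sql_team_seeded_63374d34.N154.DD.Per

/-! The gradient estimate on discs which meet the bad fibres at most once. -/

set_option autoImplicit false

open Filter Topology Metric Set

namespace Pool.Agent.H918.SS

open Pool.Agent.Y190.OP Pool.Agent.N155 Pool.Agent.N154.GG

variable {N : ℕ} {T : Set (Mat N)} {Λ : AddSubgroup ℂ} {a : Mat N → ℂ} {𝔅 : Set ℂ} {δ : ℝ}

theorem wd_le (u v : Fin N → ℂ) : ‖wd u v‖ ≤ 2 * ‖u - v‖ * ‖v‖ := by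
  have h0 : 0 ≤ 2 * ‖u - v‖ * ‖v‖ := by positivity
  rw [pi_norm_le_iff_of_nonneg h0]
  intro j
  rw [pi_norm_le_iff_of_nonneg h0]
  intro l
  have e : wd u v j l = (u - v) j * v l - (u - v) l * v j := by
    unfold wd
    simp only [Pi.sub_apply]
    ring
  rw [e]
  refine (norm_sub_le _ _).trans ?_
  rw [norm_mul, norm_mul]
  have h1 := norm_le_pi_norm (u - v) j
  have h2 := norm_le_pi_norm (u - v) l
  have h3 := norm_le_pi_norm v j
  have h4 := norm_le_pi_norm v l
  have e1 : ‖(u - v) j‖ * ‖v l‖ ≤ ‖u - v‖ * ‖v‖ := mul_le_mul h1 h4 (norm_nonneg _) (norm_nonneg _)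
  have e2 : ‖(u - v) l‖ * ‖v j‖ ≤ ‖u - v‖ * ‖v‖ := mul_le_mul h2 h3 (norm_nonneg _) (norm_nonneg _)
  linarith

/-- the gradient of curves with small oscillation -/
theorem grad_of_osc {P : ℂ → Mat N} {z : ℂ} {s : ℝ} (hs : 0 < s) (hP : HolP (ball z s) P)
    (hosc : ∀ w ∈ ball z s, 2 * N * ‖P w - P z‖ ≤ 1) :
    ‖fderiv ℝ P z‖ ≤ KN N * (2 * (2 * N)) * (2 * N / (s / 4)) := by
  have hz : z ∈ ball z s := mem_ball_self hs
  obtain ⟨i, hi⟩ := exists_large (hP.mem_PM hz)
  set u : ℂ → Fin N → ℂ := fun t => chart i (P t) with hu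
  have hPt : ∀ t ∈ ball z s, P t i i ≠ 0 ∧ ‖u t‖ ≤ 2 * N := fun t ht =>
    chart_bound hi (hP.mem_PM ht) (hosc t ht)
  have hPphi : ∀ t ∈ ball z s, P t = Phi (u t) := fun t ht =>
    (PM.Phi_chart (hP.mem_PM ht) (hPt t ht).1).symm
  have hud : DifferentiableOn ℂ u (ball z s) := fun t ht =>
    (hP.diff_chart ht (hPt t ht).1).differentiableWithinAt
  have hder : ∀ x ∈ ball z (s / 2), ‖deriv u x‖ ≤ 2 * N / (s / 4) := by
    intro x hx
    have hsub : closedBall x (s / 4) ⊆ ball z s := by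
      intro y hy
      rw [mem_ball] at hx ⊢
      rw [mem_closedBall] at hy
      have := dist_triangle y x z
      linarith
    apply Complex.norm_deriv_le_of_forall_mem_sphere_norm_le (by positivity)
    · exact (hud.mono hsub).diffContOnCl_ball (subset_refl _)
    · intro y hy
      exact (hPt y (hsub (sphere_subset_closedBall hy))).2
  have hN : (0 : ℝ) ≤ N := Nat.cast_nonneg N
  have hK := KN_nonneg (N := N)
  apply norm_fderiv_le_of_lip' ℝ (by positivity)
  filter_upwards [ball_mem_nhds z (half_pos hs)] with w hw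
  have hw' : w ∈ ball z s := ball_subset_ball (by linarith) hw
  have h1 : ‖u w - u z‖ ≤ 2 * N / (s / 4) * ‖w - z‖ :=
    (convex_ball z (s / 2)).norm_image_sub_le_of_norm_deriv_le (fun x hx =>
      hud.differentiableAt (isOpen_ball.mem_nhds (ball_subset_ball (by linarith) hx))) hder
      (mem_ball_self (half_pos hs)) hw
  rw [hPphi w hw', hPphi z hz]
  have h2 := phi_le_wd (PM.chart_self (hPt w hw').1) (PM.chart_self (hPt z hz).1)
    (hPt w hw').2 (hPt z hz).2
  refine h2.trans ?_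
  have h3 : ‖wd (u w) (u z)‖ ≤ 2 * (2 * N) * (2 * N / (s / 4)) * ‖w - z‖ := by
    refine (wd_le _ _).trans ?_
    have h4 := (hPt z hz).2
    calc 2 * ‖u w - u z‖ * ‖u z‖ ≤ 2 * (2 * N / (s / 4) * ‖w - z‖) * (2 * N) := by gcongr
      _ = _ := by ring
  calc 2 * N * (2 * N) ^ 2 * ‖wd (u w) (u z)‖ ≤
        2 * N * (2 * N) ^ 2 * (2 * (2 * N) * (2 * N / (s / 4)) * ‖w - z‖) := by gcongr
    _ = _ := by
      unfold KN
      ring

theorem exp_maps {p : ℂ} {r : ℝ} (hr : 0 < r) :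
    MapsTo (fun w : ℂ => p + (r : ℂ) * Complex.exp w) HP (ball p r) := by
  intro w hw
  have hw' : w.re < 0 := hw
  rw [mem_ball, dist_eq_norm, add_sub_cancel_left, norm_mul, Complex.norm_real,
    Real.norm_of_nonneg hr.le, Complex.norm_exp]
  have : Real.exp w.re < 1 := by
    rw [← Real.exp_zero]
    exact Real.exp_lt_exp.2 hw'
  calc r * Real.exp w.re < r * 1 := mul_lt_mul_of_pos_left this hr
    _ = r := mul_one r

/-- **Gradient estimate** on discs which meet the bad fibres at most once -/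
theorem gradient1 (h : TD T Λ a) (hb : Bd Λ 𝔅 δ) (hf : FibL T Λ a 𝔅) :
    ∃ C : ℝ, 0 < C ∧ ∀ (P : ℂ → Mat N) (φ : ℂ → ℂ) (c : ℂ) (R : ℝ), 0 < R →
      Dsc T Λ a c R P φ → (∀ w ∈ ball c R, ‖φ w - φ c‖ ≤ 1) →
      (∀ w ∈ ball c R, ∀ w' ∈ ball c R, φ w ∈ 𝔅 → φ w' ∈ 𝔅 → w = w') →
      ‖fderiv ℝ P c‖ ≤ C / R := by
  obtain ⟨C0, hC0, hG⟩ := gradient0 h hb hf
  have hpi : 0 < 2 * Real.pi := Real.two_pi_pos
  set ε : ℝ := 1 / (2 * N + 1) with hε
  have hN : (0 : ℝ) ≤ N := Nat.cast_nonneg N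
  have hε0 : 0 < ε := by positivity
  have hε1 : 2 * N * ε ≤ 1 := by
    rw [hε, mul_one_div, div_le_one (by positivity)]
    linarith
  obtain ⟨τ, hτ, hconf⟩ := confine h.comp h.sub hε0
  set X : ℝ := 2 * Real.pi * C0 / τ + 1 with hX
  have hX0 : 0 < X := by positivity
  set K : ℝ := KN N * (2 * (2 * N)) * (2 * N / (1 / 4)) with hK
  have hKn : 0 ≤ K := by
    have := KN_nonneg (N := N)
    positivity
  -- gradient on hit free discs
  have hfree : ∀ (P : ℂ → Mat N) (φ : ℂ → ℂ) (c : ℂ) (R : ℝ) (c0 : ℂ), 0 < R →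
      Dsc T Λ a c R P φ → (∀ w ∈ ball c R, ‖φ w - c0‖ ≤ 1) → (∀ w ∈ ball c R, φ w ∉ 𝔅) →
      ‖fderiv ℝ P c‖ ≤ C0 * (1 / R) := by
    intro P φ c R c0 hR hD hosc hav
    have h1 := hG P φ c R hR hD hav
    have h2 : sg φ c ≤ 1 / R := by
      have h3 : ∀ ρ : ℝ, 0 < ρ → ρ < R → sg φ c ≤ 1 / ρ := fun ρ hρ hρR =>
        sg_le_of_bound_l hD.dif (c := c0) hρ hρR fun w hw =>
          hosc w (sphere_subset_closedBall.trans (closedBall_subset_ball hρR) hw)
      refine le_of_tendsto_of_tendsto (tendsto_const_nhds (f := 𝓝[<] R))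
        (g := fun ρ : ℝ => 1 / ρ) ?_ ?_
      · have h4 : ContinuousAt (fun ρ : ℝ => 1 / ρ) R := by
          have := hR.ne'
          fun_prop (disch := assumption)
        exact h4.tendsto.mono_left nhdsWithin_le_nhds
      · filter_upwards [Ioo_mem_nhdsLT hR] with ρ hρ
        exact h3 ρ hρ.1 hρ.2
    rwa [max_eq_right h2] at h1
  set C1 : ℝ := 2 * C0 + (8 * C0 + 8 * K) * Real.exp X with hC1
  refine ⟨C1, by positivity, fun P φ c R hR hD hosc hone => ?_⟩
  by_cases hhit : ∃ p ∈ ball c (R / 2), φ p ∈ 𝔅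
  swap
  · push Not at hhit
    have hD' : Dsc T Λ a c (R / 2) P φ := hD.mono (ball_subset_ball (by linarith))
    have h1 := hfree P φ c (R / 2) (φ c) (by positivity) hD' (fun w hw =>
      hosc w (ball_subset_ball (by linarith) hw)) hhit
    refine h1.trans ?_
    have h2 : C0 * (1 / (R / 2)) = 2 * C0 / R := by
      field_simp
    rw [h2]
    apply div_le_div_of_nonneg_right _ hR.le
    rw [hC1]
    have : 0 ≤ (8 * C0 + 8 * K) * Real.exp X := by positivity
    linarith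
  obtain ⟨p, hp, hpb⟩ := hhit
  have hpc : ‖p - c‖ < R / 2 := by rwa [mem_ball, dist_eq_norm] at hp
  have hsub : ball p (R / 2) ⊆ ball c R := by
    apply ball_subset_ball'
    rw [dist_eq_norm]
    linarith
  have hpR : p ∈ ball c R := hsub (mem_ball_self (by positivity))
  set r : ℝ := R / 2 with hr
  have hr0 : 0 < r := by positivity
  -- the curve on the half plane
  set E : ℂ → ℂ := fun w => p + (r : ℂ) * Complex.exp w with hE
  have hEd : Differentiable ℂ E := by fun_prop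
  have hEm : MapsTo E HP (ball c R) := fun w hw => hsub (exp_maps hr0 hw)
  set Q : ℂ → Mat N := fun w => P (E w) with hQ
  have hQh : HolP HP Q := holP_comp_l hD.hol hEd.differentiableOn isOpen_HP hEm
  have hQT : ∀ w ∈ HP, Q w ∈ T := fun w hw => hD.mem _ (hEm hw)
  have hQp : ∀ w ∈ HP, Q (w + tpi) = Q w := by
    intro w _
    rw [hQ, hE]
    simp only
    rw [Complex.exp_add]
    unfold tpi
    rw [Complex.exp_two_pi_mul_I, mul_one]
  have hEne : ∀ w, E w ≠ p := by
    intro w hw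
    have h1 : (r : ℂ) * Complex.exp w = 0 := by
      have : E w - p = (r : ℂ) * Complex.exp w := by rw [hE]; ring
      rw [← this, hw, sub_self]
    rcases mul_eq_zero.1 h1 with h2 | h2
    · exact hr0.ne' (by exact_mod_cast h2)
    · exact Complex.exp_ne_zero _ h2
  have hQg : ∀ w : ℂ, w.re < 0 → ‖fderiv ℝ Q w‖ ≤ C0 * (1 / (-w.re)) := by
    intro w hw
    have hwb : ball w (-w.re) ⊆ HP := ball_sub_HP
    refine hfree Q (fun t => φ (E t)) w (-w.re) (φ c) (by linarith) ⟨hQh.mono hwb,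
      fun t ht => hQT t (hwb ht), hD.dif.comp hEd.differentiableOn fun t ht => hEm (hwb ht),
      fun t ht => hD.ov _ (hEm (hwb ht))⟩ (fun t ht => hosc _ (hEm (hwb ht))) fun t ht hbad => ?_
    exact hEne t (hone _ (hEm (hwb ht)) _ hpR hbad hpb)
  have hlines : ∀ x : ℝ, x ≤ -X → ∀ y ∈ Icc (0 : ℝ) (2 * Real.pi),
      ∀ y' ∈ Icc (0 : ℝ) (2 * Real.pi),
        ‖Q ((x : ℂ) + y * Complex.I) - Q ((x : ℂ) + y' * Complex.I)‖ ≤ τ := by
    intro x hx y hy y' hy'
    have h1 := (convex_halfSpace_re_le (-X)).norm_image_sub_le_of_norm_fderiv_le (𝕜 := ℝ) (f := Q)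
      (C := C0 * (1 / X))
      (fun z (hz : z.re ≤ -X) => hQh.differentiableAt (show z.re < 0 by linarith))
      (fun z (hz : z.re ≤ -X) => (hQg z (by linarith)).trans (by
        apply mul_le_mul_of_nonneg_left _ hC0.le
        exact one_div_le_one_div_of_le hX0 (by linarith)))
      (x := (x : ℂ) + y' * Complex.I) (y := (x : ℂ) + y * Complex.I)
      (show ((x : ℂ) + y' * Complex.I).re ≤ -X by simpa using hx)
      (show ((x : ℂ) + y * Complex.I).re ≤ -X by simpa using hx)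
    refine h1.trans ?_
    have h2 : (x : ℂ) + y * Complex.I - ((x : ℂ) + y' * Complex.I) =
        ((y - y' : ℝ) : ℂ) * Complex.I := by
      push_cast
      ring
    rw [h2, norm_mul, Complex.norm_I, mul_one, Complex.norm_real, Real.norm_eq_abs]
    have h3 : |y - y'| ≤ 2 * Real.pi := by
      rw [abs_le]
      constructor <;> linarith [hy.1, hy.2, hy'.1, hy'.2]
    have h4 : C0 * (1 / X) * |y - y'| ≤ C0 * (1 / X) * (2 * Real.pi) :=
      mul_le_mul_of_nonneg_left h3 (by positivity)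
    refine h4.trans ?_
    rw [mul_one_div, div_mul_eq_mul_div, div_le_iff₀ hX0, hX, mul_add, mul_div_cancel₀ _ hτ.ne']
    linarith
  have hcf := hconf Q hQh hQT hQp (-X) (by linarith) hlines
  -- the oscillation near `p`
  set ρ0 : ℝ := r * Real.exp (-X) with hρ0
  have hρ00 : 0 < ρ0 := by positivity
  have hρr : ρ0 ≤ r := by
    rw [hρ0]
    have : Real.exp (-X) ≤ 1 := Real.exp_le_one_iff.2 (by linarith)
    nlinarith
  have hrep : ∀ z, z ≠ p → ‖z - p‖ ≤ ρ0 → ∃ w : ℂ, w.re ≤ -X ∧ E w = z := by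
    intro z hz hzρ
    have h1 : (z - p) / r ≠ 0 := div_ne_zero (sub_ne_zero.2 hz) (by exact_mod_cast hr0.ne')
    refine ⟨Complex.log ((z - p) / r), ?_, ?_⟩
    · rw [Complex.log_re, norm_div, Complex.norm_real, Real.norm_of_nonneg hr0.le]
      have h2 : ‖z - p‖ / r ≤ Real.exp (-X) := by
        rw [div_le_iff₀ hr0]
        linarith
      have h3 : 0 < ‖z - p‖ / r := div_pos (norm_pos_iff.2 (sub_ne_zero.2 hz)) hr0
      calc Real.log (‖z - p‖ / r) ≤ Real.log (Real.exp (-X)) := Real.log_le_log h3 h2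
        _ = -X := Real.log_exp _
    · rw [hE]
      simp only
      rw [Complex.exp_log h1]
      have : (r : ℂ) ≠ 0 := by exact_mod_cast hr0.ne'
      field_simp
      ring
  have hne : ∀ z, z ≠ p → ∀ z', z' ≠ p → ‖z - p‖ ≤ ρ0 → ‖z' - p‖ ≤ ρ0 → ‖P z - P z'‖ ≤ ε := by
    intro z hz z' hz' h1 h2
    obtain ⟨w, hw, rfl⟩ := hrep z hz h1
    obtain ⟨w', hw', rfl⟩ := hrep z' hz' h2
    exact hcf w w' hw hw'
  have hPc : ContinuousAt P p := hD.hol.continuousAt hpR
  have hne2 : ∀ z, z ≠ p → ‖z - p‖ ≤ ρ0 → ‖P z - P p‖ ≤ ε := by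
    intro z hz h1
    have h2 : Tendsto (fun z' => ‖P z - P z'‖) (𝓝[≠] p) (𝓝 ‖P z - P p‖) :=
      ((continuousAt_const.sub hPc).norm.tendsto).mono_left nhdsWithin_le_nhds
    refine le_of_tendsto h2 ?_
    filter_upwards [self_mem_nhdsWithin, mem_nhdsWithin_of_mem_nhds (ball_mem_nhds p hρ00)]
      with z' hz' hz''
    exact hne z hz z' hz' h1 (by rw [mem_ball, dist_eq_norm] at hz''; exact hz''.le)
  have hosc2 : ∀ z z', ‖z - p‖ ≤ ρ0 → ‖z' - p‖ ≤ ρ0 → ‖P z - P z'‖ ≤ ε := by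
    intro z z' h1 h2
    by_cases hz : z = p
    · by_cases hz' : z' = p
      · rw [hz, hz', sub_self, norm_zero]
        exact hε0.le
      · rw [norm_sub_rev, hz]
        exact hne2 z' hz' h2
    · by_cases hz' : z' = p
      · rw [hz']
        exact hne2 z hz h1
      · exact hne z hz z' hz' h1 h2
  have hexpX : r / ρ0 = Real.exp X := by
    rw [hρ0, Real.exp_neg]
    field_simp
  have hdiv : ∀ A : ℝ, A / ρ0 = A * Real.exp X * 2 / R := by
    intro A
    rw [← hexpX, hr]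
    field_simp
  by_cases hcp : ‖c - p‖ < ρ0 / 2
  · have hs : ball c (ρ0 / 2) ⊆ ball c R := ball_subset_ball (by linarith)
    have hin : ∀ w ∈ ball c (ρ0 / 2), ‖w - p‖ ≤ ρ0 := by
      intro w hw
      rw [mem_ball, dist_eq_norm] at hw
      have := norm_add_le (w - c) (c - p)
      rw [sub_add_sub_cancel] at this
      linarith
    have h1 := grad_of_osc (z := c) (s := ρ0 / 2) (by positivity) (hD.hol.mono hs) (fun w hw => by
      have h2 := hosc2 w c (hin w hw) (by linarith)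
      calc 2 * N * ‖P w - P c‖ ≤ 2 * N * ε := mul_le_mul_of_nonneg_left h2 (by positivity)
        _ ≤ 1 := hε1)
    refine h1.trans ?_
    have h2 : KN N * (2 * (2 * N)) * (2 * N / (ρ0 / 2 / 4)) = 2 * K / ρ0 := by
      rw [hK]
      field_simp
    rw [h2, hdiv]
    apply div_le_div_of_nonneg_right _ hR.le
    rw [hC1]
    have : 0 ≤ C0 * Real.exp X := by positivity
    have : 0 ≤ K * Real.exp X := by positivity
    nlinarith
  · push Not at hcp
    have hs : ball c (ρ0 / 2) ⊆ ball c R := ball_subset_ball (by linarith)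
    have h1 := hfree P φ c (ρ0 / 2) (φ c) (by positivity) (hD.mono hs) (fun w hw =>
      hosc w (hs hw)) (fun w hw hbad => by
        have h2 := hone w (hs hw) p hpR hbad hpb
        rw [h2, mem_ball, dist_eq_norm, norm_sub_rev] at hw
        linarith)
    refine h1.trans ?_
    have h2 : C0 * (1 / (ρ0 / 2)) = 2 * C0 / ρ0 := by
      field_simp
    rw [h2, hdiv]
    apply div_le_div_of_nonneg_right _ hR.le
    rw [hC1]
    have : 0 ≤ C0 * Real.exp X := by positivity
    have : 0 ≤ K * Real.exp X := by positivity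
    nlinarith

end Pool.Agent.H918.SS
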