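import Pool.Graph.R_pool_sql_team_seeded_63374d34.N154.DD.LB

/-! The local bound of the scale, in abstract form. (After the file `N154/DD/LB.lean` of an earlier
team.) -/

set_option autoImplicit false

open Filter Topology Metric Set

namespace Pool.Agent.H918.SS

open Pool.Agent.Y190.OP Pool.Agent.N155 Pool.Agent.N154.GG

/-- the local maximum principle for the function `D`, on the scale `σ` -/
def LMP (K c0 R : ℝ) (D σ : ℂ → ℝ) : Prop :=
  ∀ (s : ℂ) (ρ : ℝ) (G : ℂ → ℂ) (B : ℝ), 0 < ρ → ‖s‖ + ρ ≤ R →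
    (∀ t ∈ closedBall s ρ, ρ * σ t ≤ c0) → (∀ t ∈ closedBall s ρ, DifferentiableAt ℂ G t) →
    (∀ t : ℂ, ρ / 2 ≤ ‖t - s‖ → ‖t - s‖ ≤ ρ → D t * ‖G t‖ ≤ B) → D s * ‖G s‖ ≤ K * B

theorem LB_core_h {K c0 m0 : ℝ} (hK : 0 ≤ K) (hc0 : 0 < c0) (hm : 3 ≤ m0) :
    ∃ (S R : ℝ) (n0 : ℕ), 0 < S ∧ 0 < R ∧ m0 + 1 ≤ R ∧ ∀ n : ℕ, n0 ≤ n → ∀ (b : ℂ) (D : ℂ → ℝ)
      (σ : ℂ → ℝ) (U : ℝ) (t1 t2 : ℂ), (∀ z, 0 ≤ D z) → (∀ z, ‖z‖ ≤ R → D z ≤ U) →
      (∀ z, 0 ≤ σ z) → (∀ z w, ‖z‖ ≤ R → ‖w‖ ≤ R → 4 * ‖w - z‖ * σ z ≤ 1 → σ w ≤ 4 * σ z) →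
      LMP K c0 R D σ → σ 0 = 1 → 0 < D 0 →
      (∀ t, ‖t‖ ≤ R → σ t ^ (4 * n) * (D t * ‖Complex.exp (b * t)‖) ≤
        2 * (D 0 * ‖Complex.exp (b * 0)‖)) →
      ‖t1‖ = m0 - 2 → ‖t2‖ = m0 → S < σ t1 → S < σ t2 → False := by
  have hm0 : 0 < m0 := by linarith
  set Tt : ℝ := 1024 * m0 ^ 6 with hTt
  have hm1 : 1 ≤ m0 ^ 6 := one_le_pow₀ (by linarith)
  have hT1 : 1 ≤ Tt := by rw [hTt]; linarith
  have hT0 : 0 < Tt := by linarith
  set y : ℝ := 32 * (m0 + 3) ^ 2 * m0 ^ 3 with hy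
  have hy1 : 1 ≤ y := by
    have h1 : 1 ≤ (m0 + 3) ^ 2 := one_le_pow₀ (by linarith)
    have h2 : 1 ≤ m0 ^ 3 := one_le_pow₀ (by linarith)
    have h3 : 1 ≤ (m0 + 3) ^ 2 * m0 ^ 3 := one_le_mul_of_one_le_of_one_le h1 h2
    rw [hy]
    linarith
  set R' : ℝ := m0 + y with hR'
  have hR'0 : 0 < R' := by linarith
  set ρ : ℝ := min (1 / (8 * Tt)) (c0 / (4 * Tt)) with hρ
  have hρ0 : 0 < ρ := lt_min (by positivity) (by positivity)
  have hρ1 : ρ ≤ 1 / (8 * Tt) := min_le_left _ _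
  have hρ2 : ρ * (4 * Tt) ≤ c0 := by
    have h1 : ρ ≤ c0 / (4 * Tt) := min_le_right _ _
    rwa [le_div_iff₀ (by positivity)] at h1
  have hρ3 : ρ ≤ 1 := hρ1.trans (by
    rw [div_le_one (by positivity)]
    linarith)
  set γ : ℝ := Real.log (2 * K + 1) / (ρ / 2) ^ 2 with hγ
  have hγ0 : 0 ≤ γ := div_nonneg (Real.log_nonneg (by linarith)) (by positivity)
  have hγ1 : K * Real.exp (-(γ * (ρ / 2) ^ 2)) ≤ 1 / 2 := by
    rw [hγ, div_mul_cancel₀ _ (by positivity), Real.exp_neg, Real.exp_log (by linarith),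
      ← div_eq_mul_inv, div_le_div_iff₀ (by linarith) (by norm_num)]
    linarith
  obtain ⟨n0, hn0⟩ := exists_pow_lt_of_lt_one
    (show 0 < 1 / (2 * Real.exp (γ * (R' + 1) ^ 2)) by positivity)
    (show (1 / 2 : ℝ) < 1 by norm_num)
  refine ⟨4 * Tt, R' + 1, n0, by positivity, by positivity, by linarith, ?_⟩
  intro n hn b Dd σ U t1 t2 hD0 hDU hσ hH hLM hσ0 hd00 hbd ht1 ht2 hs1 hs2
  set d : ℂ → ℝ := fun t => Dd t * ‖Complex.exp (b * t)‖ with hd
  have hdnn : ∀ t, 0 ≤ d t := fun t => mul_nonneg (hD0 t) (norm_nonneg _)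
  have hd0 : 0 < d 0 := mul_pos hd00 (norm_pos_iff.2 (Complex.exp_ne_zero _))
  have ht1R : ‖t1‖ ≤ R' + 1 := by rw [ht1]; linarith
  have ht2R : ‖t2‖ ≤ R' + 1 := by rw [ht2]; linarith
  have hexpn : 2 * Real.exp (γ * (R' + 1) ^ 2) * (1 / 2) ^ n ≤ 1 := by
    have h1 : (1 / 2 : ℝ) ^ n ≤ (1 / 2) ^ n0 := pow_le_pow_of_le_one (by norm_num) (by norm_num) hn
    have h2 := h1.trans hn0.le
    have h3 : 0 < 2 * Real.exp (γ * (R' + 1) ^ 2) := by positivity
    rw [le_div_iff₀ h3] at h2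
    linarith
  set w : ℂ → ℝ := fun t => ‖t - t1‖ ^ (3 * n) * ‖t - t2‖ ^ (3 * n) with hw
  set Γ : ℂ → ℝ := fun t => d t / w t * Real.exp (γ * ‖t‖ ^ 2) with hΓ
  have hwnn : ∀ t, 0 ≤ w t := fun t => by positivity
  have hfar : ∀ t, ‖t‖ ≤ R' + 1 → σ t ≤ Tt → ∀ τ, ‖τ‖ ≤ R' + 1 → 4 * Tt < σ τ →
      1 / (4 * Tt) < ‖t - τ‖ := by
    intro t htR ht τ hτR hτ
    by_contra hcon
    push Not at hcon
    rw [norm_sub_rev] at hcon
    have h1 := hH t τ htR hτR (by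
      calc 4 * ‖τ - t‖ * σ t ≤ 4 * (1 / (4 * Tt)) * Tt := by
            have := hσ t
            gcongr
        _ = 1 := by field_simp)
    linarith
  set D : Set ℂ := {t | ‖t‖ ≤ R' ∧ σ t ≤ Tt} with hDdef
  have h0D : (0 : ℂ) ∈ D := ⟨by rw [norm_zero]; exact hR'0.le, by rw [hσ0]; exact hT1⟩
  have hΓ0 : d 0 / (m0 ^ (3 * n) * m0 ^ (3 * n)) ≤ Γ 0 := by
    rw [hΓ, hw]
    simp only [zero_sub, norm_neg, norm_zero]
    rw [ht1, ht2]
    norm_num
    have hmm : 0 < m0 - 2 := by linarith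
    gcongr
    linarith
  have hΓ0pos : 0 < Γ 0 := lt_of_lt_of_le (by positivity) hΓ0
  -- the bound of Γ far away
  have hfarΓ : ∀ t, ‖t‖ ≤ R' + 1 → (t ∉ D) → (∀ τ, ‖τ‖ ≤ R' + 1 → 4 * Tt < σ τ → 1 / (8 * Tt) ≤ ‖t - τ‖) →
      Γ t ≤ Γ 0 := by
    intro t htR htD hfar'
    refine le_trans ?_ hΓ0
    have he : Real.exp (γ * ‖t‖ ^ 2) ≤ Real.exp (γ * (R' + 1) ^ 2) := by
      apply Real.exp_le_exp.2
      gcongr
    by_cases hσt : σ t ≤ Tt
    · -- far from the origin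
      have htR' : R' < ‖t‖ := by
        by_contra hcon
        push Not at hcon
        exact htD ⟨hcon, hσt⟩
      have hlow : 1 / (4 * (m0 + 3) * y) ≤ σ t := by
        have h1 : 1 / (4 * (R' + 1)) ≤ σ t := by
          rcases lt_or_ge 1 (4 * ‖(0 : ℂ) - t‖ * σ t) with h | h
          · rw [zero_sub, norm_neg] at h
            rw [div_le_iff₀ (by positivity)]
            have h2 : 4 * ‖t‖ * σ t ≤ 4 * (R' + 1) * σ t := by
              have := hσ t
              gcongr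
            linarith
          · have h2 := hH t 0 htR (by rw [norm_zero]; positivity) h
            rw [hσ0] at h2
            refine le_trans ?_ (show 1 / 4 ≤ σ t by linarith)
            apply one_div_le_one_div_of_le (by norm_num)
            linarith
        refine le_trans ?_ h1
        apply one_div_le_one_div_of_le (by positivity)
        rw [hR']
        nlinarith
      have hd1 : d t ≤ 2 * d 0 * (4 * (m0 + 3) * y) ^ (4 * n) := by
        have h1 := hbd t htR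
        have h2 : (1 / (4 * (m0 + 3) * y)) ^ (4 * n) * d t ≤ σ t ^ (4 * n) * d t := by
          apply mul_le_mul_of_nonneg_right _ (hdnn t)
          exact pow_le_pow_left₀ (by positivity) hlow _
        have h3 := h2.trans h1
        rw [one_div, inv_pow, inv_mul_le_iff₀ (by positivity)] at h3
        linarith
      have hw1 : y ^ (3 * n) * y ^ (3 * n) ≤ w t := by
        have h1 : ∀ τ : ℂ, ‖τ‖ ≤ m0 → y ≤ ‖t - τ‖ := by
          intro τ hτ
          have := norm_sub_norm_le t τ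
          rw [hR'] at htR'
          linarith
        have h2 := h1 t1 (by rw [ht1]; linarith)
        have h3 := h1 t2 (by rw [ht2])
        rw [hw]
        simp only
        gcongr
      calc Γ t ≤ (2 * d 0 * (4 * (m0 + 3) * y) ^ (4 * n)) / (y ^ (3 * n) * y ^ (3 * n)) *
            Real.exp (γ * (R' + 1) ^ 2) := by
            rw [hΓ]
            simp only
            gcongr
        _ = d 0 / (m0 ^ (3 * n) * m0 ^ (3 * n)) * (2 * Real.exp (γ * (R' + 1) ^ 2) *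
            ((4 * (m0 + 3) * y) ^ 4 * m0 ^ 6 / y ^ 6) ^ n) := by
            exact calc1 hm0 (by linarith) n
        _ ≤ d 0 / (m0 ^ (3 * n) * m0 ^ (3 * n)) * 1 := by
            apply mul_le_mul_of_nonneg_left _ (by positivity)
            refine le_trans ?_ hexpn
            apply mul_le_mul_of_nonneg_left _ (by positivity)
            exact pow_le_pow_left₀ (by positivity) (calc3 hm0 hy) _
        _ = _ := by rw [mul_one]
    · push Not at hσt
      have hd1 : d t ≤ 2 * d 0 / Tt ^ (4 * n) := by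
        have h1 := hbd t htR
        have h2 : Tt ^ (4 * n) * d t ≤ σ t ^ (4 * n) * d t := by
          apply mul_le_mul_of_nonneg_right _ (hdnn t)
          exact pow_le_pow_left₀ hT0.le hσt.le _
        rw [le_div_iff₀ (by positivity)]
        linarith [h2.trans h1]
      have hw1 : (1 / (8 * Tt)) ^ (3 * n) ≤ w t := by
        have h1 := hfar' t1 ht1R hs1
        have h2 := hfar' t2 ht2R hs2
        have h3 : 2 ≤ ‖t - t1‖ + ‖t - t2‖ := by
          have e1 : ‖t2‖ - ‖t1‖ ≤ ‖t2 - t1‖ := norm_sub_norm_le _ _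
          have e2 : ‖t2 - t1‖ ≤ ‖t - t1‖ + ‖t - t2‖ := by
            have := norm_sub_le (t - t1) (t - t2)
            rwa [sub_sub_sub_cancel_left] at this
          rw [ht1, ht2] at e1
          linarith
        rw [hw]
        simp only
        rcases le_total 1 ‖t - t1‖ with h4 | h4
        · calc (1 / (8 * Tt)) ^ (3 * n) = 1 * (1 / (8 * Tt)) ^ (3 * n) := by ring
            _ ≤ _ := by
              gcongr
              exact one_le_pow₀ h4
        · have h5 : 1 ≤ ‖t - t2‖ := by linarith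
          calc (1 / (8 * Tt)) ^ (3 * n) = (1 / (8 * Tt)) ^ (3 * n) * 1 := by ring
            _ ≤ _ := by
              gcongr
              exact one_le_pow₀ h5
      calc Γ t ≤ (2 * d 0 / Tt ^ (4 * n)) / (1 / (8 * Tt)) ^ (3 * n) *
            Real.exp (γ * (R' + 1) ^ 2) := by
            rw [hΓ]
            simp only
            gcongr
        _ = d 0 / (m0 ^ (3 * n) * m0 ^ (3 * n)) * (2 * Real.exp (γ * (R' + 1) ^ 2) *
            ((8 * Tt) ^ 3 * m0 ^ 6 / Tt ^ 4) ^ n) := by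
            exact calc2 hm0 hT0 n
        _ ≤ d 0 / (m0 ^ (3 * n) * m0 ^ (3 * n)) * 1 := by
            apply mul_le_mul_of_nonneg_left _ (by positivity)
            refine le_trans ?_ hexpn
            apply mul_le_mul_of_nonneg_left _ (by positivity)
            exact pow_le_pow_left₀ (by positivity) (calc4 hm0 hTt) _
        _ = _ := by rw [mul_one]
  -- the supremum
  have hU0 : 0 ≤ U := (hD0 0).trans (hDU 0 (by rw [norm_zero]; positivity))
  have hbdd : BddAbove (Γ '' D) := by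
    refine ⟨(U * Real.exp (‖b‖ * R')) / ((1 / (4 * Tt)) ^ (3 * n) * (1 / (4 * Tt)) ^ (3 * n)) *
      Real.exp (γ * R' ^ 2), ?_⟩
    rintro _ ⟨t, ⟨ht, ht'⟩, rfl⟩
    have h1 : d t ≤ U * Real.exp (‖b‖ * R') := by
      have e1 := hDU t (by linarith)
      have e2 : ‖Complex.exp (b * t)‖ ≤ Real.exp (‖b‖ * R') := by
        refine (Complex.norm_exp_le_exp_norm _).trans (Real.exp_le_exp.2 ?_)
        rw [norm_mul]
        exact mul_le_mul_of_nonneg_left ht (norm_nonneg _)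
      exact mul_le_mul e1 e2 (norm_nonneg _) hU0
    have h2 : (1 / (4 * Tt)) ^ (3 * n) * (1 / (4 * Tt)) ^ (3 * n) ≤ w t := by
      have e1 := hfar t (by linarith) ht' t1 ht1R hs1
      have e2 := hfar t (by linarith) ht' t2 ht2R hs2
      rw [hw]
      simp only
      gcongr
    rw [hΓ]
    simp only
    gcongr
  set Sp : ℝ := sSup (Γ '' D) with hSp
  have hSp0 : Γ 0 ≤ Sp := le_csSup hbdd ⟨0, h0D, rfl⟩
  have hSppos : 0 < Sp := hΓ0pos.trans_le hSp0
  obtain ⟨_, ⟨s, hsD, rfl⟩, hs⟩ := exists_lt_of_lt_csSup (⟨_, ⟨0, h0D, rfl⟩⟩ : (Γ '' D).Nonempty)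
    (show Sp / 2 < sSup (Γ '' D) by rw [← hSp]; linarith)
  -- near the point s
  have hsR : ‖s‖ ≤ R' + 1 := by linarith [hsD.1]
  have hnR : ∀ t ∈ closedBall s ρ, ‖t‖ ≤ R' + 1 := by
    intro t ht
    rw [mem_closedBall, dist_eq_norm] at ht
    have := norm_add_le (t - s) s
    rw [sub_add_cancel] at this
    linarith [hsD.1]
  have hsball : ∀ t ∈ closedBall s ρ, σ t ≤ 4 * Tt := by
    intro t ht
    have htR := hnR t ht
    rw [mem_closedBall, dist_eq_norm] at ht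
    have h1 := hH s t hsR htR (by
      calc 4 * ‖t - s‖ * σ s ≤ 4 * (1 / (8 * Tt)) * Tt := by
            have := hσ s
            gcongr
            · exact ht.trans hρ1
            · exact hsD.2
        _ ≤ 1 := by
            rw [show 4 * (1 / (8 * Tt)) * Tt = 1 / 2 by field_simp; norm_num]
            norm_num)
    linarith [hsD.2]
  have hfar' : ∀ t ∈ closedBall s ρ, ∀ τ, ‖τ‖ ≤ R' + 1 → 4 * Tt < σ τ →
      1 / (8 * Tt) ≤ ‖t - τ‖ := by
    intro t ht τ hτR hτ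
    rw [mem_closedBall, dist_eq_norm] at ht
    have h1 := hfar s hsR hsD.2 τ hτR hτ
    have h2 : ‖s - τ‖ ≤ ‖t - s‖ + ‖t - τ‖ := by
      have := norm_sub_le (t - τ) (t - s)
      rw [sub_sub_sub_cancel_left] at this
      linarith
    have h3 : 1 / (4 * Tt) = 1 / (8 * Tt) + 1 / (8 * Tt) := by
      field_simp
      norm_num
    linarith [ht.trans hρ1]
  have hΓs : ∀ t ∈ closedBall s ρ, Γ t ≤ Sp := by
    intro t ht
    by_cases htD : t ∈ D
    · exact le_csSup hbdd ⟨t, htD, rfl⟩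
    · refine (hfarΓ t ?_ htD (hfar' t ht)).trans hSp0
      rw [mem_closedBall, dist_eq_norm] at ht
      have := norm_add_le (t - s) s
      rw [sub_add_cancel] at this
      linarith [hsD.1]
  set G : ℂ → ℂ := fun t => ((t - t1) ^ (3 * n) * (t - t2) ^ (3 * n))⁻¹ *
    Complex.exp ((-2 * ((-γ : ℝ) : ℂ) * (starRingEnd ℂ) s) * (t - s)) * Complex.exp (b * t)
    with hGdef
  have hnz : ∀ t ∈ closedBall s ρ, (t - t1) ^ (3 * n) * (t - t2) ^ (3 * n) ≠ 0 := by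
    intro t ht
    have h1 := hfar' t ht t1 ht1R hs1
    have h2 := hfar' t ht t2 ht2R hs2
    have h3 : 0 < 1 / (8 * Tt) := by positivity
    exact mul_ne_zero (pow_ne_zero _ (norm_pos_iff.1 (h3.trans_le h1)))
      (pow_ne_zero _ (norm_pos_iff.1 (h3.trans_le h2)))
  have hGn : ∀ t, ‖G t‖ = (w t)⁻¹ * Real.exp (γ * (‖t‖ ^ 2 - ‖s‖ ^ 2 - ‖t - s‖ ^ 2)) *
      ‖Complex.exp (b * t)‖ := by
    intro t
    rw [hGdef]
    simp only
    rw [norm_mul, norm_mul, norm_inv, norm_mul, norm_pow, norm_pow]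
    congr 1
    rw [Complex.norm_exp, re_id, neg_neg]
  have h1 := hLM s ρ G (Sp * Real.exp (-(γ * ‖s‖ ^ 2)) * Real.exp (-(γ * (ρ / 2) ^ 2))) hρ0
    (by linarith [hsD.1])
    (fun t ht => (mul_le_mul_of_nonneg_left (hsball t ht) hρ0.le).trans hρ2) (by
    intro t ht
    refine DifferentiableAt.mul (DifferentiableAt.mul (DifferentiableAt.inv (by fun_prop)
      (hnz t ht)) (by fun_prop)) (by fun_prop)) (by
    intro t ht0 ht
    rw [hGn]
    have h2 := hΓs t (by rw [mem_closedBall, dist_eq_norm]; exact ht)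
    have h3 : Dd t * ((w t)⁻¹ * Real.exp (γ * (‖t‖ ^ 2 - ‖s‖ ^ 2 - ‖t - s‖ ^ 2)) *
        ‖Complex.exp (b * t)‖) =
        Γ t * Real.exp (-(γ * ‖s‖ ^ 2)) * Real.exp (-(γ * ‖t - s‖ ^ 2)) := by
      rw [show γ * (‖t‖ ^ 2 - ‖s‖ ^ 2 - ‖t - s‖ ^ 2) = γ * ‖t‖ ^ 2 + -(γ * ‖s‖ ^ 2) +
        -(γ * ‖t - s‖ ^ 2) by ring, Real.exp_add, Real.exp_add, hΓ]
      simp only
      rw [div_eq_mul_inv]
      ring
    rw [h3]
    have h4 : Real.exp (-(γ * ‖t - s‖ ^ 2)) ≤ Real.exp (-(γ * (ρ / 2) ^ 2)) := by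
      apply Real.exp_le_exp.2
      have : (ρ / 2) ^ 2 ≤ ‖t - s‖ ^ 2 := pow_le_pow_left₀ (by positivity) ht0 2
      have := mul_le_mul_of_nonneg_left this hγ0
      linarith
    gcongr)
  rw [hGn, sub_self s, norm_zero] at h1
  have h2 : Dd s * ((w s)⁻¹ * Real.exp (γ * (‖s‖ ^ 2 - ‖s‖ ^ 2 - 0 ^ 2)) *
      ‖Complex.exp (b * s)‖) =
      Γ s * Real.exp (-(γ * ‖s‖ ^ 2)) := by
    rw [show γ * (‖s‖ ^ 2 - ‖s‖ ^ 2 - 0 ^ 2) = γ * ‖s‖ ^ 2 + -(γ * ‖s‖ ^ 2) by ring,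
      Real.exp_add, hΓ]
    simp only
    rw [div_eq_mul_inv]
    ring
  rw [h2] at h1
  have h3 : K * (Sp * Real.exp (-(γ * ‖s‖ ^ 2)) * Real.exp (-(γ * (ρ / 2) ^ 2))) =
      (K * Real.exp (-(γ * (ρ / 2) ^ 2)) * Sp) * Real.exp (-(γ * ‖s‖ ^ 2)) := by
    ring
  rw [h3] at h1
  have h4 := le_of_mul_le_mul_right h1 (Real.exp_pos _)
  have h5 := mul_le_mul_of_nonneg_right hγ1 hSppos.le
  linarith

end Pool.Agent.H918.SS
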