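import Pool.Agent.H918.D.Kk
import Pool.Agent.H918.D.LB

/-! The local maximum principle for the weighted product of the distances. -/

set_option autoImplicit false

open Filter Topology Metric Set

namespace Pool.Agent.H918.SS

open Pool.Agent.Y190.OP Pool.Agent.N155 Pool.Agent.N154.GG

variable {N : ℕ} {T : Set (Mat N)} {Λ : AddSubgroup ℂ} {a : Mat N → ℂ} {κ : Type}
    {η : κ → (Fin N → ℂ) → (Fin N → ℂ) → (Fin N → ℂ) → ℂ} {𝔅 : Set ℂ} {δ : ℝ}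
    {r : ℕ} {e : Fin r → ℂ → Mat N}

/-- the zeros of a holomorphic function in a closed disc are finite in number -/
theorem zeros_finite {f : ℂ → ℂ} {R : ℝ} (hR : 1 < R) (hf : DifferentiableOn ℂ f (ball 0 R))
    {z0 : ℂ} (hz0 : z0 ∈ ball (0 : ℂ) R) (hne : f z0 ≠ 0) :
    {z ∈ closedBall (0 : ℂ) 1 | f z = 0}.Finite := by
  by_contra hinf
  have hinf' : {z ∈ closedBall (0 : ℂ) 1 | f z = 0}.Infinite := hinf
  obtain ⟨x, hx, hacc⟩ := hinf'.exists_accPt_of_subset_isCompact (isCompact_closedBall (0 : ℂ) 1)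
    (fun z hz => hz.1)
  have hfr : ∃ᶠ z in 𝓝[≠] x, f z = 0 := by
    rw [accPt_iff_frequently_nhdsNE] at hacc
    exact hacc.mono fun z hz => hz.2
  have han : AnalyticOnNhd ℂ f (ball 0 R) := hf.analyticOnNhd isOpen_ball
  have h1 := han.eqOn_zero_of_preconnected_of_frequently_eq_zero
    (convex_ball (0 : ℂ) R).isPreconnected (closedBall_subset_ball hR hx) hfr
  exact hne (h1 hz0)

/-- composition of discs -/
theorem dsc_comp_disc {R : ℝ} {P : ℂ → Mat N} {φ : ℂ → ℂ} (hD : Dsc T Λ a 0 R P φ) {E : ℂ → ℂ}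
    (hE : DifferentiableOn ℂ E (ball 0 1)) (hm : MapsTo E (ball 0 1) (ball 0 R)) :
    Dsc T Λ a 0 1 (fun w => P (E w)) (fun w => φ (E w)) where
  hol := holP_comp_l hD.hol hE isOpen_ball hm
  mem := fun _ hw => hD.mem _ (hm hw)
  dif := hD.dif.comp hE hm
  ov := fun _ hw => hD.ov _ (hm hw)

theorem A1_of (h : TD T Λ a) (hb : Bd Λ 𝔅 δ) (hf : FibL T Λ a 𝔅) :
    ∃ κ0 : ℝ, 0 < κ0 ∧ κ0 < 1 ∧ ∀ {r : ℕ} {e : Fin r → ℂ → Mat N}, (∀ j, e j ∈ S0 T Λ a) →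
      ∀ (P : ℂ → Mat N) (φ : ℂ → ℂ), Dsc T Λ a 0 1 P φ → (∀ w ∈ ball (0 : ℂ) 1, φ w ∉ 𝔅) →
      ∀ c0 : ℂ, (∀ w ∈ ball (0 : ℂ) 1, ‖φ w - c0‖ ≤ 1) → ∀ (G : ℂ → ℂ) (B : ℝ),
      DifferentiableOn ℂ G (ball 0 1) → (∀ w : ℂ, ‖w‖ = κ0 → Pr e P φ w * ‖G w‖ ≤ B) →
      Pr e P φ 0 * ‖G 0‖ ≤ KN N ^ r * (KN N ^ r * B) := by
  obtain ⟨C0, hC0, hfree⟩ := grad_free h hb hf
  have hN : (0 : ℝ) ≤ N := Nat.cast_nonneg N
  set κ0 : ℝ := 1 / (4 * (N + 1) * (C0 + 1)) with hκ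
  have hκ0 : 0 < κ0 := by positivity
  have hκ1 : κ0 ≤ 1 / 4 := by
    rw [hκ]
    apply one_div_le_one_div_of_le (by norm_num)
    nlinarith
  have hκ2 : 2 * N * (2 * C0 * κ0) ≤ 1 := by
    rw [hκ, show 2 * (N : ℝ) * (2 * C0 * (1 / (4 * (N + 1) * (C0 + 1)))) =
      N * C0 / ((N + 1) * (C0 + 1)) by field_simp; ring, div_le_one (by positivity)]
    nlinarith
  refine ⟨κ0, hκ0, by linarith, fun {r e} he P φ hD hav c0 hosc G B hG hB => ?_⟩
  have hgr : ∀ {X : ℂ → Mat N}, Dsc T Λ a 0 1 X φ → ∀ t ∈ closedBall (0 : ℂ) κ0,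
      2 * N * ‖X t - X 0‖ ≤ 1 := by
    intro X hX t ht
    have h1 := (convex_closedBall (0 : ℂ) κ0).norm_image_sub_le_of_norm_fderiv_le (𝕜 := ℝ)
      (f := X) (C := 2 * C0) (fun x hx => hX.hol.differentiableAt
        (closedBall_subset_ball (by linarith) hx)) (fun x hx => by
        rw [mem_closedBall_zero_iff] at hx
        have hsub : ball x (1 - ‖x‖) ⊆ ball (0 : ℂ) 1 := ball_sub_l
        have h2 := hfree X φ x (1 - ‖x‖) c0 (by linarith) (hX.mono hsub)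
          (fun w hw => hosc w (hsub hw)) (fun w hw => hav w (hsub hw))
        refine h2.trans ?_
        rw [div_le_iff₀ (by linarith)]
        nlinarith) (mem_closedBall_self hκ0.le) ht
    rw [sub_zero] at h1
    rw [mem_closedBall_zero_iff] at ht
    calc 2 * N * ‖X t - X 0‖ ≤ 2 * N * (2 * C0 * κ0) := by
          apply mul_le_mul_of_nonneg_left _ (by positivity)
          exact h1.trans (mul_le_mul_of_nonneg_left ht (by positivity))
      _ ≤ 1 := hκ2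
  have hsub : closedBall (0 : ℂ) κ0 ⊆ ball 0 1 := closedBall_subset_ball (by linarith)
  exact locmax_l (P := P) (Q := fun j t => e j (φ t)) (U := ball 0 1) hD.hol
    (fun j => (hD.curve (he j)).hol) hκ0 hsub (hgr hD) (fun j => hgr (hD.curve (he j)))
    (fun t ht => hG.differentiableAt (isOpen_ball.mem_nhds (hsub ht)))
    (fun t ht => hB t (mem_sphere_zero_iff_norm.1 ht))

/-- the local maximum principle on the unit disc -/
theorem lm_unit (hT4 : S_T4) (h : TD T Λ a) (hb : Bd Λ 𝔅 δ) (hf : FibL T Λ a 𝔅)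
    (he : ∀ j, e j ∈ S0 T Λ a) : ∃ (n : ℕ) (K : ℝ), 0 < n ∧ 0 ≤ K ∧
      ∀ (P : ℂ → Mat N) (φ : ℂ → ℂ) (R : ℝ), 1 < R → Dsc T Λ a 0 R P φ →
      (∀ t ∈ closedBall (0 : ℂ) 1, ‖φ t - φ 0‖ ≤ min 1 δ / 8) → ∀ (G : ℂ → ℂ) (B : ℝ),
      (∀ t ∈ closedBall (0 : ℂ) 1, DifferentiableAt ℂ G t) →
      (∀ t : ℂ, 1 / 2 ≤ ‖t‖ → ‖t‖ ≤ 1 → Dh 𝔅 δ n e P φ t * ‖G t‖ ≤ B) →
      Dh 𝔅 δ n e P φ 0 * ‖G 0‖ ≤ K * B := by
  classical
  obtain ⟨κ0, hκ0, hκ1, hA⟩ := A1_of h hb hf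
  set K0 : ℝ := max 1 (KN N ^ r * KN N ^ r) with hK0
  have hK0' : KN N ^ r * KN N ^ r ≤ K0 := le_max_right _ _
  obtain ⟨n, C, hn, hC, hmain⟩ := hT4 κ0 K0 hκ0 hκ1 (le_max_left _ _)
  have hδ := hb.pos
  refine ⟨n, C * (8 / 3) ^ (4 * n), hn, by positivity, fun P φ R hR hD hosc G B hG hB => ?_⟩
  have hsub1 : closedBall (0 : ℂ) 1 ⊆ ball 0 R := closedBall_subset_ball hR
  have hsub2 : ball (0 : ℂ) 1 ⊆ ball 0 R := ball_subset_closedBall.trans hsub1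
  have hc1 : min 1 δ / 8 ≤ 1 := by
    have := min_le_left 1 δ
    linarith
  have hcδ : min 1 δ ≤ δ := min_le_right 1 δ
  have hB0 : 0 ≤ B := by
    refine le_trans ?_ (hB 1 (by norm_num) (by norm_num))
    exact mul_nonneg (hb.Dh_nn n e P φ _) (norm_nonneg _)
  set u : ℂ → ℝ := fun z => if z ∈ ball (0 : ℂ) 1 then Pr e P φ z else 0 with hu
  have hu1 : ∀ z ∈ ball (0 : ℂ) 1, u z = Pr e P φ z := fun z hz => by
    rw [hu]
    simp only
    rw [if_pos hz]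
  have hu0 : ∀ z, 0 ≤ u z := by
    intro z
    rw [hu]
    simp only
    split_ifs
    · exact Pr_nonneg e P φ z
    · exact le_rfl
  have huM : ∃ M : ℝ, ∀ z, u z ≤ M := by
    refine ⟨2 ^ r, fun z => ?_⟩
    rw [hu]
    simp only
    split_ifs with hz
    · exact Pr_le h he (hD.mem z (hsub2 hz))
    · positivity
  have h0mem : (0 : ℂ) ∈ ball (0 : ℂ) 1 := mem_ball_self one_pos
  -- the local maximum principle off the zeros
  have hA1 : ∀ Z : Finset ℂ, (∀ z ∈ ball (0 : ℂ) 1, φ z ∈ 𝔅 → z ∈ Z) →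
      ∀ E : ℂ → ℂ, DifferentiableOn ℂ E (ball 0 1) →
      (∀ w ∈ ball (0 : ℂ) 1, ‖E w‖ < 1 ∧ E w ∉ Z) →
      ∀ (G : ℂ → ℂ) (B : ℝ), DifferentiableOn ℂ G (ball 0 1) →
      (∀ w : ℂ, ‖w‖ = κ0 → u (E w) * ‖G w‖ ≤ B) → u (E 0) * ‖G 0‖ ≤ K0 * B := by
    intro Z hZ E hE hEm G B hG hB
    have hEb : MapsTo E (ball 0 1) (ball 0 1) := fun w hw => mem_ball_zero_iff.2 (hEm w hw).1
    have h1 := hA he (fun w => P (E w)) (fun w => φ (E w))
      (dsc_comp_disc (hD.mono hsub2) hE hEb) (fun w hw hbad => (hEm w hw).2 (hZ _ (hEb hw) hbad))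
      (φ 0) (fun w hw => (hosc _ (ball_subset_closedBall (hEb hw))).trans hc1) G B hG
      (fun w hw => by
        have hw' : w ∈ ball (0 : ℂ) 1 := mem_ball_zero_iff.2 (by rw [hw]; exact hκ1)
        have := hB w hw
        rwa [hu1 _ (hEb hw')] at this)
    rw [hu1 _ (hEb h0mem)]
    have hB' : 0 ≤ B := by
      refine le_trans ?_ (hB (κ0 : ℂ) (by rw [Complex.norm_real, Real.norm_of_nonneg hκ0.le]))
      exact mul_nonneg (hu0 _) (norm_nonneg _)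
    calc Pr e P φ (E 0) * ‖G 0‖ ≤ KN N ^ r * (KN N ^ r * B) := h1
      _ = (KN N ^ r * KN N ^ r) * B := by ring
      _ ≤ K0 * B := mul_le_mul_of_nonneg_right hK0' hB'
  by_cases hnear : ∃ b ∈ 𝔅, ‖φ 0 - b‖ < δ / 2
  · obtain ⟨b, hbb, hb2⟩ := hnear
    by_cases hφ0 : φ 0 = b
    · have h1 : Dh 𝔅 δ n e P φ 0 = 0 := by
        unfold Dh
        rw [hb.kk_zero (by rw [hφ0]; exact hbb), zero_pow (by omega), mul_zero]
      rw [h1, zero_mul]
      positivity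
    have hclose : ∀ t ∈ closedBall (0 : ℂ) 1, ‖φ t - b‖ < δ := by
      intro t ht
      have h1 := hosc t ht
      have h2 := norm_add_le (φ t - φ 0) (φ 0 - b)
      rw [sub_add_sub_cancel] at h2
      linarith
    have hkk : ∀ t ∈ closedBall (0 : ℂ) 1, kk 𝔅 δ (φ t) = ‖φ t - b‖ / δ := fun t ht =>
      hb.kk_eq hbb (hclose t ht)
    have hfin := zeros_finite (f := fun z => φ z - b) hR (hD.dif.sub_const b) (z0 := 0)
      (hsub2 h0mem) (sub_ne_zero.2 hφ0)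
    set Z : Finset ℂ := hfin.toFinset.filter fun z => ‖z‖ < 1 with hZ
    have hZm : ∀ z, z ∈ Z ↔ ‖z‖ < 1 ∧ φ z = b := by
      intro z
      rw [hZ, Finset.mem_filter, Set.Finite.mem_toFinset]
      constructor
      · rintro ⟨⟨h1, h2⟩, h3⟩
        exact ⟨h3, sub_eq_zero.1 h2⟩
      · rintro ⟨h1, h2⟩
        exact ⟨⟨mem_closedBall_zero_iff.2 h1.le, sub_eq_zero.2 h2⟩, h1⟩
    have hZb : ∀ z ∈ ball (0 : ℂ) 1, φ z ∈ 𝔅 → z ∈ Z := by
      intro z hz hbad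
      rw [hZm]
      refine ⟨mem_ball_zero_iff.1 hz, hb.sep _ hbad _ hbb ?_⟩
      have := hclose z (ball_subset_closedBall hz)
      linarith
    set ψ : ℂ → ℂ := fun z => (φ z - b) / δ with hψ
    have hψn : ∀ t ∈ closedBall (0 : ℂ) 1, ‖ψ t‖ = kk 𝔅 δ (φ t) := by
      intro t ht
      rw [hkk t ht, hψ]
      simp only
      rw [norm_div, Complex.norm_real, Real.norm_of_nonneg hδ.le]
    have h1 := hmain Z u (fun a ha => ((hZm a).1 ha).1) hu0 huM (hA1 Z hZb) ψ G B hB0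
      (fun z hz => ((hD.dif.differentiableAt (isOpen_ball.mem_nhds (hsub1 hz))).sub_const
        b).div_const _) hG (fun a ha => by
        rw [hψ]
        simp only
        rw [((hZm a).1 ha).2, sub_self, zero_div]) (fun z hz1 hz2 _ => by
        have h2 := hB z hz1 hz2.le
        rw [hu1 z (mem_ball_zero_iff.2 hz2), hψn z (mem_closedBall_zero_iff.2 hz2.le)]
        unfold Dh at h2
        refine le_trans (le_of_eq ?_) h2
        ring) 0 (by rw [norm_zero]; norm_num) (fun h0 => hφ0 ((hZm 0).1 h0).2)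
    rw [hu1 0 h0mem, hψn 0 (ball_subset_closedBall h0mem)] at h1
    unfold Dh
    calc Pr e P φ 0 * kk 𝔅 δ (φ 0) ^ (4 * n) * ‖G 0‖ =
          Pr e P φ 0 * (kk 𝔅 δ (φ 0) ^ (4 * n) * ‖G 0‖) := by ring
      _ ≤ C * B := h1
      _ ≤ C * (8 / 3) ^ (4 * n) * B := by
        apply mul_le_mul_of_nonneg_right _ hB0
        exact le_mul_of_one_le_right hC.le (one_le_pow₀ (by norm_num))
  · push Not at hnear
    have hfar : ∀ t ∈ closedBall (0 : ℂ) 1, ∀ b ∈ 𝔅, 3 / 8 * δ ≤ ‖φ t - b‖ := by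
      intro t ht b hbb
      have h1 := hosc t ht
      have h2 := hnear b hbb
      have h3 := norm_add_le (φ 0 - φ t) (φ t - b)
      rw [sub_add_sub_cancel] at h3
      rw [norm_sub_rev] at h1
      linarith
    have hk : ∀ t ∈ closedBall (0 : ℂ) 1, 3 / 8 ≤ kk 𝔅 δ (φ t) := by
      intro t ht
      refine le_trans ?_ (hb.kk_lower (hfar t ht))
      apply le_min (by norm_num)
      rw [mul_div_assoc, div_self hδ.ne', mul_one]
    have h1 := hmain ∅ u (by simp) hu0 huM (hA1 ∅ (fun z hz hbad => by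
        exfalso
        have h2 := hfar z (ball_subset_closedBall hz) _ hbad
        rw [sub_self, norm_zero] at h2
        linarith)) (fun _ => 1) G ((8 / 3) ^ (4 * n) * B) (by positivity)
      (fun z hz => differentiableAt_const _) hG (by simp) (fun z hz1 hz2 _ => by
        have h2 := hB z hz1 hz2.le
        have hzc : z ∈ closedBall (0 : ℂ) 1 := mem_closedBall_zero_iff.2 hz2.le
        rw [hu1 z (mem_ball_zero_iff.2 hz2), norm_one, one_pow, one_mul]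
        unfold Dh at h2
        have h3 : (3 / 8 : ℝ) ^ (4 * n) ≤ kk 𝔅 δ (φ z) ^ (4 * n) :=
          pow_le_pow_left₀ (by norm_num) (hk z hzc) _
        have h4 : (8 / 3 : ℝ) ^ (4 * n) * (3 / 8 : ℝ) ^ (4 * n) = 1 := by
          rw [← mul_pow]
          norm_num
        have h5 : 0 ≤ Pr e P φ z * ‖G z‖ := mul_nonneg (Pr_nonneg e P φ z) (norm_nonneg _)
        calc Pr e P φ z * ‖G z‖ = (8 / 3 : ℝ) ^ (4 * n) * ((3 / 8 : ℝ) ^ (4 * n) *
              (Pr e P φ z * ‖G z‖)) := by rw [← mul_assoc, h4, one_mul]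
          _ ≤ (8 / 3 : ℝ) ^ (4 * n) * (kk 𝔅 δ (φ z) ^ (4 * n) * (Pr e P φ z * ‖G z‖)) := by
              gcongr
          _ = (8 / 3 : ℝ) ^ (4 * n) * (Pr e P φ z * kk 𝔅 δ (φ z) ^ (4 * n) * ‖G z‖) := by ring
          _ ≤ (8 / 3 : ℝ) ^ (4 * n) * B := by gcongr) 0 (by rw [norm_zero]; norm_num)
      (by simp)
    rw [hu1 0 h0mem, norm_one, one_pow, one_mul] at h1
    have h2 := hb.Dh_le_Pr n e P φ 0
    calc Dh 𝔅 δ n e P φ 0 * ‖G 0‖ ≤ Pr e P φ 0 * ‖G 0‖ :=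
          mul_le_mul_of_nonneg_right h2 (norm_nonneg _)
      _ ≤ C * ((8 / 3) ^ (4 * n) * B) := h1
      _ = _ := by ring

/-- the local maximum principle -/
theorem lm_disc (hT4 : S_T4) (h : TD T Λ a) (hb : Bd Λ 𝔅 δ) (hf : FibL T Λ a 𝔅)
    (he : ∀ j, e j ∈ S0 T Λ a) : ∃ (n : ℕ) (K : ℝ), 0 < n ∧ 0 ≤ K ∧
      ∀ (P : ℂ → Mat N) (φ : ℂ → ℂ) (s : ℂ) (ρ R : ℝ), 0 < ρ → ρ < R → Dsc T Λ a s R P φ →
      (∀ t ∈ closedBall s ρ, ‖φ t - φ s‖ ≤ min 1 δ / 8) → ∀ (G : ℂ → ℂ) (B : ℝ),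
      (∀ t ∈ closedBall s ρ, DifferentiableAt ℂ G t) →
      (∀ t : ℂ, ρ / 2 ≤ ‖t - s‖ → ‖t - s‖ ≤ ρ → Dh 𝔅 δ n e P φ t * ‖G t‖ ≤ B) →
      Dh 𝔅 δ n e P φ s * ‖G s‖ ≤ K * B := by
  obtain ⟨n, K, hn, hK, hmain⟩ := lm_unit hT4 h hb hf he
  refine ⟨n, K, hn, hK, fun P φ s ρ R hρ hρR hD hosc G B hG hB => ?_⟩
  have hin : ∀ t : ℂ, ‖s + (ρ : ℂ) * t - s‖ = ρ * ‖t‖ := by
    intro t
    rw [add_sub_cancel_left, norm_mul, Complex.norm_real, Real.norm_of_nonneg hρ.le]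
  have hmem : ∀ t ∈ closedBall (0 : ℂ) 1, s + (ρ : ℂ) * t ∈ closedBall s ρ := by
    intro t ht
    rw [mem_closedBall_zero_iff] at ht
    rw [mem_closedBall, dist_eq_norm, hin]
    nlinarith
  have hD' : Dsc T Λ a 0 (R / ρ) (fun t => P (s + (ρ : ℂ) * t)) (fun t => φ (s + (ρ : ℂ) * t) - 0) :=
    hD.affine s hρ (by
      rw [sub_self, norm_zero, zero_add]
      field_simp
      exact le_rfl) Λ.zero_mem
  simp only [sub_zero] at hD'
  have h1 := hmain _ _ (R / ρ) ((one_lt_div hρ).2 hρR) hD' (fun t ht => by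
      rw [mul_zero, add_zero]
      exact hosc _ (hmem t ht)) (fun t => G (s + (ρ : ℂ) * t)) B (fun t ht =>
      (hG _ (hmem t ht)).comp t (by fun_prop)) (fun t ht1 ht2 => by
      refine hB (s + (ρ : ℂ) * t) ?_ ?_
      · rw [hin]
        nlinarith
      · rw [hin]
        nlinarith)
  have e0 : Dh 𝔅 δ n e (fun t => P (s + (ρ : ℂ) * t)) (fun t => φ (s + (ρ : ℂ) * t)) 0 =
      Dh 𝔅 δ n e P φ s := by
    unfold Dh Pr
    simp only [mul_zero, add_zero]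
  simp only [mul_zero, add_zero] at h1
  rwa [e0] at h1

end Pool.Agent.H918.SS
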