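import Pool.Agent.H918.D.Seq
import Pool.Agent.H918.D.T1
import Pool.Agent.H918.D.T3
import Pool.Agent.H918.D.T4
import Pool.Agent.H918.D.NZ

/-! The local maximum principle. -/

set_option autoImplicit false

open Filter Topology Metric Set

namespace Pool.Agent.H918.SS

open Pool.Agent.Y190.OP Pool.Agent.N155 Pool.Agent.N154.GG

variable {N : ℕ} {T : Set (Mat N)} {Λ : AddSubgroup ℂ} {a : Mat N → ℂ} {𝔅 : Set ℂ} {δ : ℝ}
    {r : ℕ} {e : Fin r → ℂ → Mat N}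

theorem exists_LMh (h : TD T Λ a) (hb : Bd Λ 𝔅 δ) (hf : FibL T Λ a 𝔅)
    (he : ∀ j, e j ∈ S0 T Λ a) : ∃ (n : ℕ) (K : ℝ), 0 < n ∧ 0 ≤ K ∧ LMh T Λ a 𝔅 δ n e K :=
  lm_disc (t4 t1 t3) h hb hf he

end Pool.Agent.H918.SS
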