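import Pool.Agent.H918.D.Sab

/-! Curves of genus at most one. -/

set_option autoImplicit false

open Filter Topology Metric Set LinearAlgebra.Projectivization

namespace Pool.Agent.H918.SS

open FF Pool.Agent.Y190.OP Pool.Agent.W602.GT Pool.Agent.N154.GG
open Pool.Agent.N155 (TX isCompact_TX TX_PM exists_shift nz nz_Phi nz_dich codis_ev)

variable {n : ℕ} {ι : Type} {F : ι → MvPolynomial (Fin (n + 1)) ℂ} {d : ℕ} {K : Type} [Field K]
  [Algebra ℂ K] {y : Fin (n + 1) → K} {L : PeriodPair} {α : (Fin (n + 1) → ℂ) → ℂ ⧸ L.lattice}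
  {κ : Type} {η : κ → (Fin (n + 1) → ℂ) → (Fin (n + 1) → ℂ) → (Fin (n + 1) → ℂ) → ℂ}
  {B : Set (ℂ ⧸ L.lattice)}

theorem nz_iff_val {G : MvPolynomial (Fin (n + 1)) ℂ} (hG : IsForm G)
    (p : ℙ ℂ (Fin (n + 1) → ℂ)) : nz G (Phi p.rep) ↔ val p.rep G ≠ 0 := by
  obtain ⟨e, he⟩ := hG
  rw [nz_Phi he p.rep_nonzero, Pool.Agent.N155.val_eval]

/-- a form which vanishes along `g ∘ φ` vanishes along `g` -/
theorem form_comp {g f : ℂ → ℙ ℂ (Fin (n + 1) → ℂ)} (hg : HolMap g) {φ : ℂ → ℂ}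
    (hφ : Differentiable ℂ φ) (hf : ∀ z, f z = g (φ z)) (hne : ∃ z w, f z ≠ f w)
    {G : MvPolynomial (Fin (n + 1)) ℂ} (hG : IsForm G) (h : ∀ z, val (f z).rep G = 0) (s : ℂ) :
    val (g s).rep G = 0 := by
  obtain ⟨e, he⟩ := hG
  rcases nz_dich (holP_of hg) he with h1 | h1
  · by_contra hcon
    exact h1 s ((nz_iff_val ⟨e, he⟩ _).2 hcon)
  · exfalso
    have han : AnalyticOnNhd ℂ φ univ := fun z _ => hφ.analyticAt z
    rcases han.is_constant_or_isOpen isPreconnected_univ with ⟨c, hc⟩ | ho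
    · obtain ⟨z, w, hzw⟩ := hne
      apply hzw
      rw [hf, hf, hc z (mem_univ _), hc w (mem_univ _)]
    · have h2 : φ '' univ ∈ 𝓝 (φ 0) :=
        (ho univ (Subset.refl _) isOpen_univ).mem_nhds ⟨0, mem_univ _, rfl⟩
      obtain ⟨t, ht1, ht2⟩ := ((codis_ev h1 (φ 0)).and (nhdsWithin_le_nhds h2)).exists
      obtain ⟨z, -, rfl⟩ := ht2
      have h3 := (nz_iff_val ⟨e, he⟩ _).1 ht1
      rw [← hf z] at h3
      exact h3 (h z)

/-- **Curves of genus at most one**: the consequences of the theorem on entire curves. -/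
theorem lang_of (hX : SmoothVariety F d y) {S : Set (ℂ → ℙ ℂ (Fin (n + 1) → ℂ))}
    (hS : ∀ g ∈ S, HolIn F g)
    (hmain : ∀ f, HolIn F f → (∀ z w, f z = f w) ∨ (∃ b ∈ B, ∀ z, α (f z).rep = b) ∨
        ∃ g ∈ S, ∃ φ : ℂ → ℂ, Differentiable ℂ φ ∧ ∀ z, f z = g (φ z))
    (K' : Type) [Field K'] [Algebra ℂ K'] (y' : Fin (n + 1) → K') (hy : SubVar F K' 1 y')
    (hgt : ¬ GeneralType ℂ K' 1) :
    (∀ H : MvPolynomial (Fin (n + 1)) ℂ, IsForm H → (∀ x ∈ Cone F, α x ∈ B → val x H = 0) →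
      val y' H = 0) ∨
    ∃ g ∈ S, ∀ G : MvPolynomial (Fin (n + 1)) ℂ, IsForm G →
      (val y' G = 0 ↔ ∀ z, val (g z).rep G = 0) := by
  let F' : ι ⊕ {G : MvPolynomial (Fin (n + 1)) ℂ // IsForm G ∧ val y' G = 0} →
    MvPolynomial (Fin (n + 1)) ℂ := Sum.elim F fun G => G.1
  have hF' : ∀ i, IsForm (F' i) := by
    rintro (i | G)
    · exact hX.form i
    · exact G.2.1
  have hy' : SubVar F' K' 1 y' := ⟨hy.ne, by
    rintro (i | G)
    · exact hy.mem i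
    · exact G.2.2, hy.gen, hy.dim⟩
  obtain ⟨f, hf, ⟨z1, z2, hne⟩, hdense⟩ := gen1 n _ F' hF' K' y' hy' hgt
  have hfF : HolIn F f := ⟨hf.1, fun z => ⟨(hf.2 z).1, fun i => (hf.2 z).2 (Sum.inl i)⟩⟩
  have hvan : ∀ G : MvPolynomial (Fin (n + 1)) ℂ, IsForm G → val y' G = 0 →
      ∀ z, val (f z).rep G = 0 := fun G hG hG0 z => (hf.2 z).2 (Sum.inr ⟨G, hG, hG0⟩)
  rcases hmain f hfF with h1 | ⟨b, hb, h1⟩ | ⟨g, hg, φ, hφ, h1⟩
  · exact absurd (h1 z1 z2) hne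
  · left
    intro H hH hH0
    exact hdense H hH fun z => hH0 _ (hfF.2 z) (by rw [h1 z]; exact hb)
  · right
    refine ⟨g, hg, fun G hG => ⟨fun h2 => ?_, fun h2 => ?_⟩⟩
    · exact form_comp (hS g hg).1 hφ h1 ⟨z1, z2, hne⟩ hG (hvan G hG h2)
    · refine hdense G hG fun z => ?_
      rw [h1]
      exact h2 _

end Pool.Agent.H918.SS
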