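import Pool.Agent.H918.D.Aff

/-! There are no rescaled sequences of discs. (Partly after the file `N154/DD/Main.lean` of an
earlier team.) -/

set_option autoImplicit false

open Filter Topology Metric Set

namespace Pool.Agent.H918.SS

open Pool.Agent.Y190.OP Pool.Agent.N155 Pool.Agent.N154.GG

variable {N : ℕ} {T : Set (Mat N)} {Λ : AddSubgroup ℂ} {a : Mat N → ℂ} {κ : Type}
    {η : κ → (Fin N → ℂ) → (Fin N → ℂ) → (Fin N → ℂ) → ℂ} {𝔅 : Set ℂ} {δ : ℝ}
    {r : ℕ} {e : Fin r → ℂ → Mat N} {q : ℕ} {D K : ℝ} {nn : ℕ → ℕ} {b : ℕ → ℂ}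
    {h : ℕ → ℂ → Mat N} {φ : ℕ → ℂ → ℂ}

/-- **Circles which avoid the crossing points and the bad values** -/
theorem circlesB (hT : TD T Λ a) (hb : Bd Λ 𝔅 δ) {r : ℕ} {e : Fin r → ℂ → Mat N}
    (he : ∀ j, HolP univ (e j))
    (hinj : Function.Injective e) {κ : ℕ} (hκ : 0 < κ)
    (hper : ∀ j, ∀ l ∈ Λ, ∀ z, e j (z + κ * l) = e j z) (i : Fin r) {ρ0 : ℝ} (hρ0 : 0 < ρ0) :
    ∃ ε > 0, ∀ s : ℂ, ∃ ρ > 0, ρ ≤ ρ0 ∧ ∀ s' ∈ sphere s ρ, ε ≤ Er e i s' ∧
      ∀ b ∈ 𝔅, ε ≤ ‖s' - b‖ := by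
  obtain ⟨D, hD⟩ := hT.coc
  have hloc : ∃ ε > 0, ∀ s ∈ closedBall (0 : ℂ) (κ * D), ∃ ρ > 0, ρ ≤ ρ0 ∧
      ∀ s' ∈ sphere s ρ, ε ≤ Er e i s' ∧ ∀ b ∈ 𝔅, ε ≤ ‖s' - b‖ := by
    refine (isCompact_closedBall (0 : ℂ) (κ * D)).induction_on
      (p := fun A => ∃ ε > 0, ∀ s ∈ A, ∃ ρ > 0, ρ ≤ ρ0 ∧ ∀ s' ∈ sphere s ρ, ε ≤ Er e i s' ∧
        ∀ b ∈ 𝔅, ε ≤ ‖s' - b‖)
      ⟨1, one_pos, fun s hs => absurd hs (notMem_empty _)⟩ ?_ ?_ ?_
    · rintro A A' hAA ⟨ε, hε, h⟩
      exact ⟨ε, hε, fun s hs => h s (hAA hs)⟩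
    · rintro A A' ⟨ε, hε, h⟩ ⟨ε', hε', h'⟩
      refine ⟨min ε ε', lt_min hε hε', fun s hs => ?_⟩
      rcases hs with hs | hs
      · obtain ⟨ρ, h1, h2, h3⟩ := h s hs
        exact ⟨ρ, h1, h2, fun s' hs' => ⟨(min_le_left _ _).trans (h3 s' hs').1,
          fun b hbb => (min_le_left _ _).trans ((h3 s' hs').2 b hbb)⟩⟩
      · obtain ⟨ρ, h1, h2, h3⟩ := h' s hs
        exact ⟨ρ, h1, h2, fun s' hs' => ⟨(min_le_right _ _).trans (h3 s' hs').1,
          fun b hbb => (min_le_right _ _).trans ((h3 s' hs').2 b hbb)⟩⟩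
    · intro s _
      have h1 := (Er_ev he hinj i s).and (hb.ev_notMem (Φ := fun z => z) differentiable_id
        ⟨0, 1, zero_ne_one⟩ s)
      rw [eventually_nhdsWithin_iff] at h1
      obtain ⟨R, hR, hRs⟩ := Metric.mem_nhds_iff.1 h1
      set ρ : ℝ := min ρ0 (R / 2) with hρ
      have hρpos : 0 < ρ := lt_min hρ0 (by positivity)
      have hρR : ρ < R := lt_of_le_of_lt (min_le_right _ _) (by linarith)
      set A : Set ℂ := closedBall s ρ \ ball s (ρ / 2) with hA
      have hAc : IsCompact A := (isCompact_closedBall s ρ).diff isOpen_ball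
      have hApos : ∀ z ∈ A, 0 < Er e i z ∧ z ∉ 𝔅 := by
        intro z hz
        have h2 : z ≠ s := by
          rintro rfl
          exact hz.2 (mem_ball_self (by positivity))
        have h3 : z ∈ ball s R := closedBall_subset_ball hρR hz.1
        have h4 := hRs h3 h2
        refine ⟨lt_of_le_of_ne ?_ (Ne.symm h4.1), h4.2⟩
        unfold Er
        exact Finset.prod_nonneg fun _ _ => norm_nonneg _
      obtain ⟨ε, hε, hεA⟩ : ∃ ε > 0, ∀ z ∈ A, ε ≤ Er e i z := by
        rcases A.eq_empty_or_nonempty with h0 | h0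
        · exact ⟨1, one_pos, fun z hz => by rw [h0] at hz; exact absurd hz (notMem_empty _)⟩
        · obtain ⟨z0, hz0, hmin⟩ := hAc.exists_isMinOn h0 (Er_cont he i).continuousOn
          exact ⟨Er e i z0, (hApos z0 hz0).1, fun z hz => hmin hz⟩
      obtain ⟨ε', hε', hεA'⟩ : ∃ ε > 0, ∀ z ∈ A, ∀ b ∈ 𝔅, ε ≤ ‖z - b‖ := by
        refine hAc.induction_on (p := fun A => ∃ ε > 0, ∀ z ∈ A, ∀ b ∈ 𝔅, ε ≤ ‖z - b‖) ?_ ?_ ?_ ?_
        · exact ⟨1, one_pos, fun z hz => absurd hz (notMem_empty _)⟩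
        · rintro A A' hAA ⟨ε, hε, h⟩
          exact ⟨ε, hε, fun s hs => h s (hAA hs)⟩
        · rintro A A' ⟨ε, hε, h⟩ ⟨ε', hε', h'⟩
          refine ⟨min ε ε', lt_min hε hε', fun s hs b hbb => ?_⟩
          rcases hs with hs | hs
          · exact (min_le_left _ _).trans (h s hs b hbb)
          · exact (min_le_right _ _).trans (h' s hs b hbb)
        · intro z hz
          obtain ⟨c, hc, hcz⟩ := hb.far (hApos z hz).2
          refine ⟨ball z (c / 2), mem_nhdsWithin_of_mem_nhds (ball_mem_nhds z (by positivity)),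
            c / 2, by positivity, fun w hw b hbb => ?_⟩
          rw [mem_ball, dist_eq_norm, norm_sub_rev] at hw
          have h5 := hcz b hbb
          have h6 := norm_add_le (z - w) (w - b)
          rw [sub_add_sub_cancel] at h6
          linarith
      refine ⟨ball s (ρ / 8), mem_nhdsWithin_of_mem_nhds (ball_mem_nhds s (by positivity)),
        min ε ε', lt_min hε hε',
        fun s1 hs1 => ⟨3 * ρ / 4, by positivity, ?_, fun s' hs' => ?_⟩⟩
      · have := min_le_left ρ0 (R / 2)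
        rw [← hρ] at this
        linarith
      · have hsA : s' ∈ A := by
          rw [mem_ball, dist_eq_norm] at hs1
          rw [mem_sphere, dist_eq_norm] at hs'
          have h2 : ‖s' - s‖ ≤ ‖s' - s1‖ + ‖s1 - s‖ := by
            have := norm_add_le (s' - s1) (s1 - s)
            rwa [sub_add_sub_cancel] at this
          have h3 : ‖s' - s1‖ ≤ ‖s' - s‖ + ‖s1 - s‖ := by
            have := norm_sub_le (s' - s) (s1 - s)
            rwa [sub_sub_sub_cancel_right] at this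
          constructor
          · rw [mem_closedBall, dist_eq_norm]
            linarith
          · rw [mem_ball, dist_eq_norm, not_lt]
            linarith
        exact ⟨(min_le_left _ _).trans (hεA s' hsA),
          fun b hbb => (min_le_right _ _).trans (hεA' s' hsA b hbb)⟩
  obtain ⟨ε, hε, h⟩ := hloc
  refine ⟨ε, hε, fun s => ?_⟩
  have hκ0 : (0 : ℝ) < κ := by exact_mod_cast hκ
  have hκc : (κ : ℂ) ≠ 0 := by exact_mod_cast hκ.ne'
  obtain ⟨l, hl, hls⟩ := hD (s / κ)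
  have h1 : s - κ * l ∈ closedBall (0 : ℂ) (κ * D) := by
    rw [mem_closedBall_zero_iff]
    have e1 : s - κ * l = κ * (s / κ - l) := by
      field_simp
    rw [e1, norm_mul, Complex.norm_natCast]
    exact mul_le_mul_of_nonneg_left hls hκ0.le
  obtain ⟨ρ, hρ, hρρ, h2⟩ := h _ h1
  refine ⟨ρ, hρ, hρρ, fun s' hs' => ?_⟩
  have h3 := h2 (s' - κ * l) (by
    rw [mem_sphere, dist_eq_norm] at hs' ⊢
    rwa [sub_sub_sub_cancel_right])
  have h4 : Er e i (s' - κ * l) = Er e i s' := by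
    unfold Er
    refine Finset.prod_congr rfl fun j _ => ?_
    have h5 : ∀ j, e j s' = e j (s' - κ * l) := by
      intro j
      have := hper j l hl (s' - κ * l)
      rwa [sub_add_cancel] at this
    rw [h5 i, h5 j]
  rw [h4] at h3
  refine ⟨h3.1, fun b hbb => ?_⟩
  have hκl : (κ : ℂ) * l ∈ Λ := by
    have := Λ.nsmul_mem hl κ
    rwa [nsmul_eq_mul] at this
  have h5 := h3.2 (b + -(κ * l)) (hb.inv _ hbb _ (Λ.neg_mem hκl))
  have e1 : s' - κ * l - (b + -(κ * l)) = s' - b := by ring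
  rwa [e1] at h5

theorem Ek_le_h (hT : TD T Λ a) (hs : SQh T Λ a e 𝔅 δ q D nn b h φ) (he : ∀ j, e j ∈ S0 T Λ a)
    (i : Fin r) (k : ℕ) : Ek e h φ i k 0 ≤ 2 ^ r := by
  have h0B : (0 : ℂ) ∈ ball (0 : ℂ) ((k : ℝ) + 1) := mem_ball_self (by positivity)
  set t : ℂ := 0
  unfold Ek
  calc ∏ j ∈ Finset.univ.erase i, ‖h k t - e j (φ k t)‖ ≤
        ∏ _j ∈ Finset.univ.erase i, (2 : ℝ) := by
        refine Finset.prod_le_prod (fun _ _ => norm_nonneg _) fun j _ => ?_
        have := (norm_sub_le (h k t) (e j (φ k t))).trans (add_le_add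
          (norm_phi_le (hT.sub ((hs.dsc k).mem t h0B))) (norm_phi_le (hT.sub ((he j).2.1 (φ k t)))))
        linarith
    _ = 2 ^ (Finset.univ.erase i).card := by rw [Finset.prod_const]
    _ ≤ 2 ^ r := by
        apply pow_le_pow_right₀ (by norm_num)
        refine (Finset.card_le_univ _).trans ?_
        rw [Fintype.card_fin]

/-- the limit of the curves, when the limit function is affine -/
theorem SQh.limcur (hT : TD T Λ a) (hb : Bd Λ 𝔅 δ) (hf : FibL T Λ a 𝔅)
    (hs : SQh T Λ a e 𝔅 δ q D nn b h φ) {Φ : ℂ → ℂ}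
    (hΦc : CConv (UU : Filter ℕ) univ φ Φ) {α β : ℂ} (hα : α ≠ 0)
    (hΦa : ∀ t, Φ t = α * t + β) :
    ∃ H : ℂ → Mat N, HolP univ H ∧ (∀ z, H z ∈ T) ∧ CConv (UU : Filter ℕ) univ h H ∧
      Over Λ a H Φ := by
  obtain ⟨C, hC0, hC⟩ := gradient1 hT hb hf
  have hαn : 0 < ‖α‖ := norm_pos_iff.2 hα
  have hδ := hb.pos
  set ρ1 : ℝ := min 1 δ / (4 * (‖α‖ + 1)) with hρ1
  have hm0 : 0 < min 1 δ := lt_min one_pos hδ
  have hρ10 : 0 < ρ1 := by positivity
  have hρ1α : 4 * (‖α‖ * ρ1) ≤ min 1 δ := by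
    rw [hρ1]
    have : 4 * (‖α‖ * (min 1 δ / (4 * (‖α‖ + 1)))) = min 1 δ * (‖α‖ / (‖α‖ + 1)) := by
      field_simp
    rw [this]
    have h1 : ‖α‖ / (‖α‖ + 1) ≤ 1 := by
      rw [div_le_one (by positivity)]
      linarith
    nlinarith
  have hdΦ : deriv Φ = fun _ => α := by
    rw [show Φ = fun t => α * t + β from funext hΦa]
    funext t
    rw [deriv_add_const, deriv_const_mul_id']
  have hder : ∀ L : ℝ, ∀ᶠ k in (UU : Filter ℕ), ∀ w ∈ closedBall (0 : ℂ) L,
      ‖deriv (φ k) w - α‖ ≤ ‖α‖ / 2 := by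
    intro L
    have h0 : TendstoLocallyUniformlyOn φ Φ (UU : Filter ℕ) (ball 0 (L + 1)) :=
      (hΦc.locUnif isOpen_univ).mono (subset_univ _)
    have h1 := (h0.deriv ((hs.dscL (L + 1)).mono fun k hk => hk.dif) isOpen_ball).mono
      (closedBall_subset_ball (show L < L + 1 by linarith) : closedBall (0 : ℂ) L ⊆ _)
    rw [tendstoLocallyUniformlyOn_iff_tendstoUniformlyOn_of_compact
      (isCompact_closedBall (0 : ℂ) L), Metric.tendstoUniformlyOn_iff] at h1
    filter_upwards [h1 (‖α‖ / 2) (by positivity)] with k hk w hw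
    have h2 := hk w hw
    rw [hdΦ, dist_comm, dist_eq_norm] at h2
    exact h2.le
  obtain ⟨H, hH, hHT, hHc⟩ := exists_limit_on (𝓤 := UU) (h := h) hT.comp hT.sub isOpen_univ (by
    intro z0 _
    refine ⟨ρ1, hρ10, C / ρ1, ?_⟩
    have hsub0 : ∀ c ∈ ball z0 ρ1, ball c ρ1 ⊆ ball (0 : ℂ) (‖z0‖ + 2 * ρ1) := by
      intro c hc
      apply ball_subset_ball'
      rw [mem_ball, dist_eq_norm] at hc
      rw [dist_zero_right]
      have := norm_add_le (c - z0) z0
      rw [sub_add_cancel] at this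
      linarith
    have hsub1 : ball z0 ρ1 ⊆ ball (0 : ℂ) (‖z0‖ + 2 * ρ1) := hsub0 z0 (mem_ball_self hρ10)
    filter_upwards [hs.dscL (‖z0‖ + 2 * ρ1), hder (‖z0‖ + 2 * ρ1)] with k hk hdk
    refine ⟨hk.hol.mono hsub1, fun w hw => hk.mem w (hsub1 hw), fun c hc => ?_⟩
    have hsb := hsub0 c hc
    have hlin : ∀ w ∈ ball c ρ1, ∀ w' ∈ ball c ρ1,
        ‖(φ k w - α * w) - (φ k w' - α * w')‖ ≤ ‖α‖ / 2 * ‖w - w'‖ := by
      intro w hw w' hw'
      refine (convex_ball c ρ1).norm_image_sub_le_of_norm_hasDerivWithin_le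
        (f := fun w => φ k w - α * w) (f' := fun w => deriv (φ k) w - α) (fun x hx => ?_)
        (fun x hx => hdk x (ball_subset_closedBall (hsb hx))) hw' hw
      have h3 : HasDerivAt (φ k) (deriv (φ k) x) x :=
        (hk.dif.differentiableAt (isOpen_ball.mem_nhds (hsb hx))).hasDerivAt
      have h4 : HasDerivAt (fun w : ℂ => α * w) α x := by
        have := (hasDerivAt_id x).const_mul α
        rwa [mul_one] at this
      exact (h3.sub h4).hasDerivWithinAt
    have hlip : ∀ w ∈ ball c ρ1, ∀ w' ∈ ball c ρ1, ‖φ k w - φ k w'‖ ≤ 3 / 2 * ‖α‖ * ‖w - w'‖ := by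
      intro w hw w' hw'
      have h3 := hlin w hw w' hw'
      have h4 : φ k w - φ k w' = ((φ k w - α * w) - (φ k w' - α * w')) + α * (w - w') := by ring
      rw [h4]
      refine (norm_add_le _ _).trans ?_
      rw [norm_mul]
      linarith
    have hww : ∀ w ∈ ball c ρ1, ∀ w' ∈ ball c ρ1, ‖w - w'‖ ≤ 2 * ρ1 := by
      intro w hw w' hw'
      rw [mem_ball, dist_eq_norm] at hw hw'
      have := norm_sub_le (w - c) (w' - c)
      rw [sub_sub_sub_cancel_right] at this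
      linarith
    refine hC (h k) (φ k) c ρ1 hρ10 (hk.mono hsb) ?_ ?_
    · intro w hw
      have h3 := hlip w hw c (mem_ball_self hρ10)
      have h4 : ‖w - c‖ ≤ ρ1 := by
        rw [mem_ball, dist_eq_norm] at hw
        exact hw.le
      have h5 : 3 / 2 * ‖α‖ * ‖w - c‖ ≤ 3 / 2 * ‖α‖ * ρ1 := by gcongr
      have := min_le_left 1 δ
      have : 0 ≤ ‖α‖ * ρ1 := by positivity
      linarith
    · intro w hw w' hw' hbw hbw'
      have h3 := hlip w hw w' hw'
      have h4 := hww w hw w' hw'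
      have h5 : 3 / 2 * ‖α‖ * ‖w - w'‖ ≤ 3 / 2 * ‖α‖ * (2 * ρ1) := by gcongr
      have h6 := hb.sep _ hbw _ hbw' (by
        have := min_le_right 1 δ
        have : 0 ≤ ‖α‖ * ρ1 := by positivity
        linarith)
      have h7 := hlin w hw w' hw'
      rw [h6] at h7
      have h8 : φ k w' - α * w - (φ k w' - α * w') = -(α * (w - w')) := by ring
      rw [h8, norm_neg, norm_mul] at h7
      have h9 : ‖w - w'‖ = 0 := by
        have := norm_nonneg (w - w')
        by_contra hne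
        have h10 : 0 < ‖w - w'‖ := lt_of_le_of_ne this (Ne.symm hne)
        have h11 : 0 < ‖α‖ * ‖w - w'‖ := by positivity
        linarith
      exact sub_eq_zero.1 (norm_eq_zero.1 h9))
  refine ⟨H, hH, fun z => hHT z (mem_univ z), hHc, fun z => ?_⟩
  have hz : ∀ᶠ n in (UU : Filter ℕ), h n z ∈ T ∧ φ n z - a (h n z) ∈ Λ := by
    filter_upwards [hs.dscL (‖z‖ + 1)] with n hn
    have hzb : z ∈ ball (0 : ℂ) (‖z‖ + 1) := mem_ball_zero_iff.2 (by linarith)
    exact ⟨hn.mem z hzb, hn.ov z hzb⟩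
  exact hT.lim (l := (UU : Filter ℕ)) (hz.mono fun _ h => h.1)
    (hHc.pointwise (mem_univ z)) (hHT z (mem_univ z)) (hz.mono fun _ h => h.2)
    (hΦc.pointwise (mem_univ z))

/-- **No rescaled sequences** -/
theorem SQh.false (hT : TD T Λ a) (hG : RIG T Λ a) (hb : Bd Λ 𝔅 δ) (hf : FibL T Λ a 𝔅)
    (hs : SQh T Λ a e 𝔅 δ q D nn b h φ)
    (he : ∀ j, e j ∈ S0 T Λ a) (hinj : Function.Injective e)
    (hsurj : ∀ g ∈ S0 T Λ a, ∃ j, e j = g) {κ0 : ℕ} (hκ : 0 < κ0)
    (hper : ∀ j, ∀ l ∈ Λ, ∀ z, e j (z + κ0 * l) = e j z) (hK : 0 ≤ K)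
    (hLM : LMh T Λ a 𝔅 δ q e K) {C : ℝ} (hC0 : 0 < C) (hGS : GS T Λ a C) : False := by
  have hδ := hb.pos
  obtain ⟨m, hm⟩ := hs.coef hT hb he hK hLM
  obtain ⟨Φ, hΦ, hΦc, -⟩ := hs.limfun hT hb he hK hLM
  obtain ⟨α, β, hα, hΦa⟩ := hs.aff hT hb hf he hK hLM hm hΦ hΦc
  obtain ⟨H, hH, hHT, hHc, hHo⟩ := hs.limcur hT hb hf hΦc hα hΦa
  -- the limit is one of the curves
  have hPS : (fun s => H ((s - β) / α)) ∈ S0 T Λ a := by
    refine ⟨holP_comp hH (by fun_prop), fun z => hHT _, fun z => ?_⟩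
    have h1 := hHo ((z - β) / α)
    rw [hΦa, mul_div_cancel₀ _ hα, sub_add_cancel] at h1
    exact h1
  obtain ⟨i, hi⟩ := hsurj _ hPS
  have hHe : ∀ t, H t = e i (Φ t) := by
    intro t
    rw [hi]
    simp only
    rw [hΦa, add_sub_cancel_right, mul_div_cancel_left₀ _ hα]
  set ρ0 : ℝ := 1 / (8 * (N + 1) * (C + 1)) with hρ0
  have hρ0pos : 0 < ρ0 := by positivity
  set η0 : ℝ := 1 / (8 * (N + 1)) with hη0
  have hη0pos : 0 < η0 := by positivity
  obtain ⟨ε, hε, hcirc⟩ := circlesB hT hb (fun j => (he j).1) hinj hκ hper i hρ0pos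
  have hkm := hs.evm m
  set c1 : ℝ := min 1 (ε / 2 / δ) ^ (4 * q) with hc1
  have hc10 : 0 < c1 := by positivity
  have hprod : ∀ k t, ∏ j, ‖h k t - e j (φ k t)‖ = ‖h k t - e i (φ k t)‖ * Ek e h φ i k t := by
    intro k t
    exact (Finset.mul_prod_erase Finset.univ (fun j => ‖h k t - e j (φ k t)‖)
      (Finset.mem_univ i)).symm
  have hx0 : ∀ k, 0 < ‖h k 0 - e i (φ k 0)‖ := by
    intro k
    have h1 : 0 < ∏ j, ‖h k 0 - e j (φ k 0)‖ := (hs.d0 k).trans_le (hb.Dh_le_Pr q e _ _ 0)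
    rw [hprod] at h1
    rcases (norm_nonneg (h k 0 - e i (φ k 0))).eq_or_lt with h2 | h2
    · rw [← h2, zero_mul] at h1
      exact absurd h1 (lt_irrefl _)
    · exact h2
  set wt : ℕ → ℂ → ℂ := fun k t => 2 * Wl nn b φ m k t / (‖h k 0 - e i (φ k 0)‖ : ℝ) with hwt
  have hwtn : ∀ k t, ‖wt k t‖ = 2 * ‖Wl nn b φ m k t‖ / ‖h k 0 - e i (φ k 0)‖ := by
    intro k t
    rw [hwt]
    simp only
    rw [norm_div, norm_mul, Complex.norm_real, norm_norm]
    norm_num
  have hwtd : ∀ L : ℝ, ∀ᶠ k in (UU : Filter ℕ), DifferentiableOn ℂ (wt k) (ball 0 L) := by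
    intro L
    filter_upwards [hs.dscL L] with k hk
    have := diff_Wl (nn := nn) (b := b) hk.dif m
    rw [hwt]
    exact (this.const_mul 2).div_const _
  have hosc : 2 * N * (C * ρ0 + 2 * η0) ≤ 1 := by
    rw [hρ0, hη0]
    have h1 : C * (1 / (8 * (N + 1) * (C + 1))) ≤ 1 / (8 * ((N : ℝ) + 1)) := by
      rw [mul_one_div, div_le_div_iff₀ (by positivity) (by positivity)]
      have : (0 : ℝ) ≤ N := Nat.cast_nonneg N
      nlinarith
    have h2 : 2 * (N : ℝ) * (1 / (8 * ((N : ℝ) + 1)) + 2 * (1 / (8 * ((N : ℝ) + 1)))) ≤ 1 := by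
      have : 2 * (N : ℝ) * (1 / (8 * ((N : ℝ) + 1)) + 2 * (1 / (8 * ((N : ℝ) + 1)))) =
          6 * N / (8 * (N + 1)) := by
        field_simp
        ring
      rw [this, div_le_one (by positivity)]
      have : (0 : ℝ) ≤ N := Nat.cast_nonneg N
      linarith
    refine le_trans ?_ h2
    gcongr
  -- the uniform bound
  have hbound : ∀ L : ℝ, ∀ᶠ k in (UU : Filter ℕ), ∀ z ∈ closedBall (0 : ℂ) L,
      ‖h k z - e i (φ k z)‖ * ‖wt k z‖ ≤ KN N ^ 1 * (KN N ^ 1 * (8 * 2 ^ r / (ε * c1))) := by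
    intro L
    set L' : ℝ := |L| + ρ0 / ‖α‖ with hL'
    have hαn : 0 < ‖α‖ := norm_pos_iff.2 hα
    filter_upwards [hkm, uu_ge L', hs.dscL (L' + 1),
      CConv.unif hΦc (isCompact_closedBall (0 : ℂ) L') (half_pos hε),
      CConv.unif (Ek_conv he hΦc hHc hHe) (isCompact_closedBall (0 : ℂ) L') (half_pos hε),
      CConv.unif hHc (isCompact_closedBall (0 : ℂ) L') hη0pos,
      CConv.unif (e_conv he hΦc i) (isCompact_closedBall (0 : ℂ) L') hη0pos]
      with k hk hkL hdk hφk hEk hHk hek z hz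
    obtain ⟨ρ, hρ, hρρ, hcir⟩ := hcirc (Φ z)
    have hz' : ‖z‖ ≤ |L| := (mem_closedBall_zero_iff.1 hz).trans (le_abs_self L)
    have hρ' : 0 < ρ / ‖α‖ := by positivity
    have hsub : ∀ t ∈ closedBall z (ρ / ‖α‖), t ∈ closedBall (0 : ℂ) L' := by
      intro t ht
      rw [mem_closedBall, dist_eq_norm] at ht
      rw [mem_closedBall_zero_iff, hL']
      have h1 := norm_add_le (t - z) z
      rw [sub_add_cancel] at h1
      have h2 : ρ / ‖α‖ ≤ ρ0 / ‖α‖ := by gcongr
      linarith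
    have hz'' : z ∈ closedBall (0 : ℂ) L' := hsub z (mem_closedBall_self hρ'.le)
    have hΦd : ∀ t, ‖Φ t - Φ z‖ = ‖α‖ * ‖t - z‖ := by
      intro t
      rw [hΦa t, hΦa z, ← norm_mul]
      congr 1
      ring
    have hlip : ∀ t ∈ closedBall z (ρ / ‖α‖), ‖e i (Φ t) - e i (Φ z)‖ ≤ C * ρ0 := by
      intro t ht
      rw [mem_closedBall, dist_eq_norm] at ht
      refine (hGS.lip (he i) _ _).trans (mul_le_mul_of_nonneg_left ?_ hC0.le)
      rw [hΦd]
      rw [le_div_iff₀ hαn] at ht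
      linarith
    have hoscX : ∀ {X : ℂ → Mat N}, (∀ t ∈ closedBall (0 : ℂ) L', ‖X t - e i (Φ t)‖ < η0) →
        ∀ t ∈ closedBall z (ρ / ‖α‖), 2 * N * ‖X t - X z‖ ≤ 1 := by
      intro X hX t ht
      have h1 := hX t (hsub t ht)
      have h2 := hX z hz''
      have h3 := hlip t ht
      have h4 : ‖X t - X z‖ ≤ C * ρ0 + 2 * η0 := by
        have e1 : X t - X z = (X t - e i (Φ t)) + (e i (Φ t) - e i (Φ z)) - (X z - e i (Φ z)) := by
          abel
        rw [e1]
        refine (norm_sub_le _ _).trans ?_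
        have := norm_add_le (X t - e i (Φ t)) (e i (Φ t) - e i (Φ z))
        linarith
      exact (mul_le_mul_of_nonneg_left h4 (by positivity)).trans hosc
    have h1 := locmax_l (r := 1) (P := h k) (Q := fun _ t => e i (φ k t)) hdk.hol
      (fun _ => (hdk.curve (he i)).hol) hρ' (fun t ht => by
        have := mem_closedBall_zero_iff.1 (hsub t ht)
        exact mem_ball_zero_iff.2 (by linarith)) (hoscX (X := h k) (fun t ht => by
        rw [← hHe]
        exact hHk t ht)) (fun _ => hoscX (X := fun t => e i (φ k t)) hek) (G := wt k)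
      (fun t ht => by
        have h3 := mem_closedBall_zero_iff.1 (hsub t ht)
        have h4 : DifferentiableOn ℂ (wt k) (ball 0 (L' + 1)) := by
          have := diff_Wl (nn := nn) (b := b) hdk.dif m
          rw [hwt]
          exact (this.const_mul 2).div_const _
        exact h4.differentiableAt (isOpen_ball.mem_nhds (mem_ball_zero_iff.2 (by linarith))))
      (B := 8 * 2 ^ r / (ε * c1)) (by
        intro t ht
        have ht' := hsub t (sphere_subset_closedBall ht)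
        have hEt : ε / 2 ≤ Ek e h φ i k t := by
          have h2 := hEk t ht'
          have h3 := (hcir (Φ t) (by
            rw [mem_sphere, dist_eq_norm, hΦd]
            rw [mem_sphere, dist_eq_norm] at ht
            rw [ht]
            field_simp)).1
          rw [Real.norm_eq_abs, abs_lt] at h2
          linarith [h2.1]
        have hkt : c1 ≤ kk 𝔅 δ (φ k t) ^ (4 * q) := by
          have h3 := (hcir (Φ t) (by
            rw [mem_sphere, dist_eq_norm, hΦd]
            rw [mem_sphere, dist_eq_norm] at ht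
            rw [ht]
            field_simp)).2
          have h4 := hφk t ht'
          refine pow_le_pow_left₀ (by positivity) (hb.kk_lower fun b hbb => ?_) _
          have h5 := h3 b hbb
          have h6 := norm_sub_le (φ k t - b) (φ k t - Φ t)
          rw [sub_sub_sub_cancel_left] at h6
          linarith
        have hb0 := hs.bW hb (qk_dvd hk) ((mem_closedBall_zero_iff.1 ht').trans hkL)
        have hb' : ‖Wl nn b φ m k t‖ * Dh 𝔅 δ q e (h k) (φ k) t ≤
            2 * Dh 𝔅 δ q e (h k) (φ k) 0 := by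
          rw [norm_Wl]
          refine le_trans (le_of_eq ?_) hb0
          ring
        have hb'' : ‖Wl nn b φ m k t‖ * ((∏ j, ‖h k t - e j (φ k t)‖) * c1) ≤
            2 * ∏ j, ‖h k 0 - e j (φ k 0)‖ := by
          have f1 : (∏ j, ‖h k t - e j (φ k t)‖) * c1 ≤ Dh 𝔅 δ q e (h k) (φ k) t :=
            mul_le_mul_of_nonneg_left hkt (Finset.prod_nonneg fun _ _ => norm_nonneg _)
          have f2 : Dh 𝔅 δ q e (h k) (φ k) 0 ≤ ∏ j, ‖h k 0 - e j (φ k 0)‖ :=
            hb.Dh_le_Pr q e _ _ 0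
          have f3 := mul_le_mul_of_nonneg_left f1 (norm_nonneg (Wl nn b φ m k t))
          linarith
        rw [hprod, hprod] at hb''
        have hE0 := Ek_le_h hT hs he i k
        simp only [Finset.univ_unique, Finset.prod_singleton]
        rw [hwtn, ← mul_div_assoc, div_le_div_iff₀ (hx0 k) (by positivity)]
        set x := ‖h k t - e i (φ k t)‖ with hx
        set x0 := ‖h k 0 - e i (φ k 0)‖ with hx0def
        have hxn : 0 ≤ x := norm_nonneg _
        have hWn : 0 ≤ ‖Wl nn b φ m k t‖ := norm_nonneg _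
        have h2 : ‖Wl nn b φ m k t‖ * (x * (ε / 2) * c1) ≤ 2 * (x0 * 2 ^ r) := by
          calc ‖Wl nn b φ m k t‖ * (x * (ε / 2) * c1) ≤
                ‖Wl nn b φ m k t‖ * (x * Ek e h φ i k t * c1) := by gcongr
            _ ≤ 2 * (x0 * Ek e h φ i k 0) := hb''
            _ ≤ 2 * (x0 * 2 ^ r) := by
              have := (hx0 k).le
              gcongr
        linarith)
    simp only [Finset.univ_unique, Finset.prod_singleton] at h1
    exact h1
  have hRD : RDl T Λ a UU (e i) Φ C (KN N ^ 1 * (KN N ^ 1 * (8 * 2 ^ r / (ε * c1))))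
      (fun k t => e i (φ k t)) h φ wt :=
    { hg := (he i).1
      gT := (he i).2.1
      gov := (he i).2.2
      gB := hGS.S0 (he i)
      Φd := hΦ
      hP := fun L => (hs.dscL L).mono fun _ h => h.curve (he i)
      hQ := hs.dscL
      wtd := hwtd
      cP := e_conv he hΦc i
      cQ := by
        have : (fun z => e i (Φ z)) = H := funext fun z => (hHe z).symm
        rw [this]
        exact hHc
      bd := hbound }
  rw [show Φ = fun t => α * t + β from funext hΦa] at hRD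
  exact hG UU _ α β _ _ _ _ _ _ hα hRD (by
    filter_upwards [hm, hkm] with k h1 h2
    have h3 := h1 _ (qk_dvd h2)
    rw [hwtn, mul_div_cancel₀ _ (hx0 k).ne', norm_Wl, mul_zero, Complex.exp_zero, norm_one,
      mul_one]
    linarith)


end Pool.Agent.H918.SS
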