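import Pool.Agent.H918.D.Ent
import Pool.Graph.R_pool_sql_team_seeded_63374d34.N154.DD.PGeo

/-! The big Picard theorem, for curves in compact sets of projection matrices with bad fibres.
(After the file `N154/DD/Pic.lean` of an earlier team.) -/

set_option autoImplicit false

open Filter Topology Metric Set

namespace Pool.Agent.H918.SS

open Pool.Agent.Y190.OP Pool.Agent.N155 Pool.Agent.N154.GG

variable {N : ℕ} {T : Set (Mat N)} {Λ : AddSubgroup ℂ} {a : Mat N → ℂ} {κ : Type}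
    {η : κ → (Fin N → ℂ) → (Fin N → ℂ) → (Fin N → ℂ) → ℂ} {𝔅 : Set ℂ} {δ : ℝ}
    {r : ℕ} {e : Fin r → ℂ → Mat N} {P : ℂ → Mat N} {φ : ℂ → ℂ}

/-- the bad values are isolated, or the function is locally constant -/
theorem Bd.ev_loc (hb : Bd Λ 𝔅 δ) {Φ : ℂ → ℂ} {x : ℂ} (hΦ : AnalyticAt ℂ Φ x) :
    (Φ x ∈ 𝔅 ∧ ∀ᶠ z in 𝓝 x, Φ z = Φ x) ∨ ∀ᶠ z in 𝓝[≠] x, Φ z ∉ 𝔅 := by
  by_cases hx : Φ x ∈ 𝔅
  · rcases hΦ.eventually_eq_or_eventually_ne (g := fun _ => Φ x) analyticAt_const with h1 | h1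
    · exact Or.inl ⟨hx, h1⟩
    · right
      have h2 : ∀ᶠ z in 𝓝[≠] x, ‖Φ z - Φ x‖ < 4 * δ := by
        apply Eventually.filter_mono nhdsWithin_le_nhds
        have h3 : ContinuousAt (fun z => ‖Φ z - Φ x‖) x :=
          (hΦ.continuousAt.sub continuousAt_const).norm
        refine h3.eventually_lt_const ?_
        simp only [sub_self, norm_zero]
        have := hb.pos
        positivity
      filter_upwards [h1, h2] with z h3 h4 h5
      exact h3 (hb.sep _ h5 _ hx h4)
  · right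
    apply Eventually.filter_mono nhdsWithin_le_nhds
    exact hΦ.continuousAt.eventually (hb.closed.isOpen_compl.mem_nhds hx)

/-- a locally constant function has scale zero -/
theorem sg_zero_of_ev {x : ℂ} (h : ∀ᶠ z in 𝓝 x, φ z = φ x) : sg φ x = 0 := by
  refine le_antisymm (sg_le le_rfl fun m => ?_) (sg_nn φ x)
  have h1 : iteratedDeriv (m + 1) φ x = 0 := by
    have h2 : φ =ᶠ[𝓝 x] fun _ => φ x := h
    rw [h2.iteratedDeriv_eq (m + 1), iteratedDeriv_const, if_neg (Nat.succ_ne_zero m)]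
  unfold cf
  rw [h1, norm_zero, zero_div]
  positivity

/-- functions on the half plane which are periodic -/
theorem desc_diff (hφ : DifferentiableOn ℂ φ HP) (hper : ∀ z ∈ HP, φ (z + tpi) = φ z) :
    DifferentiableOn ℂ (fun t => φ (Complex.log t)) PDisc := by
  intro t0 ht0
  have ht00 : t0 ≠ 0 := ht0.2
  obtain ⟨h1, h2⟩ := log_mem_HP ht0
  set z0 := Complex.log t0 with hz0
  have h3 : DifferentiableAt ℂ (fun t => φ (z0 + Complex.log (t / t0))) t0 := by
    have e1 : z0 + Complex.log (t0 / t0) = z0 := by rw [div_self ht00, Complex.log_one, add_zero]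
    have e2 : DifferentiableAt ℂ φ (z0 + Complex.log (t0 / t0)) := by
      rw [e1]
      exact hφ.differentiableAt (isOpen_HP.mem_nhds h1)
    have e3 : DifferentiableAt ℂ (fun t => z0 + Complex.log (t / t0)) t0 := by
      have e4 : DifferentiableAt ℂ Complex.log (t0 / t0) := by
        rw [div_self ht00]
        exact Complex.differentiableAt_log Complex.one_mem_slitPlane
      have e5 : DifferentiableAt ℂ (fun t : ℂ => t / t0) t0 := by fun_prop
      exact (DifferentiableAt.comp (f := fun t : ℂ => t / t0) t0 e4 e5).const_add z0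
    exact DifferentiableAt.comp (f := fun t : ℂ => z0 + Complex.log (t / t0)) t0 e2 e3
  refine (h3.congr_of_eventuallyEq ?_).differentiableWithinAt
  have hev : ∀ᶠ t in 𝓝 t0, t ∈ PDisc ∧ z0 + Complex.log (t / t0) ∈ HP := by
    refine Eventually.and (isOpen_PDisc.mem_nhds ht0) ?_
    have e3 : ContinuousAt (fun t => z0 + Complex.log (t / t0)) t0 := by
      have e4 : ContinuousAt Complex.log (t0 / t0) := by
        rw [div_self ht00]
        exact (Complex.differentiableAt_log Complex.one_mem_slitPlane).continuousAt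
      have e5 : ContinuousAt (fun t : ℂ => t / t0) t0 := by fun_prop
      exact continuousAt_const.add (ContinuousAt.comp (f := fun t : ℂ => t / t0) e4 e5)
    refine e3.eventually (isOpen_HP.mem_nhds ?_)
    change z0 + Complex.log (t0 / t0) ∈ HP
    rw [div_self ht00, Complex.log_one, add_zero]
    exact h1
  filter_upwards [hev] with t ht
  have ht0' : t ≠ 0 := ht.1.2
  have e1 : Complex.exp (z0 + Complex.log (t / t0)) = Complex.exp (Complex.log t) := by
    rw [Complex.exp_add, h2, Complex.exp_log (div_ne_zero ht0' ht00), Complex.exp_log ht0']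
    field_simp
  obtain ⟨n, hn⟩ := Complex.exp_eq_exp_iff_exists_int.1 e1
  have e2 := per_int (F := φ) hper (log_mem_HP ht.1).1 n
  rw [hn]
  exact e2.symm

/-- if the scale tends to zero then the base function avoids the bad values near infinity, or it is
constant -/
theorem PD.avoid (hT : TD T Λ a) (hb : Bd Λ 𝔅 δ) (h : PD T Λ a P φ)
    (h0 : ∀ ε : ℝ, 0 < ε → ∃ A : ℝ, 0 < A ∧ ∀ z : ℂ, z.re ≤ -A → sg φ z ≤ ε) :
    (∃ A : ℝ, 0 < A ∧ ∀ z : ℂ, z.re ≤ -A → φ z ∉ 𝔅) ∨ ∃ c ∈ 𝔅, ∀ z ∈ HP, φ z = c := by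
  have hpi := Real.pi_pos
  have hder : ∀ z ∈ HP, ‖deriv φ z‖ ≤ sg φ z := fun z hz =>
    deriv_le_sg_l (h.dsc z).dif (by
      have : z.re < 0 := hz
      linarith)
  have hmv : ∀ {A C : ℝ}, 0 < A → (∀ z : ℂ, z.re ≤ -A → sg φ z ≤ C) → ∀ z w : ℂ, z.re ≤ -A →
      w.re ≤ -A → ‖φ z - φ w‖ ≤ C * ‖z - w‖ := by
    intro A C hA hC z w hz hw
    have hHP : ∀ z : ℂ, z.re ≤ -A → z ∈ HP := fun z hz => by
      change z.re < 0
      linarith
    exact (convex_halfSpace_re_le (-A)).norm_image_sub_le_of_norm_deriv_le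
      (fun x hx => h.diffAt (hHP x hx)) (fun x hx => (hder x (hHP x hx)).trans (hC x hx)) hw hz
  -- the function is periodic
  obtain ⟨δ0, hδ0, hd⟩ := hT.disc
  have hper : ∀ z ∈ HP, φ (z + tpi) = φ z := by
    obtain ⟨A, hA, hA'⟩ := h0 (δ0 / (4 * Real.pi)) (by positivity)
    have h1 : ∀ z : ℂ, z.re ≤ -A → φ (z + tpi) = φ z := by
      intro z hz
      have hz' : (z + tpi).re ≤ -A := by
        rw [Complex.add_re, tpi_re, add_zero]
        exact hz
      have e1 := hmv hA hA' (z + tpi) z hz' hz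
      have e2 : ‖z + tpi - z‖ = 2 * Real.pi := by
        rw [add_sub_cancel_left]
        have : tpi = ((2 * Real.pi : ℝ) : ℂ) * Complex.I := by
          unfold tpi
          push_cast
          ring
        rw [this, norm_mul, Complex.norm_I, mul_one, Complex.norm_real, Real.norm_of_nonneg]
        positivity
      rw [e2] at e1
      have e3 : δ0 / (4 * Real.pi) * (2 * Real.pi) = δ0 / 2 := by
        field_simp
        ring
      rw [e3] at e1
      exact sub_eq_zero.1 (hd _ (h.lat (show z.re < 0 by linarith)) (by linarith))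
    have hps : MapsTo (fun z : ℂ => z + tpi) HP HP := fun z hz => add_tpi_mem hz
    have hd1 : DifferentiableOn ℂ (fun z => φ (z + tpi)) HP :=
      h.dif.comp (by fun_prop) hps
    have h2 := (hd1.analyticOnNhd isOpen_HP).eqOn_of_preconnected_of_eventuallyEq
      (h.dif.analyticOnNhd isOpen_HP) convex_HP.isPreconnected
      (z₀ := ((-A - 1 : ℝ) : ℂ)) (by
        change (((-A - 1 : ℝ) : ℂ)).re < 0
        rw [Complex.ofReal_re]
        linarith) (by
        have h3 : ∀ᶠ z in 𝓝 (((-A - 1 : ℝ) : ℂ)), z.re < -A :=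
          Complex.continuous_re.continuousAt.eventually_lt_const (by
            rw [Complex.ofReal_re]
            linarith)
        filter_upwards [h3] with z hz
        exact h1 z hz.le)
    exact h2
  -- the function on the punctured disc
  set ψ : ℂ → ℂ := fun t => φ (Complex.log t) with hψ
  have hψd : DifferentiableOn ℂ ψ (ball 0 1 \ {0}) := desc_diff h.dif hper
  have ho : (fun t => ψ t - ψ 0) =o[𝓝[≠] (0 : ℂ)] fun t => (t - 0)⁻¹ := by
    obtain ⟨A, hA, hA'⟩ := h0 1 one_pos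
    set p : ℂ := ((-A : ℝ) : ℂ) with hp
    have hpre : p.re ≤ -A := by rw [hp, Complex.ofReal_re]
    have h1 : ∀ᶠ t in 𝓝[≠] (0 : ℂ), ‖ψ t - ψ 0‖ ≤
        (‖φ p‖ + ‖ψ 0‖ + A + Real.pi) + Real.log ‖t⁻¹‖ := by
      have h2 : ∀ᶠ t in 𝓝[≠] (0 : ℂ), ‖t‖ < Real.exp (-A) := by
        apply Eventually.filter_mono nhdsWithin_le_nhds
        filter_upwards [ball_mem_nhds (0 : ℂ) (Real.exp_pos (-A))] with t ht
        exact mem_ball_zero_iff.1 ht
      filter_upwards [h2, self_mem_nhdsWithin] with t ht ht0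
      have ht0' : t ≠ 0 := ht0
      have e1 : (Complex.log t).re ≤ -A := by
        rw [Complex.log_re, ← Real.log_exp (-A)]
        exact Real.log_le_log (norm_pos_iff.2 ht0') ht.le
      have e2 := hmv hA hA' (Complex.log t) p e1 hpre
      rw [one_mul] at e2
      have e3 : ‖Complex.log t - p‖ ≤ (Real.log ‖t⁻¹‖ + Real.pi) + A := by
        have e4 : ‖p‖ = A := by
          rw [hp, Complex.norm_real, norm_neg, Real.norm_of_nonneg hA.le]
        have e5 : ‖Complex.log t‖ ≤ |(Complex.log t).re| + |(Complex.log t).im| :=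
          Complex.norm_le_abs_re_add_abs_im _
        have e6 : |(Complex.log t).im| ≤ Real.pi := by
          rw [Complex.log_im]
          exact Complex.abs_arg_le_pi t
        have e7 : |(Complex.log t).re| = Real.log ‖t⁻¹‖ := by
          rw [abs_of_nonpos (by linarith), Complex.log_re, norm_inv, Real.log_inv]
        have e8 := norm_sub_le (Complex.log t) p
        rw [e4] at e8
        rw [e7] at e5
        linarith
      have e9 : ‖ψ t - ψ 0‖ ≤ ‖φ (Complex.log t) - φ p‖ + ‖φ p‖ + ‖ψ 0‖ := by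
        have f1 : ψ t - ψ 0 = (φ (Complex.log t) - φ p) + φ p - ψ 0 := by
          rw [hψ]
          ring
        rw [f1]
        exact (norm_sub_le _ _).trans (add_le_add_left (norm_add_le _ _) _)
      linarith
    have h2 : Tendsto (fun t : ℂ => ‖t⁻¹‖) (𝓝[≠] 0) atTop :=
      tendsto_norm_inv_nhdsNE_zero_atTop
    have h3 : (fun t : ℂ => (‖φ p‖ + ‖ψ 0‖ + A + Real.pi) + Real.log ‖t⁻¹‖) =o[𝓝[≠] (0 : ℂ)]
        fun t => ‖t⁻¹‖ := by
      have h4 : (fun x : ℝ => (‖φ p‖ + ‖ψ 0‖ + A + Real.pi) + Real.log x) =o[atTop]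
          fun x : ℝ => x := by
        have h5 : (fun _ : ℝ => (‖φ p‖ + ‖ψ 0‖ + A + Real.pi)) =o[atTop] fun x : ℝ => x :=
          Asymptotics.isLittleO_const_id_atTop _
        exact h5.add Real.isLittleO_log_id_atTop
      exact h4.comp_tendsto h2
    have h4 : (fun t => ψ t - ψ 0) =o[𝓝[≠] (0 : ℂ)] fun t : ℂ => ‖t⁻¹‖ := by
      refine Asymptotics.IsBigO.trans_isLittleO ?_ h3
      refine Asymptotics.IsBigO.of_bound 1 ?_
      filter_upwards [h1] with t ht
      rw [one_mul]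
      exact ht.trans (le_abs_self _)
    have h5 := h4.of_norm_right
    simpa using h5
  have hext := Complex.differentiableOn_update_limUnder_of_isLittleO
    (ball_mem_nhds (0 : ℂ) one_pos) hψd ho
  set Ψ : ℂ → ℂ := Function.update ψ 0 (limUnder (𝓝[≠] (0 : ℂ)) ψ) with hΨ
  have hΨψ : ∀ t : ℂ, t ≠ 0 → Ψ t = ψ t := fun t ht => by
    rw [hΨ, Function.update_of_ne ht]
  have han : AnalyticAt ℂ Ψ 0 := hext.analyticAt (ball_mem_nhds (0 : ℂ) one_pos)
  have hexp : ∀ z ∈ HP, Ψ (Complex.exp z) = φ z := by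
    intro z hz
    rw [hΨψ _ (Complex.exp_ne_zero z)]
    change φ (Complex.log (Complex.exp z)) = φ z
    have h1 := (log_mem_HP (exp_mem_PDisc hz)).2
    obtain ⟨n, hn⟩ := Complex.exp_eq_exp_iff_exists_int.1 h1
    have h2 := per_int (F := φ) hper hz n
    rw [hn]
    exact h2
  have hsmall : ∀ ρ : ℝ, 0 < ρ → ∃ A : ℝ, 0 < A ∧ ∀ z : ℂ, z.re ≤ -A →
      Complex.exp z ∈ ball (0 : ℂ) ρ := by
    intro ρ hρ
    refine ⟨max 1 (-Real.log ρ + 1), lt_max_of_lt_left one_pos, fun z hz => ?_⟩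
    rw [mem_ball_zero_iff, Complex.norm_exp, ← Real.lt_log_iff_exp_lt hρ]
    have := le_max_right 1 (-Real.log ρ + 1)
    linarith
  rcases hb.ev_loc han with ⟨h1, h2⟩ | h1
  · right
    refine ⟨Ψ 0, h1, ?_⟩
    obtain ⟨ρ, hρ, hρs⟩ := Metric.mem_nhds_iff.1 h2
    obtain ⟨A, hA, hA'⟩ := hsmall ρ hρ
    have h3 := (h.dif.analyticOnNhd isOpen_HP).eqOn_of_preconnected_of_eventuallyEq
      (g := fun _ => Ψ 0) (fun z _ => analyticAt_const) convex_HP.isPreconnected
      (z₀ := ((-A - 1 : ℝ) : ℂ)) (by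
        change (((-A - 1 : ℝ) : ℂ)).re < 0
        rw [Complex.ofReal_re]
        linarith) (by
        have h3 : ∀ᶠ z in 𝓝 (((-A - 1 : ℝ) : ℂ)), z.re < -A :=
          Complex.continuous_re.continuousAt.eventually_lt_const (by
            rw [Complex.ofReal_re]
            linarith)
        filter_upwards [h3] with z hz
        have h4 := hρs (hA' z hz.le)
        rw [← hexp z (show z.re < 0 by linarith)]
        exact h4)
    exact h3
  · left
    rw [eventually_nhdsWithin_iff] at h1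
    obtain ⟨ρ, hρ, hρs⟩ := Metric.mem_nhds_iff.1 h1
    obtain ⟨A, hA, hA'⟩ := hsmall ρ hρ
    refine ⟨A, hA, fun z hz => ?_⟩
    rw [← hexp z (show z.re < 0 by linarith)]
    exact hρs (hA' z hz) (Complex.exp_ne_zero z)

/-- if the scale does not tend to zero then the curve is contained in the exceptional set -/
theorem PD.factorB (hT : TD T Λ a) (hG : RIG T Λ a) (hb : Bd Λ 𝔅 δ) (hf : FibL T Λ a 𝔅)
    (hE : En T Λ a e) {q : ℕ} {K : ℝ} (hK : 0 ≤ K) (hLM : LMh T Λ a 𝔅 δ q e K)
    (h : PD T Λ a P φ) {c A : ℝ} (hc : 0 < c) (hA : 0 < A)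
    (hcA : ∀ z : ℂ, z.re ≤ -A → c ≤ sg φ z) : ∃ j, ∀ z ∈ HP, P z = e j (φ z) := by
  classical
  obtain ⟨k1, hk1⟩ := contractionB hT hG hb hf hE hK hLM
  obtain ⟨k2, hk2⟩ := main_estimateB hT hG hb hf hE hK hLM
  set k : ℕ := max (max k1 k2) 1 with hk
  have hkk1 : k1 ≤ k := (le_max_left _ _).trans (le_max_left _ _)
  have hkk2 : k2 ≤ k := (le_max_right _ _).trans (le_max_left _ _)
  have hk11 : 1 ≤ k := le_max_right _ _
  have hk0 : (0 : ℝ) < k := by exact_mod_cast hk11
  have hcon := hk1 k hkk1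
  obtain ⟨C, hC, hmain⟩ := hk2 k hkk2
  have h2r : (0 : ℝ) < 2 ^ r := by positivity
  have hqpos : qk k ≠ 0 := by
    unfold qk
    positivity
  have hq0 : 0 < ((qk k : ℕ) : ℝ)⁻¹ := by
    have := Nat.pos_of_ne_zero hqpos
    positivity
  set R : ℝ := k / c with hR
  have hR0 : 0 < R := by positivity
  set B : ℝ := A + (k + 1) / c + R + 1 with hB
  have hB0 : 0 < B := by positivity
  set u : ℂ → ℝ := fun z => sg φ z ^ qk k * Dh 𝔅 δ q e P φ z with hu
  have hu0 : ∀ z, 0 ≤ u z := fun z => mul_nonneg (pow_nonneg (sg_nn φ z) _)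
    (hb.Dh_nn q e P φ z)
  have hx0 : ∀ z, 0 ≤ Dh 𝔅 δ q e P φ z / 2 ^ r := fun z => div_nonneg (hb.Dh_nn q e P φ z) h2r.le
  have huM : ∀ z : ℂ, z.re ≤ -B + R → u z ≤ C ^ qk k * 2 ^ r := by
    intro z hz
    have hz1 : 1 ≤ -z.re := by
      have : 0 < (k + 1 : ℝ) / c := by positivity
      linarith
    have h1 := hmain P φ z (-z.re) (by linarith) (h.dsc z)
    have h2 : C / -z.re ≤ C := div_le_self hC.le hz1
    have h3 := pow_le_pow_left₀ (mul_nonneg (sg_nn φ z) (Real.rpow_nonneg (hx0 z) _))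
      (h1.trans h2) (qk k)
    rw [mul_pow, Real.rpow_inv_natCast_pow (hx0 z) hqpos, ← mul_div_assoc, div_le_iff₀ h2r] at h3
    exact h3
  have hzero := weight_zero (u := u) (A := B) (R := R) (M := C ^ qk k * 2 ^ r) hR0
    (fun z _ => hu0 z) huM (by
      intro b hb' z hz
      have hzA : z.re ≤ -A := by
        have : 0 < (k + 1 : ℝ) / c := by positivity
        linarith
      have hs := hcA z hzA
      have hs0 : 0 < sg φ z := hc.trans_le hs
      obtain ⟨w, hw1, hw2⟩ := hcon P φ z (-z.re) ((-b : ℝ) : ℂ) (h.dsc z) (by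
        have h1 : ((k : ℝ) + 1) / c ≤ -z.re := by linarith
        calc (k : ℝ) + 1 = ((k : ℝ) + 1) / c * c := by field_simp
          _ ≤ -z.re * sg φ z := by
              have : 0 ≤ ((k : ℝ) + 1) / c := by positivity
              have h3 : 0 ≤ -z.re := by linarith
              gcongr)
      refine ⟨w, ?_, ?_⟩
      · rw [hR, le_div_iff₀ hc]
        calc ‖w - z‖ * c ≤ ‖w - z‖ * sg φ z := by gcongr
          _ ≤ k := hw1
      · have h1 : ‖Complex.exp (((-b : ℝ) : ℂ) * (w - z))‖ = Real.exp (-b * (w.re - z.re)) := by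
          rw [Complex.norm_exp, Complex.re_ofReal_mul, Complex.sub_re]
        rw [h1] at hw2
        exact hw2)
  -- every point over a good value is in the exceptional set
  have hex : ∀ z : ℂ, z.re < -B → φ z ∉ 𝔅 → ∃ j, P z = e j (φ z) := by
    intro z hz hzB
    have h1 := hzero z hz
    have hs0 : 0 < sg φ z := hc.trans_le (hcA z (by
      have : 0 < (k + 1 : ℝ) / c := by positivity
      linarith))
    have h2 : Dh 𝔅 δ q e P φ z = 0 := by
      rcases mul_eq_zero.1 h1 with h2 | h2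
      · exact absurd h2 (pow_pos hs0 _).ne'
      · exact h2
    unfold Dh at h2
    rcases mul_eq_zero.1 h2 with h3 | h3
    · obtain ⟨j, -, hj⟩ := Finset.prod_eq_zero_iff.1 h3
      exact ⟨j, sub_eq_zero.1 (norm_eq_zero.1 hj)⟩
    · exact absurd h3 (pow_pos (hb.kk_pos hzB) _).ne'
  -- the identity theorem
  by_contra hno
  push Not at hno
  have hej : ∀ j, HolP HP (fun z => e j (φ z)) := fun j =>
    holP_comp_l (hE.mem j).1 h.dif isOpen_HP (mapsTo_univ _ _)
  have hall : ∀ j, ∀ z ∈ HP, ∀ᶠ w in 𝓝[≠] z, ¬ P w = e j (φ w) := by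
    intro j
    refine (holP_dich_on isOpen_HP convex_HP.isPreconnected h.hol (hej j)).resolve_left ?_
    intro h1
    obtain ⟨z, hz, hz'⟩ := hno j
    exact hz' (h1 z hz)
  set z1 : ℂ := ((-B - 1 : ℝ) : ℂ) with hz1
  have hz1re : z1.re = -B - 1 := by rw [hz1, Complex.ofReal_re]
  have hz1HP : z1 ∈ HP := by
    change z1.re < 0
    rw [hz1re]
    linarith
  have h1 : ∀ᶠ w in 𝓝[≠] z1, ∀ j, ¬ P w = e j (φ w) := eventually_all.2 fun j => hall j z1 hz1HP
  have h2 : ∀ᶠ w in 𝓝[≠] z1, w.re < -B := by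
    apply Eventually.filter_mono nhdsWithin_le_nhds
    exact Complex.continuous_re.continuousAt.eventually_lt_const (by rw [hz1re]; linarith)
  have h3 : ∀ᶠ w in 𝓝[≠] z1, φ w ∉ 𝔅 := by
    rcases hb.ev_loc ((h.dif.analyticOnNhd isOpen_HP) z1 hz1HP) with ⟨-, h4⟩ | h4
    · exfalso
      have h5 := hcA z1 (by
        rw [hz1re]
        have : 0 < (k + 1 : ℝ) / c := by positivity
        linarith)
      rw [sg_zero_of_ev h4] at h5
      linarith
    · exact h4
  obtain ⟨w, hw1, hw2, hw3⟩ := (h1.and (h2.and h3)).exists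
  obtain ⟨j, hj⟩ := hex w hw2 hw3
  exact hw1 j hj

/-- **The big Picard theorem** -/
theorem PD.picardB (hT : TD T Λ a) (hG : RIG T Λ a) (hb : Bd Λ 𝔅 δ) (hf : FibL T Λ a 𝔅)
    (hE : En T Λ a e) {q : ℕ} {K : ℝ} (hK : 0 ≤ K) (hLM : LMh T Λ a 𝔅 δ q e K)
    (h : PD T Λ a P φ) :
    (∃ M0 ∈ T, ∀ ε : ℝ, 0 < ε → ∃ A : ℝ, 0 < A ∧ ∀ z : ℂ, z.re ≤ -A → ‖P z - M0‖ ≤ ε) ∨
      (∃ c ∈ 𝔅, ∀ z ∈ HP, φ z = c) ∨ ∃ j, ∀ z ∈ HP, P z = e j (φ z) := by
  rcases h.dich hT with ⟨c, hc, A, hA, h1⟩ | h1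
  · exact Or.inr (Or.inr (PD.factorB hT hG hb hf hE hK hLM h hc hA h1))
  · rcases PD.avoid hT hb h h1 with ⟨A0, hA0, h2⟩ | h2
    · left
      obtain ⟨C, hC, hgrad⟩ := gradient0 hT hb hf
      refine kwack hT.comp hT.sub h.hol h.mem h.per fun ε hε => ?_
      obtain ⟨A, hA, hA'⟩ := h1 (ε / C) (by positivity)
      refine ⟨max A (A0 + C / ε), lt_max_of_lt_left hA, fun z hz => ?_⟩
      have hzA : z.re ≤ -A := by
        have := le_max_left A (A0 + C / ε)
        linarith
      have hzC : A0 + C / ε ≤ -z.re := by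
        have := le_max_right A (A0 + C / ε)
        linarith
      have hz0 : 0 < -z.re - A0 := by
        have : 0 < C / ε := by positivity
        linarith
      have hsub : ball z (-z.re - A0) ⊆ ball z (-z.re) := ball_subset_ball (by linarith)
      have h3 := hgrad P φ z (-z.re - A0) hz0 ((h.dsc z).mono hsub) (by
        intro w hw
        apply h2
        rw [mem_ball, dist_eq_norm] at hw
        have h4 := (Complex.re_le_norm (w - z)).trans_lt hw
        rw [Complex.sub_re] at h4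
        linarith)
      refine h3.trans ?_
      have h4 : max (sg φ z) (1 / (-z.re - A0)) ≤ ε / C := by
        apply max_le (hA' z hzA)
        rw [div_le_iff₀ hz0]
        have h5 : C / ε ≤ -z.re - A0 := by linarith
        rw [div_le_iff₀ hε] at h5
        rw [div_mul_eq_mul_div, le_div_iff₀ hC]
        linarith
      calc C * max (sg φ z) (1 / (-z.re - A0)) ≤ C * (ε / C) :=
            mul_le_mul_of_nonneg_left h4 hC.le
        _ = ε := by field_simp
    · exact Or.inr (Or.inl h2)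

end Pool.Agent.H918.SS
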