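import Pool.Agent.H918.D.LMD

/-! Rescaled sequences of discs. (After the file `N154/DD/Seq.lean` of an earlier team.) -/

set_option autoImplicit false

open Filter Topology Metric Set

namespace Pool.Agent.H918.SS

open Pool.Agent.Y190.OP Pool.Agent.N155 Pool.Agent.N154.GG

variable {N : ℕ} {T : Set (Mat N)} {Λ : AddSubgroup ℂ} {a : Mat N → ℂ} {κ : Type}
    {η : κ → (Fin N → ℂ) → (Fin N → ℂ) → (Fin N → ℂ) → ℂ} {𝔅 : Set ℂ} {δ : ℝ}
    {r : ℕ} {e : Fin r → ℂ → Mat N} {q : ℕ} {D K : ℝ} {nn : ℕ → ℕ} {b : ℕ → ℂ}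
    {h : ℕ → ℂ → Mat N} {φ : ℕ → ℂ → ℂ}

/-- a point which is not bad is far from the bad values -/
theorem Bd.far (hb : Bd Λ 𝔅 δ) {w : ℂ} (hw : w ∉ 𝔅) : ∃ c > 0, ∀ b ∈ 𝔅, c ≤ ‖w - b‖ := by
  have hδ := hb.pos
  by_cases h : ∃ b0 ∈ 𝔅, ‖w - b0‖ < 2 * δ
  · obtain ⟨b0, h0, h1⟩ := h
    refine ⟨min ‖w - b0‖ (2 * δ), lt_min ?_ (by positivity), fun b hbb => ?_⟩
    · rw [norm_pos_iff, sub_ne_zero]
      rintro rfl
      exact hw h0
    · by_cases h2 : b = b0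
      · rw [h2]
        exact min_le_left _ _
      · refine (min_le_right _ _).trans ?_
        by_contra hcon
        push Not at hcon
        apply h2
        apply hb.sep b hbb b0 h0
        have e1 : b - b0 = (w - b0) - (w - b) := by ring
        rw [e1]
        have := norm_sub_le (w - b0) (w - b)
        linarith
  · push Not at h
    exact ⟨2 * δ, by positivity, h⟩

theorem Bd.closed (hb : Bd Λ 𝔅 δ) : IsClosed 𝔅 := by
  rw [← isOpen_compl_iff, Metric.isOpen_iff]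
  intro w hw
  obtain ⟨c, hc, h⟩ := hb.far hw
  refine ⟨c, hc, fun z hz hbad => ?_⟩
  have := h z hbad
  rw [mem_ball, dist_eq_norm, norm_sub_rev] at hz
  linarith

theorem Bd.ev_far (hb : Bd Λ 𝔅 δ) {𝓤 : Ultrafilter ℕ} {Φ : ℂ → ℂ}
    (hc : CConv (𝓤 : Filter ℕ) univ φ Φ) {z : ℂ} (hz : Φ z ∉ 𝔅) :
    ∃ c > 0, ∃ ρ > 0, ∀ᶠ k in (𝓤 : Filter ℕ), ∀ w ∈ ball z ρ, ∀ b ∈ 𝔅, c ≤ ‖φ k w - b‖ := by
  obtain ⟨c, hc0, h⟩ := hb.far hz
  have h1 := Metric.tendsto_nhds.1 (hc z (mem_univ z)) (c / 2) (by positivity)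
  rw [eventually_prod_iff] at h1
  obtain ⟨pa, hpa, pb, hpb, hab⟩ := h1
  obtain ⟨ρ, hρ, hρs⟩ := Metric.mem_nhds_iff.1 hpb
  refine ⟨c / 2, by positivity, ρ, hρ, ?_⟩
  filter_upwards [hpa] with k hk w hw b hbb
  have h2 := hab hk (hρs hw)
  rw [dist_eq_norm] at h2
  have h3 := h b hbb
  have h4 := norm_sub_le (φ k w - b) (φ k w - Φ z)
  rw [sub_sub_sub_cancel_left] at h4
  simp only at h2
  linarith

/-- limits of curves, on open sets -/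
theorem exists_limit_on (hT : IsCompact T) (hTP : T ⊆ PM) {𝓤 : Ultrafilter ℕ} {U : Set ℂ}
    (hU : IsOpen U) (hloc : ∀ z ∈ U, ∃ ρ > 0, ∃ K : ℝ, ∀ᶠ n in (𝓤 : Filter ℕ),
      HolP (ball z ρ) (h n) ∧ (∀ w ∈ ball z ρ, h n w ∈ T) ∧
      ∀ w ∈ ball z ρ, ‖fderiv ℝ (h n) w‖ ≤ K) :
    ∃ H : ℂ → Mat N, HolP U H ∧ (∀ z ∈ U, H z ∈ T) ∧ CConv (𝓤 : Filter ℕ) U h H := by
  have hlim : ∀ z ∈ U, ∃ y, y ∈ T ∧ Tendsto (fun n => h n z) 𝓤 (𝓝 y) := by
    intro z hz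
    obtain ⟨ρ, hρ, K, hK⟩ := hloc z hz
    have h1 : (𝓤.map (fun n => h n z) : Filter (Mat N)) ≤ 𝓟 T := by
      rw [Ultrafilter.coe_map, le_principal_iff, mem_map]
      filter_upwards [hK] with n hn
      exact hn.2.1 z (mem_ball_self hρ)
    obtain ⟨y, hy, hy'⟩ := hT.ultrafilter_le_nhds (𝓤.map (fun n => h n z)) h1
    exact ⟨y, hy, hy'⟩
  choose! H hHmem hHt using hlim
  have hCC : CConv (𝓤 : Filter ℕ) U h H := by
    intro z hz
    obtain ⟨ρ, hρ, K0, hK0⟩ := hloc z hz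
    set K := max K0 0 with hKdef
    have hK0' : 0 ≤ K := le_max_right _ _
    have hK : ∀ᶠ n in (𝓤 : Filter ℕ), (∀ x ∈ ball z ρ, ‖fderiv ℝ (h n) x‖ ≤ K) ∧
        HolP (ball z ρ) (h n) := by
      filter_upwards [hK0] with n hn
      exact ⟨fun x hx => (hn.2.2 x hx).trans (le_max_left _ _), hn.1⟩
    rw [Metric.tendsto_nhds]
    intro ε hε
    have h2 := Metric.tendsto_nhds.1 (hHt z hz) (ε / 2) (by positivity)
    rw [eventually_prod_iff]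
    refine ⟨_, h2.and hK, fun w => w ∈ ball z ρ ∧ K * ‖w - z‖ < ε / 2, ?_, ?_⟩
    · have h5 : Tendsto (fun w => K * ‖w - z‖) (𝓝 z) (𝓝 0) := by
        have : Continuous fun w : ℂ => K * ‖w - z‖ := by fun_prop
        have h6 := this.tendsto z
        simpa using h6
      have h7 : ∀ᶠ w in 𝓝 z, w ∈ ball z ρ := ball_mem_nhds z hρ
      exact h7.and (h5.eventually_lt_const (by positivity))
    · rintro n ⟨hn1, hn2, hn3⟩ w ⟨hw1, hw2⟩
      have h6 : ‖h n w - h n z‖ ≤ K * ‖w - z‖ :=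
        (convex_ball z ρ).norm_image_sub_le_of_norm_fderiv_le
          (fun x hx => hn3.differentiableAt hx)
          (fun x hx => hn2 x hx) (mem_ball_self hρ) hw1
      calc dist (h n w) (H z) ≤ dist (h n w) (h n z) + dist (h n z) (H z) := dist_triangle _ _ _
        _ < ε / 2 + ε / 2 := by
            refine add_lt_add ?_ hn1
            rw [dist_eq_norm]
            exact h6.trans_lt hw2
        _ = ε := by ring
  refine ⟨H, fun z hz => ?_, hHmem, hCC⟩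
  obtain ⟨ρ, hρ, K0, hK0⟩ := hloc z hz
  obtain ⟨ρ', hρ', hsub⟩ := Metric.isOpen_iff.1 hU z hz
  have hl := holP_limit (l := (𝓤 : Filter ℕ)) (U := ball z (min ρ ρ')) (φ := h) isOpen_ball
    (fun w hw => hCC w (hsub (ball_subset_ball (min_le_right _ _) hw))) (by
      filter_upwards [hK0] with n hn
      exact hn.1.mono (ball_subset_ball (min_le_left _ _)))
    (fun w hw => hTP (hHmem w (hsub (ball_subset_ball (min_le_right _ _) hw))))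
  exact hl.1 z (mem_ball_self (lt_min hρ hρ'))

/-- the local maximum principle -/
def LMh (T : Set (Mat N)) (Λ : AddSubgroup ℂ) (a : Mat N → ℂ) (𝔅 : Set ℂ) (δ : ℝ) (n : ℕ)
    (e : Fin r → ℂ → Mat N) (K : ℝ) : Prop :=
  ∀ (P : ℂ → Mat N) (φ : ℂ → ℂ) (s : ℂ) (ρ R : ℝ), 0 < ρ → ρ < R → Dsc T Λ a s R P φ →
      (∀ t ∈ closedBall s ρ, ‖φ t - φ s‖ ≤ min 1 δ / 8) → ∀ (G : ℂ → ℂ) (B : ℝ),
      (∀ t ∈ closedBall s ρ, DifferentiableAt ℂ G t) →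
      (∀ t : ℂ, ρ / 2 ≤ ‖t - s‖ → ‖t - s‖ ≤ ρ → Dh 𝔅 δ n e P φ t * ‖G t‖ ≤ B) →
      Dh 𝔅 δ n e P φ s * ‖G s‖ ≤ K * B

/-- a rescaled sequence of discs, with weights -/
structure SQh (T : Set (Mat N)) (Λ : AddSubgroup ℂ) (a : Mat N → ℂ) {r : ℕ}
    (e : Fin r → ℂ → Mat N) (𝔅 : Set ℂ) (δ : ℝ) (q : ℕ) (D : ℝ) (nn : ℕ → ℕ) (b : ℕ → ℂ)
    (h : ℕ → ℂ → Mat N) (φ : ℕ → ℂ → ℂ) : Prop where
  nge : ∀ k, k ≤ nn k
  dsc : ∀ k : ℕ, Dsc T Λ a 0 ((k : ℝ) + 1) (h k) (φ k)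
  b0 : ∀ k, ‖φ k 0‖ ≤ D
  s0 : ∀ k, sg (φ k) 0 = 1
  d0 : ∀ k, 0 < Dh 𝔅 δ q e (h k) (φ k) 0
  bd : ∀ (k : ℕ) (t : ℂ), ‖t‖ ≤ k → sg (φ k) t ^ (qk (nn k)) *
    (Dh 𝔅 δ q e (h k) (φ k) t * ‖Complex.exp (b k * t)‖) ≤ 2 * Dh 𝔅 δ q e (h k) (φ k) 0

theorem SQh.dscL (hs : SQh T Λ a e 𝔅 δ q D nn b h φ) (L : ℝ) :
    ∀ᶠ k in (UU : Filter ℕ), Dsc T Λ a 0 L (h k) (φ k) := by
  filter_upwards [uu_ge L] with k hk
  exact (hs.dsc k).mono (ball_subset_ball (by linarith))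

theorem LMh.lmp (hLM : LMh T Λ a 𝔅 δ q e K) {R ρ0 : ℝ} {P : ℂ → Mat N} {ψ : ℂ → ℂ}
    (hD : Dsc T Λ a 0 ρ0 P ψ) (hR : R < ρ0) :
    LMP K (min 1 δ / 8) R (Dh 𝔅 δ q e P ψ) (sg ψ) := by
  intro s ρ G B hρ hsR hsg hG hB
  have hin : ∀ x ∈ closedBall s ρ, ‖x‖ ≤ R := by
    intro x hx
    rw [mem_closedBall, dist_eq_norm] at hx
    have := norm_add_le (x - s) s
    rw [sub_add_cancel] at this
    linarith
  refine hLM P ψ s ρ (ρ + (ρ0 - R)) hρ (by linarith) (hD.mono ?_) ?_ G B hG hB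
  · apply ball_subset_ball'
    rw [dist_zero_right]
    linarith
  · intro t ht
    have h1 := (convex_closedBall s ρ).norm_image_sub_le_of_norm_deriv_le (f := ψ)
      (C := min 1 δ / 8 / ρ) (fun x hx => hD.dif.differentiableAt (isOpen_ball.mem_nhds
        (mem_ball_zero_iff.2 (by linarith [hin x hx])))) (fun x hx => by
        refine (deriv_le_sg_l (hD.dif.mono ball_sub_l) (by linarith [hin x hx])).trans ?_
        rw [le_div_iff₀ hρ, mul_comm]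
        exact hsg x hx) (mem_closedBall_self hρ.le) ht
    rw [mem_closedBall, dist_eq_norm] at ht
    have h2 : 0 ≤ min 1 δ / 8 / ρ := by
      by_contra hcon
      push Not at hcon
      have h3 := hsg s (mem_closedBall_self hρ.le)
      have h4 : 0 ≤ ρ * sg ψ s := mul_nonneg hρ.le (sg_nn ψ s)
      have h5 : min 1 δ / 8 / ρ * ρ < 0 := mul_neg_of_neg_of_pos hcon hρ
      rw [div_mul_cancel₀ _ hρ.ne'] at h5
      linarith
    calc ‖ψ t - ψ s‖ ≤ min 1 δ / 8 / ρ * ‖t - s‖ := h1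
      _ ≤ min 1 δ / 8 / ρ * ρ := mul_le_mul_of_nonneg_left ht h2
      _ = min 1 δ / 8 := div_mul_cancel₀ _ hρ.ne'

theorem SQh.LB (hs : SQh T Λ a e 𝔅 δ q D nn b h φ) (hT : TD T Λ a) (hb : Bd Λ 𝔅 δ)
    (he : ∀ j, e j ∈ S0 T Λ a) (hK : 0 ≤ K) (hLM : LMh T Λ a 𝔅 δ q e K) (r0 : ℝ) :
    ∃ K' : ℝ, ∀ᶠ k in (UU : Filter ℕ), ∀ t : ℂ, ‖t‖ ≤ r0 → sg (φ k) t ≤ K' := by
  by_contra hcon
  push Not at hcon
  have hc0 : 0 < min 1 δ / 8 := by
    have := hb.pos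
    positivity
  obtain ⟨S, R, n0, hS, hR, hmR, hmain⟩ := LB_core_h (m0 := max r0 0 + 3) hK hc0
    (by linarith [le_max_right r0 0])
  have h1 := hcon S
  obtain ⟨k, ⟨t, ht, hst⟩, hkR, hkn⟩ := (h1.and ((uu_ge (R + 4 * (R + 1))).and
    (uu_ge (n0 : ℝ)))).exists
  have hm0 : 0 ≤ max r0 0 := le_max_right _ _
  have hmr : r0 ≤ max r0 0 := le_max_left _ _
  have hk1 : R + 4 * (R + 1) < (k : ℝ) + 1 := by linarith
  obtain ⟨t1, ht1, hs1⟩ := sg_max_l (hs.dsc k).dif hS.le hst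
    (show ‖t‖ < max r0 0 + 3 - 2 by linarith) (by linarith)
  obtain ⟨t2, ht2, hs2⟩ := sg_max_l (hs.dsc k).dif hS.le hst
    (show ‖t‖ < max r0 0 + 3 by linarith) (by linarith)
  have hd0 := hs.d0 k
  refine hmain (nn k + 1).factorial ?_ (b k) (Dh 𝔅 δ q e (h k) (φ k)) (sg (φ k)) (2 ^ r) t1 t2
    (hb.Dh_nn q e _ _) (fun z hz => Dh_le hT hb q he ((hs.dsc k).mem z
      (mem_ball_zero_iff.2 (by linarith)))) (sg_nn (φ k))
    (fun z w hz hw hh => harnack_mid (hs.dsc k).dif (hs.s0 k) hR.le hk1 hz hh)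
    (hLM.lmp (hs.dsc k) (by linarith)) (hs.s0 k) (hs.d0 k) ?_ ht1 ht2 hs1 hs2
  · have h2 : n0 ≤ k := by exact_mod_cast hkn
    exact (h2.trans (hs.nge k)).trans ((Nat.le_succ _).trans (Nat.self_le_factorial _))
  · intro t ht
    have h3 := hs.bd k t (by linarith)
    rw [mul_zero, Complex.exp_zero, norm_one, mul_one]
    exact h3

/-- the limit of the functions -/
theorem SQh.limfun (hs : SQh T Λ a e 𝔅 δ q D nn b h φ) (hT : TD T Λ a) (hb : Bd Λ 𝔅 δ)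
    (he : ∀ j, e j ∈ S0 T Λ a) (hK : 0 ≤ K) (hLM : LMh T Λ a 𝔅 δ q e K) :
    ∃ Φ : ℂ → ℂ, Differentiable ℂ Φ ∧ CConv (UU : Filter ℕ) univ φ Φ ∧
      ∀ z, Tendsto (fun k => deriv (φ k) z) UU (𝓝 (deriv Φ z)) :=
  exists_limit_fun_l (𝓤 := UU) (φ := φ)
    (fun L => (hs.dscL L).mono fun _ h => h.dif)
    ⟨D, Eventually.of_forall hs.b0⟩ (by
      intro L
      obtain ⟨K, hK⟩ := hs.LB hT hb he hK hLM L
      refine ⟨K, ?_⟩
      filter_upwards [hK, hs.dscL L] with k hk hd z hz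
      exact (deriv_le_sg_l (hd.dif.mono ball_sub_l) (by
        have := mem_ball_zero_iff.1 hz
        linarith)).trans (hk z (mem_ball_zero_iff.1 hz).le))

/-- the order of the dominating coefficient -/
theorem SQh.coef (hT : TD T Λ a) (hb : Bd Λ 𝔅 δ) (hs : SQh T Λ a e 𝔅 δ q D nn b h φ)
    (he : ∀ j, e j ∈ S0 T Λ a) (hK : 0 ≤ K) (hLM : LMh T Λ a 𝔅 δ q e K) :
    ∃ m : ℕ, ∀ᶠ k in (UU : Filter ℕ), ∀ p : ℕ, p * (m + 1) = qk (nn k) →
      1 / 2 ≤ cf (φ k) (m + 1) 0 ^ p := by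
  set s : ℕ → ℝ := fun k => (1 / 2 : ℝ) ^ (((qk (nn k) : ℕ) : ℝ)⁻¹) with hsdef
  have hqpos : ∀ k, qk (nn k) ≠ 0 := fun k => by
    unfold qk
    positivity
  have hq1 : ∀ k, (1 : ℝ) ≤ (qk (nn k) : ℝ) := fun k => by
    exact_mod_cast Nat.one_le_iff_ne_zero.2 (hqpos k)
  have hs0 : ∀ k, 0 ≤ s k := fun k => by positivity
  have hspow : ∀ k, s k ^ (qk (nn k)) = 1 / 2 := fun k =>
    Real.rpow_inv_natCast_pow (by norm_num) (hqpos k)
  have hs1 : ∀ k, s k < 1 := fun k =>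
    Real.rpow_lt_one (by norm_num) (by norm_num) (inv_pos.2 (by linarith [hq1 k]))
  have hs2 : ∀ k, 1 / 2 ≤ s k := by
    intro k
    have h1 := Real.rpow_le_rpow_of_exponent_ge (x := 1 / 2) (y := 1)
      (z := ((qk (nn k) : ℕ) : ℝ)⁻¹) (by norm_num) (by norm_num) (inv_le_one_of_one_le₀ (hq1 k))
    rwa [Real.rpow_one] at h1
  choose m hm using fun k => exists_cf_l (φ := φ k) (z := 0) (hs0 k) (show s k < sg (φ k) 0 by
    rw [hs.s0 k]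
    exact hs1 k)
  obtain ⟨K, hK⟩ := hs.LB hT hb he hK hLM 4
  have hbound : ∀ᶠ k in (UU : Filter ℕ), ∃ m' < ⌈4 * K⌉₊, m k = m' := by
    filter_upwards [hK, hs.dscL 5] with k hk hd
    refine ⟨m k, ?_, rfl⟩
    have hK0 : 0 ≤ K := (sg_nn (φ k) 0).trans (hk 0 (by simp))
    have h1 : ∀ w ∈ sphere (0 : ℂ) 4, ‖φ k w - φ k 0‖ ≤ 4 * K := by
      intro w hw
      rw [mem_sphere_zero_iff_norm] at hw
      have h6 : ‖φ k w - φ k 0‖ ≤ K * ‖w - 0‖ :=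
        (convex_closedBall (0 : ℂ) 4).norm_image_sub_le_of_norm_deriv_le
          (fun x hx => hd.dif.differentiableAt (isOpen_ball.mem_nhds
            (closedBall_subset_ball (by norm_num) hx)))
          (fun x hx => (deriv_le_sg_l (hd.dif.mono ball_sub_l) (by
            have := mem_closedBall_zero_iff.1 hx
            linarith)).trans (hk x (mem_closedBall_zero_iff.1 hx)))
          (mem_closedBall_self (by norm_num)) (mem_closedBall_zero_iff.2 hw.le)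
      rw [sub_zero, hw] at h6
      linarith
    have h2 := cf_le_l hd.dif (by norm_num) (by norm_num) h1 (m k)
    have h3 : (1 / 2 : ℝ) ^ (m k + 1) ≤ s k ^ (m k + 1) :=
      pow_le_pow_left₀ (by norm_num) (hs2 k) _
    have h4 : (1 / 2 : ℝ) ^ (m k + 1) < 4 * K / 4 ^ (m k + 1) := (h3.trans_lt (hm k)).trans_le h2
    rw [lt_div_iff₀ (by positivity), ← mul_pow] at h4
    norm_num at h4
    have h5 : ((m k : ℝ) + 1) < 2 ^ (m k + 1) := by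
      have := Nat.lt_two_pow_self (n := m k + 1)
      exact_mod_cast this
    have h6 : (m k : ℝ) < 4 * K := by linarith
    have h7 := h6.trans_le (Nat.le_ceil (4 * K))
    exact_mod_cast h7
  obtain ⟨m', hm'⟩ := pigeon hbound
  refine ⟨m', ?_⟩
  filter_upwards [hm'] with k hk p hp
  have h1 := hm k
  rw [hk] at h1
  calc (1 / 2 : ℝ) = s k ^ (qk (nn k)) := (hspow k).symm
    _ = (s k ^ (m' + 1)) ^ p := by rw [← pow_mul, ← hp, mul_comm]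
    _ ≤ cf (φ k) (m' + 1) 0 ^ p := pow_le_pow_left₀ (pow_nonneg (hs0 k) _) h1.le p


end Pool.Agent.H918.SS
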